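import Mathlib

set_option autoImplicit false

/-!
Amalgamation for runs of pushdown automata without input (Kruskal argument).
-/

namespace Pool.Agent.R576.Amalg

/-! ### Kruskal's theorem for labelled binary trees -/

/-- binary trees with labelled leaves and labelled inner nodes -/
inductive BT (A B : Type) where
  | leaf (l : A) : BT A B
  | node (l : B) (a b : BT A B) : BT A B

namespace BT

variable {A B : Type}

def size : BT A B → ℕ
  | leaf _ => 0
  | node _ a b => a.size + b.size + 1

def AllIn (S : Set A) (T : Set B) : BT A B → Prop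
  | leaf l => l ∈ S
  | node l a b => l ∈ T ∧ a.AllIn S T ∧ b.AllIn S T

inductive Emb : BT A B → BT A B → Prop
  | leaf (l : A) : Emb (leaf l) (leaf l)
  | left (t a b : BT A B) (l : B) : Emb t a → Emb t (node l a b)
  | right (t a b : BT A B) (l : B) : Emb t b → Emb t (node l a b)
  | node (l : B) (a b a' b' : BT A B) : Emb a a' → Emb b b' → Emb (node l a b) (node l a' b')

theorem Emb.refl (t : BT A B) : Emb t t := by
  induction t with
  | leaf l => exact Emb.leaf l
  | node l a b iha ihb => exact Emb.node l a b a b iha ihb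

theorem Emb.trans {t u v : BT A B} (h1 : Emb t u) (h2 : Emb u v) : Emb t v := by
  induction h2 generalizing t with
  | leaf l => exact h1
  | left u a b l _ ih => exact Emb.left _ _ _ _ (ih h1)
  | right u a b l _ ih => exact Emb.right _ _ _ _ (ih h1)
  | node l a b a' b' _ _ iha ihb =>
    cases h1 with
    | left _ _ _ _ h => exact Emb.left _ _ _ _ (iha h)
    | right _ _ _ _ h => exact Emb.right _ _ _ _ (ihb h)
    | node _ a0 b0 _ _ h h' => exact Emb.node _ _ _ _ _ (iha h) (ihb h')

instance : IsPreorder (BT A B) Emb where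
  refl := Emb.refl
  trans _ _ _ := Emb.trans

/-- children -/
inductive Child : BT A B → BT A B → Prop
  | left (l : B) (a b : BT A B) : Child a (node l a b)
  | right (l : B) (a b : BT A B) : Child b (node l a b)

theorem Child.size_lt {c t : BT A B} (h : Child c t) : c.size < t.size := by
  cases h <;> simp only [size] <;> omega

theorem Child.emb {c t x : BT A B} (h : Child c t) (hx : Emb x c) : Emb x t := by
  cases h with
  | left l a b => exact Emb.left _ _ _ _ hx
  | right l a b => exact Emb.right _ _ _ _ hx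

theorem Child.allIn {S : Set A} {T : Set B} {c t : BT A B} (h : Child c t) (ht : t.AllIn S T) :
    c.AllIn S T := by
  cases h with
  | left l a b => exact ht.2.1
  | right l a b => exact ht.2.2

theorem kruskal (S : Set A) (T : Set B) (hS : S.Finite) (hT : T.Finite) :
    {t : BT A B | t.AllIn S T}.PartiallyWellOrderedOn Emb := by
  rw [Set.PartiallyWellOrderedOn.iff_not_exists_isMinBadSeq size]
  rintro ⟨f, hf1, hf2⟩
  let D : Set (BT A B) := {c | ∃ n, Child c (f n)}
  have hD : D.PartiallyWellOrderedOn Emb := by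
    rw [Set.PartiallyWellOrderedOn.iff_forall_not_isBadSeq]
    intro g hg
    choose k hk using hg.1
    obtain ⟨n0, hn0⟩ : ∃ n0, ∀ n, k n0 ≤ k n := by
      obtain ⟨x, ⟨n0, rfl⟩, hx⟩ := WellFounded.has_min (wellFounded_lt (α := ℕ)) (Set.range k)
        ⟨k 0, 0, rfl⟩
      exact ⟨n0, fun n => not_lt.mp (hx _ ⟨n, rfl⟩)⟩
    refine hf2 (k n0) (fun i => if i < k n0 then f i else g (n0 + (i - k n0)))
      (fun m hm => (if_pos hm).symm) ?_ ⟨?_, ?_⟩
    · simp only [lt_irrefl, if_false, Nat.sub_self, Nat.add_zero]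
      exact (hk n0).size_lt
    · intro n
      by_cases hn : n < k n0
      · simp only [if_pos hn]
        exact hf1.1 n
      · simp only [if_neg hn]
        exact (hk _).allIn (hf1.1 _)
    · intro m n hmn
      by_cases hn : n < k n0
      · have hm : m < k n0 := by omega
        simp only [if_pos hn, if_pos hm]
        exact hf1.2 m n hmn
      · by_cases hm : m < k n0
        · simp only [if_neg hn, if_pos hm]
          intro h
          refine hf1.2 m (k (n0 + (n - k n0))) ?_ ((hk _).emb h)
          have := hn0 (n0 + (n - k n0))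
          omega
        · simp only [if_neg hn, if_neg hm]
          exact hg.2 _ _ (by omega)
  have h1 : (leaf '' S : Set (BT A B)).PartiallyWellOrderedOn Emb :=
    (hS.image _).partiallyWellOrderedOn
  have h2 : ((fun x : B × (BT A B × BT A B) => node x.1 x.2.1 x.2.2) '' (T ×ˢ (D ×ˢ D))
      : Set (BT A B)).PartiallyWellOrderedOn Emb := by
    have hT' : T.PartiallyWellOrderedOn (fun x y : B => x = y) := hT.partiallyWellOrderedOn
    refine (hT'.prod (hD.prod hD)).image_of_monotone_on ?_
    rintro ⟨l, a, b⟩ - ⟨l', a', b'⟩ - ⟨h, h', h''⟩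
    simp only at h h' h''
    subst h
    exact Emb.node _ _ _ _ _ h' h''
  obtain ⟨m, n, hmn, he⟩ := (h1.union h2).exists_lt (f := f) (by
    intro n
    have hn := hf1.1 n
    have hc : ∀ c, Child c (f n) → c ∈ D := fun c hc => ⟨n, hc⟩
    rcases hfn : f n with l | ⟨l, a, b⟩
    · left
      rw [hfn] at hn
      exact ⟨l, hn, rfl⟩
    · right
      rw [hfn] at hn hc
      exact ⟨(l, a, b), ⟨hn.1, hc a (Child.left _ _ _), hc b (Child.right _ _ _)⟩, rfl⟩)
  exact hf1.2 m n hmn he

end BT

/-! ### Pushdown automata without input -/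

/-- the rules of a pushdown automaton without input; stacks are written with the top first -/
structure PD (Q G R : Type) where
  src : R → Q
  top : R → G
  push : R → List G
  tgt : R → Q

variable {Q G R : Type} (P : PD Q G R)

inductive Run : Q → List G → List R → Q → List G → Prop
  | nil (q : Q) (δ : List G) : Run q δ [] q δ
  | cons (r : R) (δ : List G) (μ : List R) (q' : Q) (δ' : List G) :
      Run (P.tgt r) (P.push r ++ δ) μ q' δ' → Run (P.src r) (P.top r :: δ) (r :: μ) q' δ'

variable {P}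

theorem Run.append {q q' q'' : Q} {δ δ' δ'' : List G} {μ ν : List R} (h : Run P q δ μ q' δ')
    (h' : Run P q' δ' ν q'' δ'') : Run P q δ (μ ++ ν) q'' δ'' := by
  induction h with
  | nil => exact h'
  | cons r δ μ q' δ' _ ih => exact Run.cons r δ _ _ _ (ih h')

theorem Run.frame {q q' : Q} {δ δ' : List G} {μ : List R} (h : Run P q δ μ q' δ')
    (ε : List G) : Run P q (δ ++ ε) μ q' (δ' ++ ε) := by
  induction h with
  | nil => exact Run.nil _ _
  | cons r δ μ q' δ' _ ih =>
    refine Run.cons r (δ ++ ε) _ _ _ ?_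
    rw [← List.append_assoc]
    exact ih

theorem Run.split {q p : Q} {δ δ' : List G} {μ : List R} (h : Run P q δ μ p δ') :
    δ' = [] → ∀ α β : List G, δ = α ++ β → ∃ s μ₁ μ₂, μ = μ₁ ++ μ₂ ∧ Run P q α μ₁ s [] ∧
      Run P s β μ₂ p [] := by
  induction h with
  | nil q δ =>
    rintro rfl α β h
    obtain ⟨rfl, rfl⟩ := List.append_eq_nil_iff.mp h.symm
    exact ⟨q, [], [], rfl, Run.nil _ _, Run.nil _ _⟩
  | cons r δ μ q' δ' hr ih =>
    rintro rfl α β h
    rcases α with _ | ⟨Z, α⟩
    · refine ⟨P.src r, [], r :: μ, rfl, Run.nil _ _, ?_⟩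
      rw [List.nil_append] at h
      rw [← h]
      exact Run.cons _ _ _ _ _ hr
    · rw [List.cons_append, List.cons.injEq] at h
      obtain ⟨rfl, rfl⟩ := h
      obtain ⟨s, μ₁, μ₂, rfl, h1, h2⟩ := ih rfl (P.push r ++ α) β (by rw [List.append_assoc])
      exact ⟨s, r :: μ₁, μ₂, rfl, Run.cons _ _ _ _ _ h1, h2⟩

/-- `P` pops the whole stack `δ` with the rules `μ`, going from `q` to `p` -/
abbrev Pop (P : PD Q G R) (q : Q) (δ : List G) (p : Q) (μ : List R) : Prop := Run P q δ μ p []

theorem Pop.node {r : R} {δ : List G} {s p : Q} {μ ν : List R} (h : Pop P (P.tgt r) (P.push r) s μ)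
    (h' : Pop P s δ p ν) : Pop P (P.src r) (P.top r :: δ) p (r :: (μ ++ ν)) := by
  refine Run.cons _ _ _ _ _ ?_
  exact (Run.frame h δ).append (by simpa using h')

/-- labels of inner nodes: rule, rest of the stack, intermediate state, final state -/
abbrev Lab (Q G R : Type) := R × List G × Q × Q

inductive Valid (P : PD Q G R) : BT Q (Lab Q G R) → Q → List G → Q → List R → Prop
  | leaf (q : Q) : Valid P (BT.leaf q) q [] q []
  | node (r : R) (δ : List G) (s p : Q) (a b : BT Q (Lab Q G R)) (μ ν : List R) :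
      Valid P a (P.tgt r) (P.push r) s μ → Valid P b s δ p ν →
      Valid P (BT.node (r, δ, s, p) a b) (P.src r) (P.top r :: δ) p (r :: (μ ++ ν))

theorem Valid.pop {t : BT Q (Lab Q G R)} {q p : Q} {δ : List G} {μ : List R}
    (h : Valid P t q δ p μ) : Pop P q δ p μ := by
  induction h with
  | leaf q => exact Run.nil _ _
  | node r δ s p a b μ ν _ _ iha ihb => exact Pop.node iha ihb

theorem exists_valid (K : ℕ) (hK : ∀ r, (P.push r).length ≤ K) :
    ∀ (n : ℕ) (q p : Q) (δ : List G) (μ : List R), μ.length ≤ n → δ.length ≤ K → Pop P q δ p μ →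
      ∃ t, Valid P t q δ p μ ∧ t.AllIn Set.univ {l : Lab Q G R | l.2.1.length ≤ K} := by
  intro n
  induction n with
  | zero =>
    intro q p δ μ hμ hδ h
    have : μ = [] := List.length_eq_zero_iff.mp (by omega)
    subst this
    cases h
    exact ⟨BT.leaf q, Valid.leaf q, Set.mem_univ _⟩
  | succ n ih =>
    intro q p δ μ hμ hδ h
    cases h with
    | nil => exact ⟨BT.leaf q, Valid.leaf q, Set.mem_univ _⟩
    | cons r δ μ _ _ h =>
      obtain ⟨s, μ₁, μ₂, rfl, h1, h2⟩ := h.split rfl _ _ rfl
      simp only [List.length_cons, List.length_append] at hμ hδ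
      obtain ⟨a, ha, ha'⟩ := ih _ _ _ μ₁ (by omega) (hK r) h1
      obtain ⟨b, hb, hb'⟩ := ih _ _ _ μ₂ (by omega) (by omega : δ.length ≤ K) h2
      exact ⟨_, Valid.node r δ s p a b μ₁ μ₂ ha hb, ⟨by simpa using (by omega : δ.length ≤ K),
        ha', hb'⟩⟩

/-! ### Families of runs -/

/-- additive weights of label lists -/
def wt (φ : R → ℕ) (l : List R) : ℕ := (l.map φ).sum

@[simp] theorem wt_nil (φ : R → ℕ) : wt φ [] = 0 := rfl
@[simp] theorem wt_cons (φ : R → ℕ) (r : R) (l : List R) : wt φ (r :: l) = φ r + wt φ l := by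
  simp [wt]
@[simp] theorem wt_append (φ : R → ℕ) (l l' : List R) : wt φ (l ++ l') = wt φ l + wt φ l' := by
  simp [wt]

def rep (n : ℕ) (u : List R) : List R := (List.replicate n u).flatten

@[simp] theorem rep_zero (u : List R) : rep 0 u = [] := rfl
@[simp] theorem rep_one (u : List R) : rep 1 u = u := by simp [rep]
theorem rep_succ (n : ℕ) (u : List R) : rep (n + 1) u = u ++ rep n u := by
  simp [rep, List.replicate_succ]
theorem rep_succ' (n : ℕ) (u : List R) : rep (n + 1) u = rep n u ++ u := by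
  simp [rep, List.replicate_succ']
@[simp] theorem wt_rep (φ : R → ℕ) (n : ℕ) (u : List R) : wt φ (rep n u) = n * wt φ u := by
  induction n with
  | zero => simp
  | succ n ih => rw [rep_succ, wt_append, ih]; ring

theorem rep_infix {n : ℕ} (h : 2 ≤ n) (u : List R) : (u ++ u) <:+: rep n u := by
  obtain ⟨m, rfl⟩ : ∃ m, n = m + 2 := ⟨n - 2, by omega⟩
  refine ⟨[], rep m u, ?_⟩
  rw [rep_succ, rep_succ]
  simp

theorem pump {q p : Q} {δ : List G} {u v : List R}
    (h : ∀ z, Pop P q δ p z → Pop P q δ p (u ++ z ++ v)) (n : ℕ) {z : List R}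
    (hz : Pop P q δ p z) : Pop P q δ p (rep n u ++ z ++ rep n v) := by
  induction n with
  | zero => simpa using hz
  | succ n ih =>
    have := h _ ih
    rw [rep_succ, rep_succ']
    simpa [List.append_assoc] using this

/-- a family of runs with finitely many independent pumps -/
structure Fam (P : PD Q G R) (q : Q) (δ : List G) (p : Q) (μ μ' : List R) where
  ι : Type
  fin : Fintype ι
  W : (ι → ℕ) → List R
  U : ι → List R
  V : ι → List R
  pop : ∀ c, Pop P q δ p (W c)
  zero : W (fun _ => 0) = μ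
  one : W (fun _ => 1) = μ'
  wt : ∀ (φ : R → ℕ) (c : ι → ℕ), wt φ (W c) = wt φ μ + ∑ i, c i * (wt φ (U i) + wt φ (V i))
  inf : ∀ (i : ι) (c : ι → ℕ), 2 ≤ c i → (U i ++ U i) <:+: W c ∧ (V i ++ V i) <:+: W c

def Fam.nil (q : Q) : Fam P q [] q [] [] where
  ι := Fin 0
  fin := inferInstance
  W := fun _ => []
  U := fun _ => []
  V := fun _ => []
  pop := fun _ => Run.nil _ _
  zero := rfl
  one := rfl
  wt := by intro φ c; simp
  inf := fun i => Fin.elim0 i

/-- add a pump -/
def Fam.pump {q p : Q} {δ : List G} {μ μ' u v : List R} (F : Fam P q δ p μ μ')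
    (h : ∀ z, Pop P q δ p z → Pop P q δ p (u ++ z ++ v)) : Fam P q δ p μ (u ++ μ' ++ v) :=
  letI := F.fin
  { ι := Option F.ι
    fin := inferInstance
    W := fun c => rep (c none) u ++ F.W (fun i => c (some i)) ++ rep (c none) v
    U := fun i => i.elim u F.U
    V := fun i => i.elim v F.V
    pop := fun c => Amalg.pump h _ (F.pop _)
    zero := by
      have := F.zero
      simpa using this
    one := by
      have := F.one
      simp only [rep_one, this]
    wt := by
      intro φ c
      rw [Fintype.sum_option]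
      simp only [wt_append, wt_rep, F.wt, Option.elim]
      ring
    inf := by
      intro i c hc
      rcases i with _ | i
      · refine ⟨(rep_infix hc u).trans ?_, (rep_infix hc v).trans ?_⟩
        · exact ⟨[], F.W (fun i => c (some i)) ++ rep (c none) v, by simp⟩
        · exact ⟨rep (c none) u ++ F.W (fun i => c (some i)), [], by simp⟩
      · obtain ⟨h1, h2⟩ := F.inf i (fun i => c (some i)) hc
        have h3 : F.W (fun i => c (some i)) <:+:
            rep (c none) u ++ F.W (fun i => c (some i)) ++ rep (c none) v :=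
          ⟨rep (c none) u, rep (c none) v, rfl⟩
        exact ⟨h1.trans h3, h2.trans h3⟩ }

/-- combine two families at a node -/
def Fam.node {r : R} {δ : List G} {s p : Q} {μ μ' ν ν' : List R}
    (F : Fam P (P.tgt r) (P.push r) s μ μ') (F' : Fam P s δ p ν ν') :
    Fam P (P.src r) (P.top r :: δ) p (r :: (μ ++ ν)) (r :: (μ' ++ ν')) :=
  letI := F.fin
  letI := F'.fin
  { ι := F.ι ⊕ F'.ι
    fin := inferInstance
    W := fun c => r :: (F.W (fun i => c (Sum.inl i)) ++ F'.W (fun i => c (Sum.inr i)))
    U := Sum.elim F.U F'.U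
    V := Sum.elim F.V F'.V
    pop := fun c => Pop.node (F.pop _) (F'.pop _)
    zero := by
      have h1 := F.zero
      have h2 := F'.zero
      simp only [h1, h2]
    one := by
      have h1 := F.one
      have h2 := F'.one
      simp only [h1, h2]
    wt := by
      intro φ c
      rw [Fintype.sum_sum_type]
      simp only [wt_append, wt_cons, F.wt, F'.wt, Sum.elim_inl, Sum.elim_inr]
      ring
    inf := by
      intro i c hc
      rcases i with i | i
      · obtain ⟨h1, h2⟩ := F.inf i (fun i => c (Sum.inl i)) hc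
        have h3 : F.W (fun i => c (Sum.inl i)) <:+:
            r :: (F.W (fun i => c (Sum.inl i)) ++ F'.W (fun i => c (Sum.inr i))) :=
          ⟨[r], F'.W (fun i => c (Sum.inr i)), by simp⟩
        exact ⟨h1.trans h3, h2.trans h3⟩
      · obtain ⟨h1, h2⟩ := F'.inf i (fun i => c (Sum.inr i)) hc
        have h3 : F'.W (fun i => c (Sum.inr i)) <:+:
            r :: (F.W (fun i => c (Sum.inl i)) ++ F'.W (fun i => c (Sum.inr i))) :=
          ⟨r :: F.W (fun i => c (Sum.inl i)), [], by simp⟩
        exact ⟨h1.trans h3, h2.trans h3⟩ }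

theorem emb_fam {t t' : BT Q (Lab Q G R)} (h : BT.Emb t t') :
    ∀ {q p q' p' : Q} {δ δ' : List G} {μ μ' : List R}, Valid P t q δ p μ →
      Valid P t' q' δ' p' μ' → ∃ u v w : List R, μ' = u ++ w ++ v ∧
        (∀ z, Pop P q δ p z → Pop P q' δ' p' (u ++ z ++ v)) ∧ Nonempty (Fam P q δ p μ w) := by
  induction h with
  | leaf l =>
    intro q p q' p' δ δ' μ μ' h1 h2
    cases h1
    cases h2
    exact ⟨[], [], [], rfl, fun z hz => by simpa using hz, ⟨Fam.nil _⟩⟩
  | left t a b l _ ih =>
    intro q p q' p' δ δ' μ μ' h1 h2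
    cases h2 with
    | node r δ₂ s p₂ _ _ μ₂ ν₂ ha hb =>
      obtain ⟨u, v, w, rfl, h3, ⟨F⟩⟩ := ih h1 ha
      refine ⟨r :: u, v ++ ν₂, w, by simp, fun z hz => ?_, ⟨F⟩⟩
      have := Pop.node (h3 z hz) hb.pop
      simpa using this
  | right t a b l _ ih =>
    intro q p q' p' δ δ' μ μ' h1 h2
    cases h2 with
    | node r δ₂ s p₂ _ _ μ₂ ν₂ ha hb =>
      obtain ⟨u, v, w, rfl, h3, ⟨F⟩⟩ := ih h1 hb
      refine ⟨r :: (μ₂ ++ u), v, w, by simp, fun z hz => ?_, ⟨F⟩⟩
      have := Pop.node ha.pop (h3 z hz)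
      simpa using this
  | node l a b a' b' _ _ iha ihb =>
    intro q p q' p' δ δ' μ μ' h1 h2
    cases h1 with
    | node r δ₁ s p₁ _ _ μ₁ ν₁ ha hb =>
      cases h2 with
      | node _ _ _ _ _ _ μ₂ ν₂ ha' hb' =>
        obtain ⟨u, v, w, rfl, h3, ⟨F⟩⟩ := iha ha ha'
        obtain ⟨u', v', w', rfl, h3', ⟨F'⟩⟩ := ihb hb hb'
        exact ⟨[], [], _, by simp, fun z hz => by simpa using hz,
          ⟨Fam.node (F.pump h3) (F'.pump h3')⟩⟩

/-- amalgamation -/
theorem amalgam [Finite Q] [Finite G] [Finite R] (P : PD Q G R) (q : Q) (δ : List G) (p : Q)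
    (f : ℕ → List R) (hf : ∀ n, Pop P q δ p (f n)) :
    ∃ i j, i < j ∧ Nonempty (Fam P q δ p (f i) (f j)) := by
  obtain ⟨K, hK⟩ : ∃ K, ∀ r, (P.push r).length ≤ K := by
    obtain ⟨K, hK⟩ := (Set.finite_range (fun r => (P.push r).length)).bddAbove
    exact ⟨K, fun r => hK ⟨r, rfl⟩⟩
  let K' := max K δ.length
  have h := fun n => exists_valid (P := P) K' (fun r => (hK r).trans (le_max_left _ _)) _ q p δ
    (f n) le_rfl (le_max_right _ _) (hf n)
  choose t ht ht' using h
  have hfin : {l : Lab Q G R | l.2.1.length ≤ K'}.Finite := by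
    have h1 : {l : List G | l.length ≤ K'}.Finite := List.finite_length_le G K'
    have h2 : {l : Lab Q G R | l.2.1.length ≤ K'} ⊆
        (Set.univ : Set R) ×ˢ ({l : List G | l.length ≤ K'} ×ˢ (Set.univ : Set (Q × Q))) := by
      rintro ⟨r, l, s⟩ h
      exact ⟨Set.mem_univ _, h, Set.mem_univ _⟩
    exact (Set.finite_univ.prod (h1.prod Set.finite_univ)).subset h2
  obtain ⟨i, j, hij, he⟩ := (BT.kruskal Set.univ _ Set.finite_univ hfin).exists_lt (f := t) ht'
  obtain ⟨u, v, w, hw, h1, ⟨F⟩⟩ := emb_fam he (ht i) (ht j)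
  refine ⟨i, j, hij, ⟨?_⟩⟩
  rw [hw]
  exact F.pump h1

end Pool.Agent.R576.Amalg
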