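import Mathlib

set_option autoImplicit false

/-!
First-move self-regulating pushdown automata (definitions of MP_e3bf5d_lc).
-/

namespace Pool.Agent.R576.Fspda

/-- A self-regulating pushdown automaton `M = (Q, Σ, Γ, δ, q₀, q_t, Z₀, F, R)` over the input
alphabet `T`.  `L` is the set of rule labels; the rule with label `r` is `Z q x → γ p` with
`Z = top r`, `q = src r`, `x = read r`, `γ = push r`, `p = tgt r`.  Pushdown words are written as
lists with the TOP FIRST (so `push r` is `γ` read from its topmost symbol downwards). -/
structure SPDA (T : Type) where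
  Q : Type
  G : Type
  L : Type
  finQ : Finite Q
  finG : Finite G
  finL : Finite L
  src : L → Q
  top : L → G
  read : L → List T
  push : L → List G
  tgt : L → Q
  q0 : Q
  qt : Q
  Z0 : G
  F : Set Q
  R : L → L → Prop

variable {T : Type}

/-- `Steps M c μ c'`: the automaton goes from the configuration `c` to the configuration `c'` by the
moves labelled `μ`.  A configuration is (pushdown with the top first, state, unread input). -/
inductive Steps (M : SPDA T) : List M.G × M.Q × List T → List M.L → List M.G × M.Q × List T → Prop
  | refl (c : List M.G × M.Q × List T) : Steps M c [] c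
  | step (r : M.L) (δ : List M.G) (v : List T) (μ : List M.L) (c : List M.G × M.Q × List T) :
      Steps M (M.push r ++ δ, M.tgt r, v) μ c →
      Steps M (M.top r :: δ, M.src r, M.read r ++ v) (r :: μ) c

/-- The first labels of two consecutive blocks are related by `R`. -/
def FirstRel (M : SPDA T) (b b' : List M.L) : Prop :=
  ∃ r r', b.head? = some r ∧ b'.head? = some r' ∧ M.R r r'

/-- The blocks `B = [μ₀, …, μₙ]` have the shape required from `μ = μ₀ ⋯ μₙ`: there are `n + 1`
blocks, all of the same length `k ≥ 1`; the last label of `μ₀` is the earliest label of `μ` whose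
rule enters the turn state; the first labels of consecutive blocks are related by `R`. -/
def Shape (M : SPDA T) (n : ℕ) (B : List (List M.L)) : Prop :=
  B.length = n + 1 ∧ (∃ k, 1 ≤ k ∧ ∀ b ∈ B, b.length = k) ∧
  (∃ c r B', B = (c ++ [r]) :: B' ∧ M.tgt r = M.qt ∧ ∀ x ∈ c, M.tgt x ≠ M.qt) ∧
  B.IsChain (FirstRel M)

/-- The language accepted by `M` as an `n`-turn first-move self-regulating pushdown automaton. -/
def Lang (M : SPDA T) (n : ℕ) : Set (List T) :=
  {w | ∃ (B : List (List M.L)) (f : M.Q), Shape M n B ∧ f ∈ M.F ∧
    Steps M ([M.Z0], M.q0, w) B.flatten ([], f, [])}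

/-- The family `FSPDA_n`, languages over the alphabet `T`. -/
def FSPDA (n : ℕ) (T : Type) : Set (Set (List T)) := {K | ∃ M : SPDA T, Lang M n = K}

end Pool.Agent.R576.Fspda
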