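import Mathlib

set_option autoImplicit false

namespace Pool.Agent.R576.RankLemma

theorem greedy {ι : Type} [Fintype ι] (r : ℕ) (e : ι → Fin r → ℕ)
    (he : ∀ a, 0 < ∑ i, e i a)
    (hs : ∀ i, (Finset.univ.filter (fun a => e i a ≠ 0)).card ≤ 2) :
    ∀ t : ℕ, 2 * t < r + 2 → ∃ (i : Fin t → ι) (a : Fin t → Fin r), (∀ s, e (i s) (a s) ≠ 0) ∧
      ∀ s s', s' < s → e (i s') (a s) = 0 := by
  intro t
  induction t with
  | zero => intro _; exact ⟨fun s => s.elim0, fun s => s.elim0, fun s => s.elim0,
      fun s => s.elim0⟩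
  | succ t ih =>
    intro ht
    obtain ⟨i, a, h1, h2⟩ := ih (by omega)
    have hcard : (Finset.univ.biUnion
        (fun s : Fin t => Finset.univ.filter (fun a => e (i s) a ≠ 0))).card < Fintype.card (Fin r)
        := by
      calc _ ≤ ∑ s : Fin t, (Finset.univ.filter (fun a => e (i s) a ≠ 0)).card :=
            Finset.card_biUnion_le
        _ ≤ ∑ _s : Fin t, 2 := Finset.sum_le_sum (fun s _ => hs _)
        _ = 2 * t := by simp; ring
        _ < _ := by rw [Fintype.card_fin]; omega
    obtain ⟨a0, ha0⟩ : ∃ a0, a0 ∉ (Finset.univ.biUnion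
        (fun s : Fin t => Finset.univ.filter (fun a => e (i s) a ≠ 0))) := by
      by_contra hcon
      push Not at hcon
      have := Finset.card_le_card (fun x _ => hcon x : (Finset.univ : Finset (Fin r)) ⊆ _)
      rw [Finset.card_univ] at this
      omega
    have ha0' : ∀ s, e (i s) a0 = 0 := by
      intro s
      by_contra hne
      exact ha0 (Finset.mem_biUnion.mpr ⟨s, Finset.mem_univ _, by simp [hne]⟩)
    obtain ⟨i0, hi0⟩ : ∃ i0, e i0 a0 ≠ 0 := by
      by_contra hcon
      push Not at hcon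
      have := he a0
      simp [hcon] at this
    refine ⟨Fin.snoc i i0, Fin.snoc a a0, ?_, ?_⟩
    · intro s
      refine Fin.lastCases ?_ (fun s => ?_) s
      · simpa using hi0
      · simpa using h1 s
    · intro s
      refine Fin.lastCases ?_ (fun s => ?_) s
      · intro s'
        refine Fin.lastCases ?_ (fun s' => ?_) s'
        · intro h; exact absurd h (lt_irrefl _)
        · intro _; simpa using ha0' s'
      · intro s'
        refine Fin.lastCases ?_ (fun s' => ?_) s'
        · intro h
          exact absurd h (not_lt.mpr (Fin.le_last _))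
        · intro h
          have : s' < s := by simpa using h
          simpa using h2 s s' this

theorem rank_lemma (n r : ℕ) (hr : 2 * (n + 1) < r) {ι : Type} [Fintype ι]
    (e : ι → Fin r → ℕ) (b : ι → Fin (n + 1) → ℕ)
    (H : ∀ c : ι → ℕ, (∀ j, ∑ i, c i * b i j = ∑ i, c i * b i 0) →
      ∀ a a', ∑ i, c i * e i a = ∑ i, c i * e i a')
    (hb : ∀ j, ∑ i, b i j = ∑ i, b i 0)
    (he : ∀ a, 0 < ∑ i, e i a)
    (hs : ∀ i, (Finset.univ.filter (fun a => e i a ≠ 0)).card ≤ 2) : False := by
  classical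
  have he' : ∀ a a', ∑ i, e i a = ∑ i, e i a' := by
    intro a a'
    have := H (fun _ => 1) (by simpa using hb) a a'
    simpa using this
  -- integer version
  have HZ : ∀ z : ι → ℤ, (∀ j, ∑ i, z i * (b i j : ℤ) = ∑ i, z i * (b i 0 : ℤ)) →
      ∀ a a', ∑ i, z i * (e i a : ℤ) = ∑ i, z i * (e i a' : ℤ) := by
    intro z hz a a'
    let N : ℤ := ∑ i, |z i|
    have hN : ∀ i, 0 ≤ N + z i := by
      intro i
      have h1 : |z i| ≤ N := Finset.single_le_sum (fun i _ => abs_nonneg (z i)) (Finset.mem_univ i)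
      have h2 := neg_abs_le (z i)
      omega
    have hc : ∀ i, (((N + z i).toNat : ℕ) : ℤ) = N + z i := fun i => Int.toNat_of_nonneg (hN i)
    have key : ∀ g : ι → ℤ, ∑ i, (N + z i) * g i = N * ∑ i, g i + ∑ i, z i * g i := by
      intro g
      rw [Finset.mul_sum, ← Finset.sum_add_distrib]
      exact Finset.sum_congr rfl (fun i _ => by ring)
    have h1 := H (fun i => (N + z i).toNat) (by
      intro j
      have : ((∑ i, (N + z i).toNat * b i j : ℕ) : ℤ) = ((∑ i, (N + z i).toNat * b i 0 : ℕ) : ℤ) := by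
        push_cast [hc]
        rw [key, key, hz j]
        have hbj : ∑ i, (b i j : ℤ) = ∑ i, (b i 0 : ℤ) := by exact_mod_cast hb j
        rw [hbj]
      exact_mod_cast this) a a'
    have h2 : ((∑ i, (N + z i).toNat * e i a : ℕ) : ℤ) = ((∑ i, (N + z i).toNat * e i a' : ℕ) : ℤ) := by
      exact_mod_cast h1
    push_cast [hc] at h2
    rw [key, key] at h2
    have hea : ∑ i, (e i a : ℤ) = ∑ i, (e i a' : ℤ) := by exact_mod_cast he' a a'
    rw [hea] at h2
    exact add_left_cancel h2
  obtain ⟨i, a, h1, h2⟩ := greedy r e he hs (n + 2) (by omega)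
  have hrpos : 0 < r := by omega
  let a0 : Fin r := ⟨0, hrpos⟩
  let A : Matrix (Fin (n + 1)) (Fin (n + 2)) ℤ := fun j t =>
    Fin.cases (motive := fun _ => ℤ) (e (i t) a0 : ℤ)
      (fun j' => (b (i t) j'.succ : ℤ) - (b (i t) 0 : ℤ)) j
  obtain ⟨z, hz0, hz, -⟩ := Int.Matrix.exists_ne_zero_int_vec_norm_le A
    (by simp) (by simp)
  -- the vector on ι
  let z' : ι → ℤ := fun x => ∑ t, if i t = x then z t else 0
  have hz' : ∀ g : ι → ℤ, ∑ x, z' x * g x = ∑ t, z t * g (i t) := by
    intro g
    simp only [z', Finset.sum_mul]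
    rw [Finset.sum_comm]
    refine Finset.sum_congr rfl (fun t _ => ?_)
    simp [ite_mul]
  have hrow0 : ∑ t, z t * (e (i t) a0 : ℤ) = 0 := by
    have := congrFun hz 0
    simp only [Matrix.mulVec, dotProduct, A, Fin.cases_zero, Pi.zero_apply] at this
    rw [← this]
    exact Finset.sum_congr rfl (fun t _ => mul_comm _ _)
  have hrow : ∀ j : Fin n, ∑ t, z t * (b (i t) j.succ : ℤ) = ∑ t, z t * (b (i t) 0 : ℤ) := by
    intro j
    -- rows of A are indexed by Fin (n+1): row 0 is e, rows j+1 are b
    have := congrFun hz j.succ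
    simp only [Matrix.mulVec, dotProduct, A, Fin.cases_succ, Pi.zero_apply] at this
    rw [← sub_eq_zero, ← Finset.sum_sub_distrib, ← this]
    exact Finset.sum_congr rfl (fun t _ => by ring)
  have hbal : ∀ j, ∑ x, z' x * (b x j : ℤ) = ∑ x, z' x * (b x 0 : ℤ) := by
    intro j
    rw [hz' (fun x => (b x j : ℤ)), hz' (fun x => (b x 0 : ℤ))]
    refine Fin.cases ?_ (fun j => ?_) j
    · rfl
    · exact hrow j
  have hzero : ∀ a1, ∑ t, z t * (e (i t) a1 : ℤ) = 0 := by
    intro a1
    have := HZ z' hbal a1 a0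
    rw [hz' (fun x => (e x a1 : ℤ)), hz' (fun x => (e x a0 : ℤ)), hrow0] at this
    exact this
  -- triangularity
  obtain ⟨s, hs1, hs2⟩ : ∃ s, z s ≠ 0 ∧ ∀ s', s < s' → z s' = 0 := by
    have hne : (Finset.univ.filter (fun s => z s ≠ 0)).Nonempty := by
      by_contra hcon
      rw [Finset.not_nonempty_iff_eq_empty] at hcon
      apply hz0
      funext s
      by_contra hne
      have : s ∈ (Finset.univ.filter (fun s => z s ≠ 0)) := by simpa using hne
      rw [hcon] at this
      simp at this
    refine ⟨(Finset.univ.filter (fun s => z s ≠ 0)).max' hne, ?_, ?_⟩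
    · have := Finset.max'_mem _ hne
      simpa using this
    · intro s' hs'
      by_contra hcon
      have : s' ≤ (Finset.univ.filter (fun s => z s ≠ 0)).max' hne :=
        Finset.le_max' _ _ (by simpa using hcon)
      exact absurd hs' (not_lt.mpr this)
  have hfin := hzero (a s)
  rw [Finset.sum_eq_single s] at hfin
  · rcases mul_eq_zero.mp hfin with h | h
    · exact hs1 h
    · exact h1 s (by exact_mod_cast h)
  · intro t _ hts
    rcases lt_or_gt_of_ne hts with h | h
    · rw [h2 s t h]; simp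
    · rw [hs2 t h]; simp
  · intro h
    exact absurd (Finset.mem_univ s) h

end Pool.Agent.R576.RankLemma
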