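import Mathlib
import Pool.Agent.R576.Amalg
import Pool.Agent.R576.RankLemma
import Pool.Agent.R576.Fspda

set_option autoImplicit false

namespace Pool.Agent.R576.Fspda

open Pool.Agent.R576.Amalg

variable {T : Type}

/-! ### The monitored automaton -/

/-- states of the monitor: current block, first label of the block, whether the last rule entered
the turn state -/
abbrev Mon (M : SPDA T) (n : ℕ) := Option (Fin (n + 1) × M.L × Bool)

open Classical in
/-- did the rule enter the turn state -/
noncomputable def turn (M : SPDA T) (r : M.L) : Bool := decide (M.tgt r = M.qt)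

/-- steps of the monitor -/
inductive MStep (M : SPDA T) (n : ℕ) : Mon M n → M.L → Mon M n → Prop
  | start (r : M.L) : MStep M n none r (some (0, r, turn M r))
  | stay (j : Fin (n + 1)) (r1 r : M.L) (t : Bool) : (j = 0 → t = false) →
      MStep M n (some (j, r1, t)) r (some (j, r1, turn M r))
  | switch (j j' : Fin (n + 1)) (r1 r : M.L) (t : Bool) : j'.val = j.val + 1 → M.R r1 r →
      (j = 0 → t = true) → MStep M n (some (j, r1, t)) r (some (j', r, turn M r))

/-- rules of the monitored automaton -/
abbrev MR (M : SPDA T) (n : ℕ) := {x : M.L × Mon M n × Mon M n // MStep M n x.2.1 x.1 x.2.2}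

/-- the monitored automaton -/
def mpd (M : SPDA T) (n : ℕ) : PD (M.Q × Mon M n) M.G (MR M n) where
  src x := (M.src x.1.1, x.1.2.1)
  top x := M.top x.1.1
  push x := M.push x.1.1
  tgt x := (M.tgt x.1.1, x.1.2.2)

/-- paths of the monitor -/
inductive MPath (M : SPDA T) (n : ℕ) : Mon M n → List (MR M n) → Mon M n → Prop
  | nil (s : Mon M n) : MPath M n s [] s
  | cons (x : MR M n) (ann : List (MR M n)) (s' : Mon M n) :
      MPath M n x.1.2.2 ann s' → MPath M n x.1.2.1 (x :: ann) s'

/-- the label of a monitored rule -/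
def lab {M : SPDA T} {n : ℕ} (x : MR M n) : M.L := x.1.1

/-- block indicator -/
def blk {M : SPDA T} {n : ℕ} (i : Fin (n + 1)) (x : MR M n) : ℕ :=
  match x.1.2.2 with
  | none => 0
  | some (j, _, _) => if j = i then 1 else 0

theorem MPath.append {M : SPDA T} {n : ℕ} {s s' s'' : Mon M n} {a b : List (MR M n)}
    (h : MPath M n s a s') (h' : MPath M n s' b s'') : MPath M n s (a ++ b) s'' := by
  induction h with
  | nil => exact h'
  | cons x ann s' _ ih => exact MPath.cons _ _ _ (ih h')

/-- from steps and a monitor path to a run of the monitored automaton -/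
theorem toRun {M : SPDA T} {n : ℕ} {c c' : List M.G × M.Q × List T} {μ : List M.L}
    (h : Steps M c μ c') : ∀ {s s' : Mon M n} {ann : List (MR M n)}, MPath M n s ann s' →
      ann.map lab = μ → Run (mpd M n) (c.2.1, s) c.1 ann (c'.2.1, s') c'.1 := by
  induction h with
  | refl c =>
    intro s s' ann h hl
    rw [List.map_eq_nil_iff] at hl
    subst hl
    cases h
    exact Run.nil _ _
  | step r δ v μ c _ ih =>
    intro s s' ann h hl
    cases h with
    | nil => simp at hl
    | cons x ann _ h =>
      rw [List.map_cons, List.cons.injEq] at hl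
      obtain ⟨hx, hl⟩ := hl
      have h1 := ih h hl
      have hx' : x.1.1 = r := hx
      subst hx'
      exact Run.cons (P := mpd M n) x δ ann _ _ h1

/-- from a run of the monitored automaton to steps -/
theorem fromRun {M : SPDA T} {n : ℕ} {q q' : M.Q × Mon M n} {δ δ' : List M.G}
    {ann : List (MR M n)} (h : Run (mpd M n) q δ ann q' δ') :
    MPath M n q.2 ann q'.2 ∧
      Steps M (δ, q.1, (ann.map lab).flatMap M.read) (ann.map lab) (δ', q'.1, []) := by
  induction h with
  | nil q δ => exact ⟨MPath.nil _, Steps.refl _⟩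
  | cons x δ μ q' δ' _ ih =>
    refine ⟨MPath.cons x _ _ ih.1, ?_⟩
    rw [List.map_cons, List.flatMap_cons]
    exact Steps.step x.1.1 δ _ _ _ ih.2

theorem steps_read {M : SPDA T} {c c' : List M.G × M.Q × List T} {μ : List M.L}
    (h : Steps M c μ c') : c.2.2 = μ.flatMap M.read ++ c'.2.2 := by
  induction h with
  | refl c => simp
  | step r δ v μ c _ ih =>
    simp only at ih ⊢
    rw [ih, List.flatMap_cons, List.append_assoc]

/-! ### From blocks to monitor paths -/

theorem wt_eq_of_blk {M : SPDA T} {n : ℕ} (i : Fin (n + 1)) (x : MR M n) (j : Fin (n + 1))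
    (r1 : M.L) (t : Bool) (h : x.1.2.2 = some (j, r1, t)) : blk i x = if j = i then 1 else 0 := by
  unfold blk
  rw [h]

/-- the rest of block 0 -/
theorem path0 (M : SPDA T) (n : ℕ) (r1 r : M.L) (hr : M.tgt r = M.qt) (c : List M.L)
    (hc : ∀ x ∈ c, M.tgt x ≠ M.qt) :
    ∃ ann : List (MR M n), MPath M n (some (0, r1, false)) ann (some (0, r1, true)) ∧
      ann.map lab = c ++ [r] ∧ ∀ i, wt (blk i) ann = if i = 0 then (c ++ [r]).length else 0 := by
  induction c with
  | nil =>
    refine ⟨[⟨(r, some (0, r1, false), some (0, r1, turn M r)), MStep.stay 0 r1 r false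
      (fun _ => rfl)⟩], ?_, rfl, ?_⟩
    · have ht : turn M r = true := by simp [turn, hr]
      have := MPath.cons (n := n) ⟨(r, some (0, r1, false), some (0, r1, turn M r)),
        MStep.stay 0 r1 r false (fun _ => rfl)⟩ [] _ (MPath.nil _)
      simpa [ht] using this
    · intro i
      simp only [wt_cons, wt_nil, blk]
      by_cases hi : i = 0
      · simp [hi]
      · have : ¬ (0 : Fin (n + 1)) = i := fun h => hi h.symm
        simp [hi, this]
  | cons x c ih =>
    obtain ⟨ann, h1, h2, h3⟩ := ih (fun y hy => hc y (List.mem_cons_of_mem _ hy))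
    have ht : turn M x = false := by simp [turn, hc x (by simp)]
    refine ⟨⟨(x, some (0, r1, false), some (0, r1, turn M x)), MStep.stay 0 r1 x false
      (fun _ => rfl)⟩ :: ann, ?_, ?_, ?_⟩
    · refine MPath.cons (n := n) ⟨(x, some (0, r1, false), some (0, r1, turn M x)),
        MStep.stay 0 r1 x false (fun _ => rfl)⟩ ann _ ?_
      simpa [ht] using h1
    · rw [List.map_cons, h2]; rfl
    · intro i
      rw [wt_cons, h3]
      simp only [blk]
      by_cases hi : i = 0
      · simp [hi]; omega
      · have : ¬ (0 : Fin (n + 1)) = i := fun h => hi h.symm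
        simp [hi, this]

/-- the rest of a later block -/
theorem pathj (M : SPDA T) (n : ℕ) (j : Fin (n + 1)) (hj : j ≠ 0) (r1 : M.L) (c : List M.L) :
    ∀ t : Bool, ∃ (ann : List (MR M n)) (t' : Bool),
      MPath M n (some (j, r1, t)) ann (some (j, r1, t')) ∧
      ann.map lab = c ∧ ∀ i, wt (blk i) ann = if i = j then c.length else 0 := by
  induction c with
  | nil => intro t; exact ⟨[], t, MPath.nil _, rfl, by simp⟩
  | cons x c ih =>
    intro t
    obtain ⟨ann, t', h1, h2, h3⟩ := ih (turn M x)
    refine ⟨⟨(x, some (j, r1, t), some (j, r1, turn M x)), MStep.stay j r1 x t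
      (fun h => absurd h hj)⟩ :: ann, t', ?_, ?_, ?_⟩
    · exact MPath.cons (n := n) ⟨(x, some (j, r1, t), some (j, r1, turn M x)),
        MStep.stay j r1 x t (fun h => absurd h hj)⟩ ann _ h1
    · rw [List.map_cons, h2]; rfl
    · intro i
      rw [wt_cons, h3]
      simp only [blk]
      by_cases hi : i = j
      · subst hi; simp; omega
      · have : ¬ j = i := fun h => hi h.symm
        simp [hi, this]

/-- the blocks after block `j` -/
theorem pathB (M : SPDA T) (n k : ℕ) (B : List (List M.L)) :
    ∀ (j : Fin (n + 1)) (r1 : M.L) (t : Bool) (c : List M.L), j.val + B.length = n →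
      (j = 0 → t = true) → (∀ b ∈ B, b.length = k) → List.IsChain (FirstRel M) ((r1 :: c) :: B) →
      ∃ (ann : List (MR M n)) (r' : M.L) (t' : Bool),
        MPath M n (some (j, r1, t)) ann (some (Fin.last n, r', t')) ∧ (n = 0 → t' = true) ∧
        ann.map lab = B.flatten ∧ ∀ i, wt (blk i) ann = if j < i then k else 0 := by
  induction B with
  | nil =>
    intro j r1 t c hj ht _ _
    have hj' : j = Fin.last n := Fin.ext (by simpa using hj)
    subst hj'
    refine ⟨[], r1, t, MPath.nil _, fun h => ht ?_, rfl, fun i => ?_⟩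
    · subst h; rfl
    · rw [wt_nil, if_neg (not_lt.mpr (Fin.le_last i))]
  | cons b B ih =>
    intro j r1 t c hj ht hk hch
    rw [List.isChain_cons_cons] at hch
    obtain ⟨⟨r, r', hr, hr', hR⟩, hch⟩ := hch
    simp only [List.head?_cons, Option.some.injEq] at hr
    subst hr
    rcases b with _ | ⟨x, b⟩
    · simp at hr'
    simp only [List.head?_cons, Option.some.injEq] at hr'
    subst hr'
    simp only [List.length_cons] at hj
    have hjn : j.val + 1 < n + 1 := by omega
    let j' : Fin (n + 1) := ⟨j.val + 1, hjn⟩
    have hj'0 : j' ≠ 0 := by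
      intro h
      have := congrArg Fin.val h
      simp [j'] at this
    obtain ⟨ann1, t1, h1, h2, h3⟩ := pathj M n j' hj'0 x b (turn M x)
    obtain ⟨ann2, r2, t2, h4, h5, h6, h7⟩ := ih j' x t1 b (by simp [j']; omega)
      (fun h => absurd h hj'0) (fun b' hb' => hk b' (List.mem_cons_of_mem _ hb')) hch
    refine ⟨⟨(x, some (j, r1, t), some (j', x, turn M x)), MStep.switch j j' r1 x t rfl hR ht⟩ ::
      (ann1 ++ ann2), r2, t2, ?_, h5, ?_, ?_⟩
    · exact MPath.cons (n := n) ⟨(x, some (j, r1, t), some (j', x, turn M x)),
        MStep.switch j j' r1 x t rfl hR ht⟩ _ _ (h1.append h4)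
    · rw [List.map_cons, List.map_append, h2, h6, List.flatten_cons]; rfl
    · intro i
      rw [wt_cons, wt_append, h3, h7]
      simp only [blk]
      have hlen : b.length + 1 = k := hk (x :: b) (by simp)
      have e1 : j' = i ↔ i.val = j.val + 1 := ⟨fun h => by rw [← h], fun h => Fin.ext h.symm⟩
      have e2 : i = j' ↔ i.val = j.val + 1 := ⟨fun h => by rw [h], fun h => Fin.ext h⟩
      have e3 : j < i ↔ j.val < i.val := Iff.rfl
      have e4 : j' < i ↔ j.val + 1 < i.val := Iff.rfl
      rcases Nat.lt_trichotomy i.val (j.val + 1) with h | h | h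
      · rw [if_neg (by rw [e1]; omega), if_neg (by rw [e2]; omega), if_neg (by rw [e4]; omega),
          if_neg (by rw [e3]; omega)]
      · rw [if_pos (e1.mpr h), if_pos (e2.mpr h), if_neg (by rw [e4]; omega),
          if_pos (by rw [e3]; omega)]
        omega
      · rw [if_neg (by rw [e1]; omega), if_neg (by rw [e2]; omega), if_pos (e4.mpr h),
          if_pos (by rw [e3]; omega)]
        omega

/-- lifting an accepted word -/
theorem lift_run (M : SPDA T) (n : ℕ) {w : List T} (hw : w ∈ Lang M n) :
    ∃ (ann : List (MR M n)) (f : M.Q) (r' : M.L) (t' : Bool) (k : ℕ), f ∈ M.F ∧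
      (n = 0 → t' = true) ∧
      Pop (mpd M n) (M.q0, none) [M.Z0] (f, some (Fin.last n, r', t')) ann ∧
      (ann.map lab).flatMap M.read = w ∧ 1 ≤ k ∧ ∀ i, wt (blk i) ann = k := by
  obtain ⟨B, f, ⟨hlen, ⟨k, hk, hB⟩, ⟨c, r, B', rfl, hr, hc⟩, hch⟩, hf, hst⟩ := hw
  simp only [List.length_cons] at hlen
  have hk0 : (c ++ [r]).length = k := hB _ (by simp)
  rw [List.length_append, List.length_singleton] at hk0
  -- block 0
  have hblock : ∃ (r1 : M.L) (c1 : List M.L) (ann0 : List (MR M n)), c ++ [r] = r1 :: c1 ∧
      MPath M n none ann0 (some (0, r1, true)) ∧ ann0.map lab = c ++ [r] ∧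
      ∀ i, wt (blk i) ann0 = if i = 0 then k else 0 := by
    rcases c with _ | ⟨x, c⟩
    · have ht : turn M r = true := by simp [turn, hr]
      refine ⟨r, [], [⟨(r, none, some (0, r, turn M r)), MStep.start r⟩], rfl, ?_, rfl, ?_⟩
      · have := MPath.cons (n := n) ⟨(r, none, some (0, r, turn M r)), MStep.start r⟩ [] _
          (MPath.nil _)
        simpa [ht] using this
      · intro i
        simp only [wt_cons, wt_nil, blk]
        simp only [List.length_nil] at hk0
        by_cases hi : i = 0
        · simp [hi]; omega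
        · have : ¬ (0 : Fin (n + 1)) = i := fun h => hi h.symm
          simp [hi, this]
    · have ht : turn M x = false := by simp [turn, hc x (by simp)]
      obtain ⟨ann, h1, h2, h3⟩ := path0 M n x r hr c (fun y hy => hc y (List.mem_cons_of_mem _ hy))
      refine ⟨x, c ++ [r], ⟨(x, none, some (0, x, turn M x)), MStep.start x⟩ :: ann, rfl, ?_, ?_,
        ?_⟩
      · refine MPath.cons (n := n) ⟨(x, none, some (0, x, turn M x)), MStep.start x⟩ ann _ ?_
        simpa [ht] using h1
      · rw [List.map_cons, h2]; rfl
      · intro i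
        rw [wt_cons, h3]
        simp only [blk]
        simp only [List.length_cons] at hk0
        by_cases hi : i = 0
        · simp [hi]; omega
        · have : ¬ (0 : Fin (n + 1)) = i := fun h => hi h.symm
          simp [hi, this]
  obtain ⟨r1, c1, ann0, hc1, h1, h2, h3⟩ := hblock
  rw [hc1] at hch
  obtain ⟨ann, r', t', h4, h5, h6, h7⟩ := pathB M n k B' 0 r1 true c1 (by simpa using by omega)
    (fun _ => rfl) (fun b hb => hB b (List.mem_cons_of_mem _ hb)) hch
  refine ⟨ann0 ++ ann, f, r', t', k, hf, h5, ?_, ?_, hk, ?_⟩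
  · have hmap : (ann0 ++ ann).map lab = ((c ++ [r]) :: B').flatten := by
      rw [List.map_append, h2, h6, List.flatten_cons]
    exact toRun hst (h1.append h4) hmap
  · rw [List.map_append, h2, h6, ← List.flatten_cons]
    have := steps_read hst
    simpa using this.symm
  · intro i
    rw [wt_append, h3, h7]
    by_cases hi : i = 0
    · simp [hi]
    · have : 0 < i := Fin.pos_iff_ne_zero.mpr hi
      simp [hi, this]

/-! ### From monitor paths to blocks -/

theorem decode (M : SPDA T) (n k : ℕ) (r' : M.L) (t' : Bool) (ht' : n = 0 → t' = true)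
    {s s' : Mon M n} {ann : List (MR M n)} (h : MPath M n s ann s') :
    s' = some (Fin.last n, r', t') → ∀ (j : Fin (n + 1)) (r1 : M.L) (t : Bool),
      s = some (j, r1, t) →
      ∃ (c : List M.L) (B : List (List M.L)), ann.map lab = c ++ B.flatten ∧
        j.val + B.length = n ∧ c.length = wt (blk j) ann ∧
        ((∀ i, j < i → wt (blk i) ann = k) → ∀ b ∈ B, b.length = k) ∧
        (∀ i, i < j → wt (blk i) ann = 0) ∧ List.IsChain (FirstRel M) ((r1 :: c) :: B) ∧
        (j = 0 → (t = true → c = []) ∧ (t = false → ∃ c' r, c = c' ++ [r] ∧ M.tgt r = M.qt ∧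
          ∀ x ∈ c', M.tgt x ≠ M.qt)) := by
  induction h with
  | nil s =>
    rintro hs j r1 t hs'
    rw [hs] at hs'
    simp only [Option.some.injEq, Prod.mk.injEq] at hs'
    obtain ⟨rfl, rfl, rfl⟩ := hs'
    refine ⟨[], [], rfl, by simp, rfl, fun _ => by simp, fun _ _ => rfl, by simp, fun h => ?_⟩
    have hn : n = 0 := by simpa using congrArg Fin.val h
    have := ht' hn
    subst this
    simp
  | cons x ann s' hp ih =>
    rintro rfl j r1 t hs
    obtain ⟨⟨r, s1, s2⟩, hx⟩ := x
    simp only at hs hp ih
    subst hs
    have hx' : MStep M n (some (j, r1, t)) r s2 := hx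
    cases hx' with
    | stay _ _ _ _ ht =>
      obtain ⟨c, B, h1, h2, h3, h4, h5, h6, h7⟩ := ih trivial j r1 (turn M r) rfl
      refine ⟨r :: c, B, ?_, h2, ?_, ?_, ?_, ?_, ?_⟩
      · rw [List.map_cons, h1]; rfl
      · rw [wt_cons, List.length_cons, h3]
        simp [blk]; omega
      · intro hk
        apply h4
        intro i hi
        have := hk i hi
        rw [wt_cons] at this
        have hne : ¬ j = i := ne_of_lt hi
        simpa [blk, hne] using this
      · intro i hi
        rw [wt_cons, h5 i hi]
        have hne : ¬ j = i := (ne_of_lt hi).symm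
        simp [blk, hne]
      · rcases B with _ | ⟨b, B⟩
        · simp
        · rw [List.isChain_cons_cons] at h6 ⊢
          refine ⟨?_, h6.2⟩
          obtain ⟨⟨y, y', hy, hy', hR⟩, _⟩ := h6
          exact ⟨y, y', by simpa using hy, hy', hR⟩
      · intro hj
        have htf := ht hj
        subst htf
        refine ⟨by simp, fun _ => ?_⟩
        obtain ⟨h8, h9⟩ := h7 hj
        by_cases htr : M.tgt r = M.qt
        · have : turn M r = true := by simp [turn, htr]
          rw [h8 this]
          exact ⟨[], r, rfl, htr, by simp⟩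
        · have : turn M r = false := by simp [turn, htr]
          obtain ⟨c', r2, rfl, h10, h11⟩ := h9 this
          refine ⟨r :: c', r2, rfl, h10, ?_⟩
          intro y hy
          rcases List.mem_cons.mp hy with rfl | hy
          · exact htr
          · exact h11 y hy
    | switch _ j' _ _ _ hj' hR ht =>
      obtain ⟨c, B, h1, h2, h3, h4, h5, h6, h7⟩ := ih trivial j' r (turn M r) rfl
      have hjj : j < j' := by
        show j.val < j'.val
        omega
      refine ⟨[], (r :: c) :: B, ?_, ?_, ?_, ?_, ?_, ?_, ?_⟩
      · rw [List.map_cons, h1]; rfl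
      · simp only [List.length_cons]; omega
      · rw [wt_cons, h5 j hjj]
        have hne : ¬ j' = j := (ne_of_lt hjj).symm
        simp [blk, hne]
      · intro hk b hb
        have hk' : ∀ i, j' < i → wt (blk i) ann = k := by
          intro i hi
          have := hk i (hjj.trans hi)
          rw [wt_cons] at this
          have hne : ¬ j' = i := ne_of_lt hi
          simpa [blk, hne] using this
        rcases List.mem_cons.mp hb with rfl | hb
        · have := hk j' hjj
          rw [wt_cons, ← h3] at this
          simp only [blk, if_true] at this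
          rw [List.length_cons]
          omega
        · exact h4 hk' b hb
      · intro i hi
        rw [wt_cons, h5 i (hi.trans hjj)]
        have hne : ¬ j' = i := (ne_of_lt (hi.trans hjj)).symm
        simp [blk, hne]
      · rw [List.isChain_cons_cons]
        exact ⟨⟨r1, r, rfl, rfl, hR⟩, h6⟩
      · intro hj
        have := ht hj
        subst this
        simp

/-- a balanced accepting run of the monitored automaton reads an accepted word -/
theorem read_mem (M : SPDA T) (n k : ℕ) (hk : 1 ≤ k) {f : M.Q} (hf : f ∈ M.F) {r' : M.L}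
    {t' : Bool} (ht' : n = 0 → t' = true) {ann : List (MR M n)}
    (h : Pop (mpd M n) (M.q0, none) [M.Z0] (f, some (Fin.last n, r', t')) ann)
    (hb : ∀ i, wt (blk i) ann = k) : (ann.map lab).flatMap M.read ∈ Lang M n := by
  obtain ⟨h1, h2⟩ := fromRun h
  simp only at h1 h2
  rcases ann with _ | ⟨x, ann⟩
  · exfalso
    have := hb 0
    simp at this
    omega
  · generalize hs : (none : Mon M n) = s at h1
    generalize hs' : (some (Fin.last n, r', t') : Mon M n) = s' at h1
    cases h1 with
    | cons x ann _ hp =>
    obtain ⟨⟨r, s1, s2⟩, hx⟩ := x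
    simp only at hs hp
    subst hs
    have hx' : MStep M n none r s2 := hx
    cases hx' with
    | start _ =>
      obtain ⟨c, B, h3, h4, h5, h6, h7, h8, h9⟩ := decode M n k r' t' ht' hp hs'.symm 0 r
        (turn M r) rfl
      have hlen0 : (r :: c).length = k := by
        have := hb 0
        rw [wt_cons, ← h5] at this
        simp only [blk, if_true] at this
        rw [List.length_cons]; omega
      have hB : ∀ b ∈ B, b.length = k := by
        apply h6
        intro i hi
        have := hb i
        rw [wt_cons] at this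
        have hne : ¬ (0 : Fin (n + 1)) = i := ne_of_lt hi
        simpa [blk, hne] using this
      refine ⟨(r :: c) :: B, f, ⟨?_, ⟨k, hk, ?_⟩, ?_, h8⟩, hf, ?_⟩
      · simp only [List.length_cons]
        have : (0 : Fin (n + 1)).val = 0 := rfl
        omega
      · intro b hb
        rcases List.mem_cons.mp hb with rfl | hb
        · exact hlen0
        · exact hB b hb
      · obtain ⟨h10, h11⟩ := h9 rfl
        by_cases htr : M.tgt r = M.qt
        · have : turn M r = true := by simp [turn, htr]
          rw [h10 this]
          exact ⟨[], r, B, rfl, htr, by simp⟩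
        · have : turn M r = false := by simp [turn, htr]
          obtain ⟨c', r2, rfl, h12, h13⟩ := h11 this
          refine ⟨r :: c', r2, B, rfl, h12, ?_⟩
          intro y hy
          rcases List.mem_cons.mp hy with rfl | hy
          · exact htr
          · exact h13 y hy
      · rw [List.flatten_cons]
        have e : (r :: c) ++ B.flatten =
            List.map lab ((⟨(r, none, some (0, r, turn M r)), MStep.start r⟩ : MR M n) :: ann) := by
          rw [List.map_cons, h3]; rfl
        rw [e]
        exact h2

/-! ### The language is not in the family -/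

/-- the word `a₀^m a₁^m ⋯ a_{r-1}^m` -/
def word (r m : ℕ) : List (Fin r) := (List.finRange r).flatMap (fun i => List.replicate m i)

/-- the language of all these words with `m ≥ 1` -/
def Lr (r : ℕ) : Set (List (Fin r)) := {w | ∃ m, 1 ≤ m ∧ w = word r m}

theorem count_word (r m : ℕ) (a : Fin r) : (word r m).count a = m := by
  unfold word
  rw [List.count_flatMap]
  have : ((List.finRange r).map (List.count a ∘ fun i => List.replicate m i)) =
      (List.finRange r).map (fun i => if i = a then m else 0) := by
    apply List.map_congr_left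
    intro i _
    simp only [Function.comp, List.count_replicate]
    by_cases h : i = a
    · simp [h]
    · simp [h]
  rw [this]
  have h2 : ((List.finRange r).map (fun i => if i = a then m else 0)).sum =
      ∑ i : Fin r, if i = a then m else 0 := by
    rw [← List.sum_ofFn]
    simp [List.ofFn_eq_map]
  rw [h2]
  simp

theorem sorted_word (r m : ℕ) : (word r m).Pairwise (· ≤ ·) := by
  unfold word
  rw [List.pairwise_flatMap]
  refine ⟨fun i _ => ?_, ?_⟩
  · rw [List.pairwise_replicate]
    right; exact le_refl i
  · have h : (List.finRange r).Pairwise (· < ·) := List.pairwise_lt_finRange r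
    refine h.imp ?_
    intro a b hab x hx y hy
    rw [List.mem_replicate] at hx hy
    rw [hx.2, hy.2]
    exact hab.le

/-- weight: number of letters `a` read -/
def cl {r : ℕ} {M : SPDA (Fin r)} {n : ℕ} (a : Fin r) (x : MR M n) : ℕ := (M.read (lab x)).count a

theorem count_read {r : ℕ} {M : SPDA (Fin r)} {n : ℕ} (a : Fin r) (ann : List (MR M n)) :
    ((ann.map lab).flatMap M.read).count a = wt (cl a) ann := by
  induction ann with
  | nil => simp
  | cons x ann ih =>
    rw [List.map_cons, List.flatMap_cons, List.count_append, ih, wt_cons]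
    rfl

theorem not_mem (n r : ℕ) (hr : 2 * (n + 1) < r) : Lr r ∉ FSPDA n (Fin r) := by
  classical
  rintro ⟨M, hM⟩
  have := M.finQ
  have := M.finG
  have := M.finL
  have hrun : ∀ m : ℕ, ∃ (ann : List (MR M n)) (f : M.Q) (r' : M.L) (t' : Bool) (k : ℕ),
      f ∈ M.F ∧ (n = 0 → t' = true) ∧
      Pop (mpd M n) (M.q0, none) [M.Z0] (f, some (Fin.last n, r', t')) ann ∧
      (ann.map lab).flatMap M.read = word r (m + 1) ∧ 1 ≤ k ∧ ∀ i, wt (blk i) ann = k := by
    intro m
    apply lift_run
    rw [hM]
    exact ⟨m + 1, by omega, rfl⟩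
  choose ann f r' t' k hf ht hpop hread hk hblk using hrun
  obtain ⟨⟨f0, r0, t0⟩, hinf⟩ := Finite.exists_infinite_fiber (fun m => (f m, r' m, t' m))
  have hinf' : (Set.ofPred (fun m => (f m, r' m, t' m) = (f0, r0, t0))).Infinite :=
    Set.infinite_coe_iff.mp hinf
  let g := Nat.nth (fun m => (f m, r' m, t' m) = (f0, r0, t0))
  have hg : StrictMono g := Nat.nth_strictMono hinf'
  have hg' : ∀ m, (f (g m), r' (g m), t' (g m)) = (f0, r0, t0) := Nat.nth_mem_of_infinite hinf'
  have hf0 : f0 ∈ M.F := by
    have := hg' 0
    simp only [Prod.mk.injEq] at this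
    rw [← this.1]; exact hf _
  have ht0 : n = 0 → t0 = true := by
    intro h
    have := hg' 0
    simp only [Prod.mk.injEq] at this
    rw [← this.2.2]; exact ht _ h
  obtain ⟨i, j, hij, ⟨F⟩⟩ := amalgam (mpd M n) (M.q0, none) [M.Z0]
    (f0, some (Fin.last n, r0, t0)) (fun m => ann (g m)) (by
      intro m
      have h1 := hpop (g m)
      have h2 := hg' m
      simp only [Prod.mk.injEq] at h2
      obtain ⟨h3, h4, h5⟩ := h2
      rw [h3, h4, h5] at h1
      exact h1)
  letI := F.fin
  -- the vectors
  let e : F.ι → Fin r → ℕ := fun x a => wt (cl a) (F.U x) + wt (cl a) (F.V x)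
  let b : F.ι → Fin (n + 1) → ℕ := fun x a => wt (blk a) (F.U x) + wt (blk a) (F.V x)
  have hWb : ∀ (c : F.ι → ℕ) (a : Fin (n + 1)), wt (blk a) (F.W c) =
      k (g i) + ∑ x, c x * b x a := by
    intro c a
    rw [F.wt, hblk]
  have hWe : ∀ (c : F.ι → ℕ) (a : Fin r), wt (cl a) (F.W c) =
      (g i + 1) + ∑ x, c x * e x a := by
    intro c a
    rw [F.wt]
    congr 1
    rw [← count_read, hread, count_word]
  have hacc : ∀ c : F.ι → ℕ, (∀ j, ∑ x, c x * b x j = ∑ x, c x * b x 0) →
      ∃ m, ((F.W c).map lab).flatMap M.read = word r m := by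
    intro c hc
    have h1 := read_mem M n (k (g i) + ∑ x, c x * b x 0) (by have := hk (g i); omega) hf0 ht0
      (F.pop c) (fun a => by rw [hWb, hc])
    rw [hM] at h1
    obtain ⟨m, _, hm⟩ := h1
    exact ⟨m, hm⟩
  have hb : ∀ j, ∑ x, b x j = ∑ x, b x 0 := by
    intro a
    have h1 := hWb (fun _ => 1) a
    have h2 := hWb (fun _ => 1) 0
    rw [F.one, hblk] at h1 h2
    simp only [one_mul] at h1 h2
    omega
  have hgij : g i < g j := hg hij
  refine RankLemma.rank_lemma n r hr e b ?_ hb ?_ ?_
  · intro c hc a a'
    obtain ⟨m, hm⟩ := hacc c hc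
    have h1 := hWe c a
    have h2 := hWe c a'
    rw [← count_read, hm, count_word] at h1 h2
    omega
  · intro a
    have h1 := hWe (fun _ => 1) a
    rw [F.one, ← count_read, hread, count_word] at h1
    simp only [one_mul] at h1
    omega
  · intro x
    obtain ⟨m, hm⟩ := hacc (fun _ => 2) (by
      intro a
      rw [← Finset.mul_sum, ← Finset.mul_sum, hb])
    have hinfx := F.inf x (fun _ => 2) le_rfl
    -- all letters read by a pump are equal
    have key : ∀ u : List (MR M n), (u ++ u) <:+: F.W (fun _ => 2) →
        ∀ a a', wt (cl a) u ≠ 0 → wt (cl a') u ≠ 0 → a = a' := by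
      intro u hu a a' ha ha'
      rw [← count_read, Ne, List.count_eq_zero, not_not] at ha ha'
      have hs : (((u ++ u).map lab).flatMap M.read).Pairwise (· ≤ ·) := by
        obtain ⟨p, s, hps⟩ := hu
        have h1 := sorted_word r m
        rw [← hm, ← hps] at h1
        simp only [List.map_append, List.flatMap_append] at h1 ⊢
        exact (List.pairwise_append.mp (List.pairwise_append.mp h1).1).2.1
      rw [List.map_append, List.flatMap_append, List.pairwise_append] at hs
      exact le_antisymm (hs.2.2 a ha a' ha') (hs.2.2 a' ha' a ha)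
    obtain ⟨hu, hv⟩ := hinfx
    have hU := key _ hu
    have hV := key _ hv
    have hsub : (Finset.univ.filter (fun a => e x a ≠ 0)) ⊆
        (Finset.univ.filter (fun a => wt (cl a) (F.U x) ≠ 0)) ∪
        (Finset.univ.filter (fun a => wt (cl a) (F.V x) ≠ 0)) := by
      intro a ha
      simp only [Finset.mem_filter, Finset.mem_univ, true_and, Finset.mem_union, e] at ha ⊢
      omega
    refine (Finset.card_le_card hsub).trans ((Finset.card_union_le _ _).trans ?_)
    have c1 : (Finset.univ.filter (fun a => wt (cl a) (F.U x) ≠ 0)).card ≤ 1 :=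
      Finset.card_le_one.mpr (fun a ha a' ha' => hU a a' (by simpa using ha) (by simpa using ha'))
    have c2 : (Finset.univ.filter (fun a => wt (cl a) (F.V x) ≠ 0)).card ≤ 1 :=
      Finset.card_le_one.mpr (fun a ha a' ha' => hV a a' (by simpa using ha) (by simpa using ha'))
    omega

end Pool.Agent.R576.Fspda
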