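import Mathlib
import Pool.Agent.R576.Fspda

set_option autoImplicit false

namespace Pool.Agent.R576.Fspda

variable {T : Type}

theorem Steps.append {M : SPDA T} {c c' c'' : List M.G × M.Q × List T} {μ ν : List M.L}
    (h : Steps M c μ c') (h' : Steps M c' ν c'') : Steps M c (μ ++ ν) c'' := by
  induction h with
  | refl => exact h'
  | step r δ v μ c _ ih => exact Steps.step _ _ _ _ _ (ih h')

theorem Steps.split {M : SPDA T} {c c'' : List M.G × M.Q × List T} {μ ν : List M.L}
    (h : Steps M c (μ ++ ν) c'') : ∃ c', Steps M c μ c' ∧ Steps M c' ν c'' := by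
  induction μ generalizing c with
  | nil => exact ⟨c, Steps.refl _, h⟩
  | cons r μ ih =>
    rw [List.cons_append] at h
    cases h with
    | step _ δ v _ _ h =>
      obtain ⟨c', h1, h2⟩ := ih h
      exact ⟨c', Steps.step _ _ _ _ _ h1, h2⟩

/-! ### The automaton with one more turn -/

inductive QQ (Q : Type) where
  | S | I | E | D
  | st (b : Bool) (q : Q)

inductive LL (L Q : Type) (n : ℕ) where
  | start (r : L)
  | mid (b : Bool) (r : L)
  | fst (j : Fin (n + 1)) (r : L)
  | idle1 (l : Bool) (f : Q)
  | idle2 (l : Bool)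

instance {Q : Type} [Finite Q] : Finite (QQ Q) := by
  let f : QQ Q → Fin 4 ⊕ (Bool × Q) := fun x => match x with
    | .S => Sum.inl 0
    | .I => Sum.inl 1
    | .E => Sum.inl 2
    | .D => Sum.inl 3
    | .st b q => Sum.inr (b, q)
  apply Finite.of_injective f
  intro x y h
  cases x <;> cases y <;> simp_all [f]

instance {L Q : Type} {n : ℕ} [Finite L] [Finite Q] : Finite (LL L Q n) := by
  let f : LL L Q n → L ⊕ (Bool × L) ⊕ (Fin (n + 1) × L) ⊕ (Bool × Q) ⊕ Bool :=
    fun x => match x with
    | .start r => Sum.inl r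
    | .mid b r => Sum.inr (Sum.inl (b, r))
    | .fst j r => Sum.inr (Sum.inr (Sum.inl (j, r)))
    | .idle1 l f => Sum.inr (Sum.inr (Sum.inr (Sum.inl (l, f))))
    | .idle2 l => Sum.inr (Sum.inr (Sum.inr (Sum.inr l)))
  apply Finite.of_injective f
  intro x y h
  cases x <;> cases y <;> simp_all [f]

open Classical in
noncomputable def upSrc (M : SPDA T) (n : ℕ) : LL M.L M.Q n → QQ M.Q
  | .start r => if M.src r = M.q0 ∧ M.top r = M.Z0 then .S else .D
  | .mid b r => .st b (M.src r)
  | .fst j r => .st (decide (1 < j.val)) (M.src r)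
  | .idle1 _ f => if f ∈ M.F then .st (decide (0 < n)) f else .D
  | .idle2 _ => .I

def upTop (M : SPDA T) (n : ℕ) : LL M.L M.Q n → Option M.G
  | .start _ => none
  | .mid _ r => some (M.top r)
  | .fst _ r => some (M.top r)
  | .idle1 _ _ => none
  | .idle2 _ => none

def upRead (M : SPDA T) (n : ℕ) : LL M.L M.Q n → List T
  | .start r => M.read r
  | .mid _ r => M.read r
  | .fst _ r => M.read r
  | .idle1 _ _ => []
  | .idle2 _ => []

def upPush (M : SPDA T) (n : ℕ) : LL M.L M.Q n → List (Option M.G)
  | .start r => (M.push r).map some ++ [none]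
  | .mid _ r => (M.push r).map some
  | .fst _ r => (M.push r).map some
  | .idle1 l _ => if l then [] else [none]
  | .idle2 l => if l then [] else [none]

def upTgt (M : SPDA T) (n : ℕ) : LL M.L M.Q n → QQ M.Q
  | .start r => .st false (M.tgt r)
  | .mid b r => .st b (M.tgt r)
  | .fst _ r => .st true (M.tgt r)
  | .idle1 l _ => if l then .E else .I
  | .idle2 l => if l then .E else .I

def upR (M : SPDA T) (n : ℕ) : LL M.L M.Q n → LL M.L M.Q n → Prop
  | .start r, .fst j r' => j.val = 1 ∧ M.R r r'
  | .start _, .idle1 _ _ => n = 0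
  | .fst j r, .fst j' r' => j'.val = j.val + 1 ∧ M.R r r'
  | .fst j _, .idle1 _ _ => j.val = n
  | _, _ => False

noncomputable def up (M : SPDA T) (n : ℕ) : SPDA T where
  Q := QQ M.Q
  G := Option M.G
  L := LL M.L M.Q n
  finQ := by have := M.finQ; infer_instance
  finG := by have := M.finG; infer_instance
  finL := by have := M.finQ; have := M.finL; infer_instance
  src := upSrc M n
  top := upTop M n
  read := upRead M n
  push := upPush M n
  tgt := upTgt M n
  q0 := .S
  qt := .st false M.qt
  Z0 := none
  F := {.E}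
  R := upR M n

/-- `Steps (up M n)` with concrete types -/
inductive USteps (M : SPDA T) (n : ℕ) : List (Option M.G) × QQ M.Q × List T →
    List (LL M.L M.Q n) → List (Option M.G) × QQ M.Q × List T → Prop
  | refl (c : List (Option M.G) × QQ M.Q × List T) : USteps M n c [] c
  | step (x : LL M.L M.Q n) (δ : List (Option M.G)) (v : List T) (μ : List (LL M.L M.Q n))
      (c : List (Option M.G) × QQ M.Q × List T) :
      USteps M n (upPush M n x ++ δ, upTgt M n x, v) μ c →
      USteps M n (upTop M n x :: δ, upSrc M n x, upRead M n x ++ v) (x :: μ) c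

/-- `FirstRel (up M n)` with concrete types -/
def URel (M : SPDA T) (n : ℕ) (b b' : List (LL M.L M.Q n)) : Prop :=
  ∃ r r', b.head? = some r ∧ b'.head? = some r' ∧ upR M n r r'

variable {M : SPDA T} {n : ℕ}

theorem USteps.toSteps {c c' : List (Option M.G) × QQ M.Q × List T} {μ : List (LL M.L M.Q n)}
    (h : USteps M n c μ c') : Steps (up M n) c μ c' := by
  induction h with
  | refl c => exact Steps.refl _
  | step x δ v μ c _ ih => exact Steps.step (M := up M n) x δ v μ c ih

theorem USteps.ofSteps {c c' : List (up M n).G × (up M n).Q × List T} {μ : List (up M n).L}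
    (h : Steps (up M n) c μ c') : USteps M n c μ c' := by
  induction h with
  | refl c => exact USteps.refl _
  | step x δ v μ c _ ih => exact USteps.step x δ v μ c ih

theorem USteps.append {c c' c'' : List (Option M.G) × QQ M.Q × List T}
    {μ ν : List (LL M.L M.Q n)} (h : USteps M n c μ c') (h' : USteps M n c' ν c'') :
    USteps M n c (μ ++ ν) c'' := by
  induction h with
  | refl => exact h'
  | step x δ v μ c _ ih => exact USteps.step _ _ _ _ _ (ih h')

theorem USteps.split {c c'' : List (Option M.G) × QQ M.Q × List T}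
    {μ ν : List (LL M.L M.Q n)} (h : USteps M n c (μ ++ ν) c'') :
    ∃ c', USteps M n c μ c' ∧ USteps M n c' ν c'' := by
  induction μ generalizing c with
  | nil => exact ⟨c, USteps.refl _, h⟩
  | cons r μ ih =>
    rw [List.cons_append] at h
    cases h with
    | step _ δ v _ _ h =>
      obtain ⟨c', h1, h2⟩ := ih h
      exact ⟨c', USteps.step _ _ _ _ _ h1, h2⟩

abbrev lft (δ : List M.G) : List (Option M.G) := δ.map some ++ [none]

theorem up_step_mid {δ : List M.G} {b : Bool} {r : M.L} {v : List T}
    {μ : List (LL M.L M.Q n)} {c : List (Option M.G) × QQ M.Q × List T}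
    (h : USteps M n (lft (M.push r ++ δ), QQ.st b (M.tgt r), v) μ c) :
    USteps M n (lft (M.top r :: δ), QQ.st b (M.src r), M.read r ++ v) (LL.mid b r :: μ) c := by
  refine USteps.step (LL.mid b r) (δ.map some ++ [none]) v μ c ?_
  have e : upPush M n (LL.mid b r) ++ (δ.map some ++ [none]) = lft (M.push r ++ δ) := by
    show (M.push r).map some ++ (δ.map some ++ [none]) = _
    simp [lft]
  rw [e]
  exact h

theorem up_step_fst {δ : List M.G} {j : Fin (n + 1)} {r : M.L} {v : List T}
    {μ : List (LL M.L M.Q n)} {c : List (Option M.G) × QQ M.Q × List T}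
    (h : USteps M n (lft (M.push r ++ δ), QQ.st true (M.tgt r), v) μ c) :
    USteps M n (lft (M.top r :: δ), QQ.st (decide (1 < j.val)) (M.src r), M.read r ++ v)
      (LL.fst j r :: μ) c := by
  refine USteps.step (LL.fst j r) (δ.map some ++ [none]) v μ c ?_
  have e : upPush M n (LL.fst j r) ++ (δ.map some ++ [none]) = lft (M.push r ++ δ) := by
    show (M.push r).map some ++ (δ.map some ++ [none]) = _
    simp [lft]
  rw [e]
  exact h

theorem up_step_start {r : M.L} {v : List T} (hs : M.src r = M.q0) (ht : M.top r = M.Z0)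
    {μ : List (LL M.L M.Q n)} {c : List (Option M.G) × QQ M.Q × List T}
    (h : USteps M n (lft (M.push r), QQ.st false (M.tgt r), v) μ c) :
    USteps M n ([none], QQ.S, M.read r ++ v) (LL.start r :: μ) c := by
  have e0 : upSrc M n (LL.start r) = QQ.S := by
    show upSrc M n (LL.start r) = _
    simp [upSrc, hs, ht]
  rw [← e0]
  refine USteps.step (LL.start r) [] v μ c ?_
  have e : upPush M n (LL.start r) ++ [] = lft (M.push r) := by
    simp [upPush, lft]
  rw [e]
  exact h

theorem up_mids {c c' : List M.G × M.Q × List T} {μ : List M.L} (h : Steps M c μ c') (b : Bool) :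
    USteps M n (lft c.1, QQ.st b c.2.1, c.2.2) (μ.map (LL.mid b))
      (lft c'.1, QQ.st b c'.2.1, c'.2.2) := by
  induction h with
  | refl c => exact USteps.refl _
  | step r δ v μ c _ ih => exact up_step_mid ih

/-- annotation of the blocks from index `j` on -/
def annB (n : ℕ) (L Q : Type) : ℕ → List (List L) → List (List (LL L Q n))
  | _, [] => []
  | j, b :: B => (match b with
      | [] => []
      | r :: c => LL.fst ⟨j % (n + 1), Nat.mod_lt _ (Nat.succ_pos n)⟩ r :: c.map (LL.mid true)) ::
        annB n L Q (j + 1) B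

theorem up_blocks (B : List (List M.L)) : ∀ (j : ℕ) (c c' : List M.G × M.Q × List T), 1 ≤ j →
    j + B.length = n + 1 → (∀ b ∈ B, b ≠ []) → Steps M c B.flatten c' →
    USteps M n (lft c.1, QQ.st (decide (1 < j)) c.2.1, c.2.2) (annB n M.L M.Q j B).flatten
      (lft c'.1, QQ.st (decide (0 < n)) c'.2.1, c'.2.2) := by
  induction B with
  | nil =>
    intro j c c' hj hlen _ h
    cases h
    have : (decide (1 < j)) = (decide (0 < n)) := by
      simp only [List.length_nil] at hlen
      congr 1
      apply propext
      omega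
    rw [this]
    exact USteps.refl _
  | cons b B ih =>
    intro j c c' hj hlen hb h
    rw [List.flatten_cons] at h
    obtain ⟨c1, h1, h2⟩ := h.split
    rcases b with _ | ⟨r, b⟩
    · exact absurd rfl (hb [] (by simp))
    simp only [List.length_cons] at hlen
    have hmod : j % (n + 1) = j := Nat.mod_eq_of_lt (by omega)
    have h3 := ih (j + 1) c1 c' (by omega) (by omega)
      (fun b hb' => hb b (List.mem_cons_of_mem _ hb')) h2
    have e1 : decide (1 < j + 1) = true := by simp; omega
    rw [e1] at h3
    cases h1 with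
    | step _ δ v _ _ h1 =>
      have h4 := (up_mids (n := n) h1 true).append h3
      have h5 := up_step_fst (n := n) (j := ⟨j % (n + 1), Nat.mod_lt _ (Nat.succ_pos n)⟩) h4
      simp only [hmod] at h5
      simp only [annB, List.flatten_cons, List.cons_append, hmod]
      exact h5

/-- the idle block -/
def idle (n : ℕ) (L Q : Type) (f : Q) : ℕ → List (LL L Q n)
  | 0 => []
  | 1 => [LL.idle1 true f]
  | k + 2 => LL.idle1 false f :: (List.replicate k (LL.idle2 false) ++ [LL.idle2 true])

theorem idle_length (L Q : Type) (f : Q) (k : ℕ) : (idle n L Q f k).length = k := by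
  rcases k with _ | _ | k
  · rfl
  · rfl
  · simp [idle]

theorem up_idle2 (k : ℕ) : USteps M n ([none], QQ.I, [])
    (List.replicate k (LL.idle2 false) ++ [LL.idle2 true]) ([], QQ.E, []) := by
  induction k with
  | zero =>
    exact USteps.step (LL.idle2 true) [] [] [] _ (USteps.refl _)
  | succ k ih =>
    rw [List.replicate_succ, List.cons_append]
    exact USteps.step (LL.idle2 false) [] [] _ _ ih

theorem up_idle {f : M.Q} (hf : f ∈ M.F) {k : ℕ} (hk : 1 ≤ k) :
    USteps M n ([none], QQ.st (decide (0 < n)) f, []) (idle n M.L M.Q f k) ([], QQ.E, []) := by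
  have e : ∀ l : Bool, QQ.st (decide (0 < n)) f = upSrc M n (LL.idle1 l f) := by
    intro l
    show _ = upSrc M n (LL.idle1 l f)
    simp [upSrc, hf]
  rcases k with _ | _ | k
  · omega
  · rw [e true]
    exact USteps.step (LL.idle1 true f) [] [] [] _ (USteps.refl _)
  · rw [e false]
    exact USteps.step (LL.idle1 false f) [] [] _ _ (up_idle2 k)

theorem annB_length (L Q : Type) (B : List (List L)) : ∀ j, (annB n L Q j B).length = B.length := by
  induction B with
  | nil => intro j; rfl
  | cons b B ih => intro j; simp [annB, ih]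

theorem annB_mem (L Q : Type) (k : ℕ) (B : List (List L)) : ∀ j, (∀ b ∈ B, b.length = k) →
    ∀ b ∈ annB n L Q j B, b.length = k := by
  induction B with
  | nil => intro j _ b hb; simp [annB] at hb
  | cons b0 B ih =>
    intro j h b hb
    simp only [annB, List.mem_cons] at hb
    rcases hb with rfl | hb
    · have := h b0 (by simp)
      rcases b0 with _ | ⟨r, c⟩
      · simpa using this
      · simpa using this
    · exact ih _ (fun b hb => h b (List.mem_cons_of_mem _ hb)) b hb

/-- head label of a block: the label of the original automaton and the block index -/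
theorem annB_chain (f : M.Q) {k : ℕ} (hk : 1 ≤ k) (B : List (List M.L)) :
    ∀ (j : ℕ) (r : M.L) (c : List M.L) (c' : List (LL M.L M.Q n)) (x : LL M.L M.Q n),
      (x = LL.start r ∧ j = 0 ∨ ∃ h : j < n + 1, 1 ≤ j ∧ x = LL.fst ⟨j, h⟩ r) →
      j + B.length = n → (∀ b ∈ B, b.length = k) →
      List.IsChain (FirstRel M) ((r :: c) :: B) →
      List.IsChain (URel M n) ((x :: c') :: (annB n M.L M.Q (j + 1) B ++
        [idle n M.L M.Q f k])) := by
  induction B with
  | nil =>
    intro j r c c' x hx hlen _ _
    simp only [List.length_nil, Nat.add_zero] at hlen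
    simp only [annB, List.nil_append]
    rw [List.isChain_cons_cons]
    refine ⟨?_, List.IsChain.singleton _⟩
    obtain ⟨l, hl⟩ : ∃ l, (idle n M.L M.Q f k).head? = some (LL.idle1 l f) := by
      rcases k with _ | _ | k
      · omega
      · exact ⟨true, rfl⟩
      · exact ⟨false, rfl⟩
    refine ⟨x, LL.idle1 l f, rfl, hl, ?_⟩
    rcases hx with ⟨rfl, hj⟩ | ⟨h, hj, rfl⟩
    · show n = 0
      omega
    · show (⟨j, h⟩ : Fin (n + 1)).val = n
      exact hlen
  | cons b B ih =>
    intro j r c c' x hx hlen hB hch
    rw [List.isChain_cons_cons] at hch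
    obtain ⟨⟨r0, r', hr0, hr', hR⟩, hch⟩ := hch
    simp only [List.head?_cons, Option.some.injEq] at hr0
    subst hr0
    rcases b with _ | ⟨y, b⟩
    · simp at hr'
    simp only [List.head?_cons, Option.some.injEq] at hr'
    subst hr'
    simp only [List.length_cons] at hlen
    have hmod : (j + 1) % (n + 1) = j + 1 := Nat.mod_eq_of_lt (by omega)
    have hlt : j + 1 < n + 1 := by omega
    simp only [annB, List.cons_append, hmod]
    rw [List.isChain_cons_cons]
    refine ⟨⟨x, LL.fst ⟨j + 1, hlt⟩ y, rfl, rfl, ?_⟩, ?_⟩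
    · rcases hx with ⟨rfl, hj⟩ | ⟨h, hj, rfl⟩
      · exact ⟨by simp [hj], hR⟩
      · exact ⟨rfl, hR⟩
    · exact ih (j + 1) y b (b.map (LL.mid true)) (LL.fst ⟨j + 1, hlt⟩ y)
        (Or.inr ⟨hlt, by omega, rfl⟩) (by omega)
        (fun b hb => hB b (List.mem_cons_of_mem _ hb)) hch

theorem up_mem_iff (M : SPDA T) (n N : ℕ) (w : List T) : w ∈ Lang (up M n) N ↔
    ∃ B : List (List (LL M.L M.Q n)), B.length = N + 1 ∧ (∃ k, 1 ≤ k ∧ ∀ b ∈ B, b.length = k) ∧
      (∃ c x B', B = (c ++ [x]) :: B' ∧ upTgt M n x = QQ.st false M.qt ∧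
        ∀ y ∈ c, upTgt M n y ≠ QQ.st false M.qt) ∧
      B.IsChain (URel M n) ∧ USteps M n ([none], QQ.S, w) B.flatten ([], QQ.E, []) := by
  constructor
  · rintro ⟨B, f, ⟨h1, h2, h3, h4⟩, hf, hst⟩
    have hf' : f = QQ.E := hf
    subst hf'
    exact ⟨B, h1, h2, h3, h4, USteps.ofSteps hst⟩
  · rintro ⟨B, h1, h2, h3, h4, hst⟩
    exact ⟨B, QQ.E, ⟨h1, h2, h3, h4⟩, rfl, USteps.toSteps hst⟩

theorem up_forward {w : List T} (hw : w ∈ Lang M n) : w ∈ Lang (up M n) (n + 1) := by
  rw [up_mem_iff]
  obtain ⟨B, f, ⟨hlen, ⟨k, hk, hB⟩, ⟨c, r, B', rfl, hr, hc⟩, hch⟩, hf, hst⟩ := hw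
  simp only [List.length_cons] at hlen
  have hB' : ∀ b ∈ B', b.length = k := fun b hb => hB b (List.mem_cons_of_mem _ hb)
  have hne : ∀ b ∈ B', b ≠ [] := by
    intro b hb h
    have := hB' b hb
    rw [h] at this
    simp at this
    omega
  have hk0 : (c ++ [r]).length = k := hB _ (by simp)
  rw [List.flatten_cons] at hst
  obtain ⟨c1, hst1, hst2⟩ := hst.split
  obtain ⟨r1, d, hd⟩ : ∃ r1 d, c ++ [r] = r1 :: d := by
    rcases c with _ | ⟨x, c⟩
    · exact ⟨r, [], rfl⟩
    · exact ⟨x, c ++ [r], rfl⟩
  rw [hd] at hst1 hch hk0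
  refine ⟨(LL.start r1 :: d.map (LL.mid false)) :: (annB n M.L M.Q 1 B' ++
    [idle n M.L M.Q f k]), ?_, ⟨k, hk, ?_⟩, ?_, ?_, ?_⟩
  · rw [List.length_cons, List.length_append, annB_length, List.length_singleton]; omega
  · intro b hb
    simp only [List.mem_cons, List.mem_append, List.not_mem_nil, or_false] at hb
    rcases hb with rfl | hb | rfl
    · simpa using hk0
    · exact annB_mem _ _ k B' 1 hB' b hb
    · exact idle_length _ _ _ _
  · rcases c with _ | ⟨x, c⟩
    · simp only [List.nil_append, List.cons.injEq] at hd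
      obtain ⟨rfl, rfl⟩ := hd
      refine ⟨[], LL.start r, _, rfl, ?_, by simp⟩
      show QQ.st false (M.tgt r) = QQ.st false M.qt
      rw [hr]
    · simp only [List.cons_append, List.cons.injEq] at hd
      obtain ⟨rfl, rfl⟩ := hd
      refine ⟨LL.start x :: c.map (LL.mid false), LL.mid false r,
        annB n M.L M.Q 1 B' ++ [idle n M.L M.Q f k], by simp, ?_, ?_⟩
      · show QQ.st false (M.tgt r) = QQ.st false M.qt
        rw [hr]
      · intro y hy h
        rcases List.mem_cons.mp hy with rfl | hy
        · have h' : QQ.st false (M.tgt x) = QQ.st false M.qt := h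
          simp only [QQ.st.injEq, true_and] at h'
          exact hc x (by simp) h'
        · obtain ⟨z, hz, rfl⟩ := List.mem_map.mp hy
          have h' : QQ.st false (M.tgt z) = QQ.st false M.qt := h
          simp only [QQ.st.injEq, true_and] at h'
          exact hc z (List.mem_cons_of_mem _ hz) h'
  · exact annB_chain f hk B' 0 r1 d _ _ (Or.inl ⟨rfl, rfl⟩) (by omega) hB' hch
  · rw [List.flatten_cons, List.flatten_append]
    have h2 := up_blocks (n := n) B' 1 c1 ([], f, []) le_rfl (by omega) hne hst2
    have h3 := up_idle (n := n) hf hk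
    have h4 := h2.append h3
    rw [List.cons_append]
    generalize hc0 : (([M.Z0], M.q0, w) : List M.G × M.Q × List T) = c0 at hst1
    cases hst1 with
    | step _ δ v _ _ h1 =>
      simp only [Prod.mk.injEq, List.cons.injEq] at hc0
      obtain ⟨⟨hz, rfl⟩, hq, rfl⟩ := hc0
      rw [List.append_nil] at h1
      have h5 := up_mids (n := n) h1 false
      refine up_step_start hq.symm hz.symm (h5.append ?_)
      have e : decide (1 < 1) = false := rfl
      simp only [e] at h4
      simpa using h4

/-! ### The converse -/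

/-- decoding of labels -/
def dec : LL M.L M.Q n → Option M.L
  | .start r => some r
  | .mid _ r => some r
  | .fst _ r => some r
  | .idle1 _ _ => none
  | .idle2 _ => none

theorem from_E {δ : List (Option M.G)} {v : List T} {μ : List (LL M.L M.Q n)}
    {c : List (Option M.G) × QQ M.Q × List T} (h : USteps M n (δ, QQ.E, v) μ c) :
    c = (δ, QQ.E, v) := by
  generalize hc0 : ((δ, QQ.E, v) : List (Option M.G) × QQ M.Q × List T) = c0 at h
  cases h with
  | refl => rfl
  | step x δ' v' μ c h =>
    exfalso
    have h1 : QQ.E = upSrc M n x := congrArg (fun c => c.2.1) hc0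
    cases x with
    | start r => simp only [upSrc] at h1; split_ifs at h1
    | mid b r => simp [upSrc] at h1
    | fst j r => simp [upSrc] at h1
    | idle1 l f => simp only [upSrc] at h1; split_ifs at h1
    | idle2 l => simp [upSrc] at h1

theorem from_I {c0 c : List (Option M.G) × QQ M.Q × List T} {μ : List (LL M.L M.Q n)}
    (h : USteps M n c0 μ c) : c0.2.1 = QQ.I → (c.2.1 = QQ.I ∨ c.2.1 = QQ.E) ∧ c.2.2 = c0.2.2 := by
  induction h with
  | refl c => intro h; exact ⟨Or.inl h, rfl⟩
  | step x δ v μ c h ih =>
    intro h1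
    simp only at h1
    cases x with
    | start r => simp only [upSrc] at h1; split_ifs at h1
    | mid b r => simp [upSrc] at h1
    | fst j r => simp [upSrc] at h1
    | idle1 l f => simp only [upSrc] at h1; split_ifs at h1
    | idle2 l =>
      cases l with
      | true =>
        have h2 := from_E h
        rw [h2]
        exact ⟨Or.inr rfl, by simp [upRead]⟩
      | false =>
        have h2 := ih rfl
        refine ⟨h2.1, ?_⟩
        rw [h2.2]
        simp [upRead]

/-- the part of a run of `up M n` between ordinary states -/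
theorem back_run {c0 c : List (Option M.G) × QQ M.Q × List T} {μ : List (LL M.L M.Q n)}
    (h : USteps M n c0 μ c) : ∀ (δ : List M.G) (b : Bool) (q : M.Q) (v : List T) (b2 : Bool)
      (q2 : M.Q), c0 = (lft δ, QQ.st b q, v) → c.2.1 = QQ.st b2 q2 →
      ∃ δ', c = (lft δ', QQ.st b2 q2, c.2.2) ∧ (μ.filterMap dec).length = μ.length ∧
        Steps M (δ, q, v) (μ.filterMap dec) (δ', q2, c.2.2) ∧
        (b2 = false → b = false ∧ ∀ x ∈ μ, ∃ r, x = LL.mid false r) := by
  induction h with
  | refl c =>
    rintro δ b q v b2 q2 rfl h2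
    simp only [QQ.st.injEq] at h2
    obtain ⟨rfl, rfl⟩ := h2
    exact ⟨δ, rfl, rfl, Steps.refl _, fun h => ⟨h, by simp⟩⟩
  | step x δ0 v0 μ c h ih =>
    intro δ b q v b2 q2 h1 h2
    simp only [Prod.mk.injEq] at h1
    obtain ⟨hδ, hq, hv⟩ := h1
    cases x with
    | start r =>
      exfalso
      simp only [upSrc] at hq
      split_ifs at hq
    | mid b' r =>
      simp only [upSrc, QQ.st.injEq] at hq
      obtain ⟨rfl, rfl⟩ := hq
      rcases δ with _ | ⟨Z, δ⟩
      · simp [upTop, lft] at hδ
      · simp only [upTop, lft, List.map_cons, List.cons_append, List.cons.injEq,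
          Option.some.injEq] at hδ
        obtain ⟨rfl, rfl⟩ := hδ
        obtain ⟨δ', h3, h4, h5, h6⟩ := ih (M.push r ++ δ) b' (M.tgt r) v0 b2 q2
          (by simp [upPush, upTgt, lft]) h2
        refine ⟨δ', h3, ?_, ?_, ?_⟩
        · exact congrArg Nat.succ h4
        · rw [← hv]
          exact Steps.step r δ v0 _ _ h5
        · intro hb
          obtain ⟨h7, h8⟩ := h6 hb
          refine ⟨h7, ?_⟩
          intro y hy
          rcases List.mem_cons.mp hy with rfl | hy
          · exact ⟨r, by rw [h7]⟩
          · exact h8 y hy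
    | fst j r =>
      simp only [upSrc, QQ.st.injEq] at hq
      obtain ⟨rfl, rfl⟩ := hq
      rcases δ with _ | ⟨Z, δ⟩
      · simp [upTop, lft] at hδ
      · simp only [upTop, lft, List.map_cons, List.cons_append, List.cons.injEq,
          Option.some.injEq] at hδ
        obtain ⟨rfl, rfl⟩ := hδ
        obtain ⟨δ', h3, h4, h5, h6⟩ := ih (M.push r ++ δ) true (M.tgt r) v0 b2 q2
          (by simp [upPush, upTgt, lft]) h2
        refine ⟨δ', h3, ?_, ?_, ?_⟩
        · exact congrArg Nat.succ h4
        · rw [← hv]
          exact Steps.step r δ v0 _ _ h5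
        · intro hb
          obtain ⟨h7, -⟩ := h6 hb
          simp at h7
    | idle1 l f =>
      exfalso
      cases l with
      | true =>
        have h3 := from_E h
        rw [h3] at h2
        simp at h2
      | false =>
        have h3 := (from_I h rfl).1
        rw [h2] at h3
        simp at h3
    | idle2 l =>
      exfalso
      simp [upSrc] at hq

/-- splitting of the chain of blocks -/
theorem back_chain (B : List (List (LL M.L M.Q n))) : ∀ (j : ℕ) (r : M.L) (x : LL M.L M.Q n)
    (c' : List (LL M.L M.Q n)),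
    (x = LL.start r ∧ j = 0 ∨ ∃ h : j < n + 1, 1 ≤ j ∧ x = LL.fst ⟨j, h⟩ r) →
    j + B.length = n + 1 → List.IsChain (URel M n) ((x :: c') :: B) →
    (∀ b ∈ B, b ≠ []) →
    ∃ (C : List (List (LL M.L M.Q n))) (l : Bool) (f : M.Q) (d : List (LL M.L M.Q n)),
      B = C ++ [LL.idle1 l f :: d] ∧ j + C.length = n ∧
      (∀ e : List M.L, List.IsChain (FirstRel M) ((r :: e) :: C.map (fun b => b.filterMap dec))) ∧
      (∀ b, C.head? = some b → ∃ (h : j + 1 < n + 1) (r' : M.L) (d' : List (LL M.L M.Q n)),
        b = LL.fst ⟨j + 1, h⟩ r' :: d') := by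
  induction B with
  | nil =>
    intro j r x c' hx hlen _ _
    exfalso
    simp only [List.length_nil, Nat.add_zero] at hlen
    rcases hx with ⟨_, hj⟩ | ⟨h, _, _⟩
    · omega
    · omega
  | cons b B ih =>
    intro j r x c' hx hlen hch hne
    rw [List.isChain_cons_cons] at hch
    obtain ⟨⟨x0, y, hx0, hy, hR⟩, hch⟩ := hch
    simp only [List.head?_cons, Option.some.injEq] at hx0
    subst hx0
    rcases b with _ | ⟨y', b⟩
    · simp at hy
    simp only [List.head?_cons, Option.some.injEq] at hy
    subst hy
    simp only [List.length_cons] at hlen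
    -- the head of the next block
    have hcase : (∃ (h : j + 1 < n + 1) (r' : M.L), y' = LL.fst ⟨j + 1, h⟩ r' ∧ M.R r r') ∨
        (j = n ∧ ∃ l f, y' = LL.idle1 l f) := by
      rcases hx with ⟨rfl, hj⟩ | ⟨h, hj, rfl⟩
      · cases y' with
        | start r' => exact hR.elim
        | mid b r' => exact hR.elim
        | fst j' r' =>
          obtain ⟨h1, h2⟩ := hR
          left
          have := j'.isLt
          exact ⟨by omega, r', by congr; exact Fin.ext (by simp; omega), h2⟩
        | idle1 l f =>
          right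
          have : n = 0 := hR
          exact ⟨by omega, l, f, rfl⟩
        | idle2 l => exact hR.elim
      · cases y' with
        | start r' => exact hR.elim
        | mid b r' => exact hR.elim
        | fst j' r' =>
          obtain ⟨h1, h2⟩ := hR
          left
          have := j'.isLt
          simp only at h1
          exact ⟨by omega, r', by congr; exact Fin.ext (by simp; omega), h2⟩
        | idle1 l f =>
          right
          have : j = n := hR
          exact ⟨this, l, f, rfl⟩
        | idle2 l => exact hR.elim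
    rcases hcase with ⟨h, r', rfl, hRr⟩ | ⟨hj, l, f, rfl⟩
    · obtain ⟨C, l, f, d, h1, h2, h3, h4⟩ := ih (j + 1) r' (LL.fst ⟨j + 1, h⟩ r') b
        (Or.inr ⟨h, by omega, rfl⟩) (by omega) hch (fun b hb => hne b (List.mem_cons_of_mem _ hb))
      refine ⟨(LL.fst ⟨j + 1, h⟩ r' :: b) :: C, l, f, d, by rw [h1]; rfl, ?_, ?_, ?_⟩
      · rw [List.length_cons]; omega
      · intro e
        rw [List.map_cons, List.isChain_cons_cons]
        refine ⟨⟨r, r', rfl, rfl, hRr⟩, ?_⟩
        exact h3 (b.filterMap dec)
      · intro b' hb'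
        simp only [List.head?_cons, Option.some.injEq] at hb'
        subst hb'
        exact ⟨h, r', b, rfl⟩
    · have hB : B = [] := List.length_eq_zero_iff.mp (by omega)
      subst hB
      exact ⟨[], l, f, b, rfl, by simpa using hj, fun e => List.IsChain.singleton _, by simp⟩

theorem noD {c0 c : List (Option M.G) × QQ M.Q × List T} {μ : List (LL M.L M.Q n)}
    (h : USteps M n c0 μ c) : c0.2.1 ≠ QQ.D → c.2.1 ≠ QQ.D := by
  induction h with
  | refl c => exact id
  | step x δ v μ c h ih =>
    intro _
    apply ih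
    show upTgt M n x ≠ QQ.D
    cases x with
    | start r => simp [upTgt]
    | mid b r => simp [upTgt]
    | fst j r => simp [upTgt]
    | idle1 l f => cases l <;> simp [upTgt]
    | idle2 l => cases l <;> simp [upTgt]

theorem up_backward {w : List T} (hw : w ∈ Lang (up M n) (n + 1)) : w ∈ Lang M n := by
  rw [up_mem_iff] at hw
  obtain ⟨B, hlen, ⟨k, hk, hB⟩, ⟨c, x, B1, rfl, hx, hc⟩, hch, hst⟩ := hw
  obtain ⟨y, d, hd⟩ : ∃ y d, c ++ [x] = y :: d := by
    rcases c with _ | ⟨z, c⟩
    · exact ⟨x, [], rfl⟩
    · exact ⟨z, c ++ [x], rfl⟩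
  simp only [List.length_cons] at hlen
  have hk0 : (c ++ [x]).length = k := hB _ (by simp)
  have hB1 : ∀ b ∈ B1, b.length = k := fun b hb => hB b (List.mem_cons_of_mem _ hb)
  have hne : ∀ b ∈ B1, b ≠ [] := by
    intro b hb h
    have := hB1 b hb
    rw [h] at this
    simp at this
    omega
  rw [hd] at hst hch hk0
  rw [List.flatten_cons, List.cons_append] at hst
  generalize hc0 : (([none], QQ.S, w) : List (Option M.G) × QQ M.Q × List T) = c0 at hst
  cases hst with
  | step _ δ0 v _ _ hst =>
  simp only [Prod.mk.injEq, List.cons.injEq] at hc0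
  obtain ⟨⟨hy0, rfl⟩, hy1, rfl⟩ := hc0
  obtain ⟨r0, rfl, hq0, hz0⟩ : ∃ r0, y = LL.start r0 ∧ M.src r0 = M.q0 ∧ M.top r0 = M.Z0 := by
    cases y with
    | start r =>
      simp only [upSrc] at hy1
      split_ifs at hy1 with h
      exact ⟨r, rfl, h.1, h.2⟩
    | mid b r => simp [upSrc] at hy1
    | fst j r => simp [upSrc] at hy1
    | idle1 l f => simp only [upSrc] at hy1; split_ifs at hy1
    | idle2 l => simp [upSrc] at hy1
  obtain ⟨C, l, f, dd, rfl, hC, hch', hhead⟩ := back_chain B1 0 r0 (LL.start r0) d
    (Or.inl ⟨rfl, rfl⟩) (by omega) hch hne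
  rw [List.flatten_append, List.flatten_cons, List.flatten_nil, List.append_nil,
    ← List.append_assoc] at hst
  obtain ⟨c2, hst1, hst2⟩ := hst.split
  have hnoD := noD hst1 (by simp [upTgt])
  -- the configuration before the idle block
  obtain ⟨δ2, v2, hf, rfl, hv2⟩ : ∃ δ2 v2, f ∈ M.F ∧
      c2 = (none :: δ2, QQ.st (decide (0 < n)) f, v2) ∧ v2 = [] := by
    cases hst2 with
    | step _ δ2 v2 _ _ hst2 =>
      have hf : f ∈ M.F := by
        by_contra hf
        apply hnoD
        simp [upSrc, hf]
      refine ⟨δ2, v2, hf, by simp [upTop, upSrc, upRead, hf], ?_⟩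
      cases l with
      | true =>
        have := from_E hst2
        simp only [Prod.mk.injEq] at this
        exact this.2.2.symm
      | false =>
        have := (from_I hst2 rfl).2
        simpa using this.symm
  subst hv2
  have hlft : (upPush M n (LL.start r0) : List (Option M.G)) = lft (M.push r0) := by
    simp [upPush, lft]
  rw [hlft] at hst1
  obtain ⟨δ', hδ', hlen', hsteps, -⟩ := back_run hst1 (M.push r0) false (M.tgt r0) v _ _ rfl rfl
  have hδ0 : δ' = [] := by
    rcases δ' with _ | ⟨Z, δ'⟩
    · rfl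
    · simp [lft] at hδ'
  subst hδ0
  -- the configuration after block 0
  obtain ⟨c1, hst3, hst4⟩ := hst1.split
  obtain ⟨q1, hq1⟩ : ∃ q1, c1.2.1 = QQ.st false q1 := by
    rcases C with _ | ⟨b, C⟩
    · simp only [List.length_nil, Nat.add_zero] at hC
      subst hC
      cases hst4
      exact ⟨f, by simp⟩
    · obtain ⟨h, r', d', rfl⟩ := hhead b rfl
      rw [List.flatten_cons, List.cons_append] at hst4
      cases hst4 with
      | step _ δ3 v3 _ _ hst4 =>
        exact ⟨M.src r', by simp [upSrc]⟩
  obtain ⟨δ1, hδ1, hlen1, hsteps1, hmid⟩ := back_run hst3 (M.push r0) false (M.tgt r0) v _ _ rfl hq1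
  have hmid' := (hmid rfl).2
  rw [List.filterMap_length_eq_length] at hlen'
  refine ⟨(r0 :: d.filterMap dec) :: C.map (fun b => b.filterMap dec), f, ⟨?_, ⟨k, hk, ?_⟩, ?_,
    hch' _⟩, hf, ?_⟩
  · rw [List.length_cons, List.length_map]; omega
  · intro b hb
    rcases List.mem_cons.mp hb with rfl | hb
    · rw [List.length_cons, hlen1, ← hk0, List.length_cons]
    · obtain ⟨b', hb', rfl⟩ := List.mem_map.mp hb
      have h1 : (b'.filterMap dec).length = b'.length := by
        rw [List.filterMap_length_eq_length]
        intro z hz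
        apply hlen' z
        rw [List.mem_append]
        exact Or.inr (List.mem_flatten.mpr ⟨b', hb', hz⟩)
      rw [h1]
      exact hB1 b' (by simp [hb'])
  · rcases c with _ | ⟨z, c⟩
    · simp only [List.nil_append, List.cons.injEq] at hd
      obtain ⟨rfl, rfl⟩ := hd
      refine ⟨[], r0, _, rfl, ?_, by simp⟩
      simpa [upTgt] using hx
    · simp only [List.cons_append, List.cons.injEq] at hd
      obtain ⟨rfl, rfl⟩ := hd
      obtain ⟨rx, rfl⟩ := hmid' x (by simp)
      refine ⟨r0 :: c.filterMap dec, rx, C.map (fun b => b.filterMap dec), ?_, ?_, ?_⟩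
      · simp [List.filterMap_append, dec]
      · simpa [upTgt] using hx
      · intro z hz
        rcases List.mem_cons.mp hz with rfl | hz
        · have := hc (LL.start z) (by simp)
          simpa [upTgt] using this
        · obtain ⟨u, hu, hu'⟩ := List.mem_filterMap.mp hz
          obtain ⟨ru, rfl⟩ := hmid' u (by simp [hu])
          simp only [dec, Option.some.injEq] at hu'
          subst hu'
          have := hc (LL.mid false ru) (by simp [hu])
          simpa [upTgt] using this
  · rw [List.flatten_cons, List.cons_append]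
    have e : List.filterMap dec d ++ (List.map (fun b => List.filterMap dec b) C).flatten =
        (d ++ C.flatten).filterMap dec := by
      rw [List.filterMap_append, List.filterMap_flatten]
    rw [e, ← hq0, ← hz0]
    refine Steps.step r0 [] v _ _ ?_
    rw [List.append_nil]
    exact hsteps

theorem FSPDA_mono (n : ℕ) (T : Type) : FSPDA n T ⊆ FSPDA (n + 1) T := by
  rintro K ⟨M, rfl⟩
  refine ⟨up M n, ?_⟩
  ext w
  exact ⟨up_backward, up_forward⟩

end Pool.Agent.R576.Fspda
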