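import Mathlib
import Pool.Agent.R576.Fspda
import Pool.Agent.R576.FspdaNon

set_option autoImplicit false

namespace Pool.Agent.R576.Fspda.Wit

inductive Ph where
  | S | U | D

inductive Kd where
  | f | p0 | p1 | o0 | o1 | e0 | e1

inductive Gm where
  | Z | B | A

instance : Finite Ph := by
  let g : Ph → Fin 3 := fun x => match x with | .S => 0 | .U => 1 | .D => 2
  apply Finite.of_injective g
  intro x y h
  cases x <;> cases y <;> simp_all [g]

instance : Finite Gm := by
  let g : Gm → Fin 3 := fun x => match x with | .Z => 0 | .B => 1 | .A => 2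
  apply Finite.of_injective g
  intro x y h
  cases x <;> cases y <;> simp_all [g]

instance : Finite Kd := by
  let g : Kd → Fin 7 := fun x => match x with
    | .f => 0 | .p0 => 1 | .p1 => 2 | .o0 => 3 | .o1 => 4 | .e0 => 5 | .e1 => 6
  apply Finite.of_injective g
  intro x y h
  cases x <;> cases y <;> simp_all [g]

variable {N : ℕ}

abbrev Lb (N : ℕ) := Fin (N + 1) × Kd
abbrev St (N : ℕ) := Fin (N + 2) × Ph
abbrev Al (N : ℕ) := Fin (2 * N + 2)

def ev (j : Fin (N + 1)) : Al N := ⟨2 * j.val, by have := j.isLt; omega⟩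
def od (j : Fin (N + 1)) : Al N := ⟨2 * j.val + 1, by have := j.isLt; omega⟩

def nxt (j : Fin (N + 1)) : List Gm := if j.val = N then [] else [Gm.Z]

def wsrc (x : Lb N) : St N :=
  match x.2 with
  | .f => (x.1.castSucc, .S)
  | .p0 => (x.1.castSucc, .U)
  | .p1 => (x.1.castSucc, .U)
  | .o0 => (x.1.castSucc, .U)
  | .o1 => (x.1.castSucc, .D)
  | .e0 => (x.1.castSucc, .U)
  | .e1 => (x.1.castSucc, .D)

def wtop (x : Lb N) : Gm :=
  match x.2 with
  | .f => .Z
  | .p0 => .B
  | .p1 => .A
  | .o0 => .A
  | .o1 => .A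
  | .e0 => .B
  | .e1 => .B

def wread (x : Lb N) : List (Al N) :=
  match x.2 with
  | .f => [ev x.1]
  | .p0 => [ev x.1]
  | .p1 => [ev x.1]
  | .o0 => [od x.1]
  | .o1 => [od x.1]
  | .e0 => [od x.1]
  | .e1 => [od x.1]

def wpush (x : Lb N) : List Gm :=
  match x.2 with
  | .f => [.B]
  | .p0 => [.A, .B]
  | .p1 => [.A, .A]
  | .o0 => []
  | .o1 => []
  | .e0 => nxt x.1
  | .e1 => nxt x.1

def wtgt (x : Lb N) : St N :=
  match x.2 with
  | .f => (x.1.castSucc, .U)
  | .p0 => (x.1.castSucc, .U)
  | .p1 => (x.1.castSucc, .U)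
  | .o0 => (x.1.castSucc, .D)
  | .o1 => (x.1.castSucc, .D)
  | .e0 => (x.1.succ, .S)
  | .e1 => (x.1.succ, .S)

def wR (x y : Lb N) : Prop := x.2 = .f ∧ y.2 = .f ∧ y.1.val = x.1.val + 1

/-- the witness automaton -/
def wit (N : ℕ) : SPDA (Al N) where
  Q := St N
  G := Gm
  L := Lb N
  finQ := inferInstance
  finG := inferInstance
  finL := inferInstance
  src := wsrc
  top := wtop
  read := wread
  push := wpush
  tgt := wtgt
  q0 := (0, .S)
  qt := (1, .S)
  Z0 := .Z
  F := {(Fin.last (N + 1), .S)}
  R := wR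

abbrev Cf (N : ℕ) := List Gm × St N × List (Al N)

inductive WSteps : Cf N → List (Lb N) → Cf N → Prop
  | refl (c : Cf N) : WSteps c [] c
  | step (x : Lb N) (δ : List Gm) (v : List (Al N)) (μ : List (Lb N)) (c : Cf N) :
      WSteps (wpush x ++ δ, wtgt x, v) μ c → WSteps (wtop x :: δ, wsrc x, wread x ++ v) (x :: μ) c

theorem WSteps.toSteps {c c' : Cf N} {μ : List (Lb N)} (h : WSteps c μ c') :
    Steps (wit N) c μ c' := by
  induction h with
  | refl c => exact Steps.refl _
  | step x δ v μ c _ ih => exact Steps.step (M := wit N) x δ v μ c ih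

theorem WSteps.ofSteps {c c' : List (wit N).G × (wit N).Q × List (Al N)} {μ : List (wit N).L}
    (h : Steps (wit N) c μ c') : WSteps c μ c' := by
  induction h with
  | refl c => exact WSteps.refl _
  | step x δ v μ c _ ih => exact WSteps.step x δ v μ c ih

theorem WSteps.append {c c' c'' : Cf N} {μ ν : List (Lb N)} (h : WSteps c μ c')
    (h' : WSteps c' ν c'') : WSteps c (μ ++ ν) c'' := by
  induction h with
  | refl => exact h'
  | step x δ v μ c _ ih => exact WSteps.step _ _ _ _ _ (ih h')

def WRel (b b' : List (Lb N)) : Prop :=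
  ∃ r r', b.head? = some r ∧ b'.head? = some r' ∧ wR r r'

theorem mem_iff (w : List (Al N)) : w ∈ Lang (wit N) N ↔
    ∃ B : List (List (Lb N)), B.length = N + 1 ∧ (∃ k, 1 ≤ k ∧ ∀ b ∈ B, b.length = k) ∧
      (∃ c x B', B = (c ++ [x]) :: B' ∧ wtgt x = (1, .S) ∧ ∀ y ∈ c, wtgt y ≠ (1, .S)) ∧
      B.IsChain WRel ∧ WSteps ([.Z], (0, .S), w) B.flatten ([], (Fin.last (N + 1), .S), []) := by
  constructor
  · rintro ⟨B, f, ⟨h1, h2, h3, h4⟩, hf, hst⟩
    have hf' : f = (Fin.last (N + 1), .S) := hf
    subst hf'
    exact ⟨B, h1, h2, h3, h4, WSteps.ofSteps hst⟩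
  · rintro ⟨B, h1, h2, h3, h4, hst⟩
    exact ⟨B, (Fin.last (N + 1), .S), ⟨h1, h2, h3, h4⟩, rfl, WSteps.toSteps hst⟩

abbrev fin (N : ℕ) : Cf N := ([], (Fin.last (N + 1), .S), [])

/-- the stack `A^i B` -/
def stk (i : ℕ) : List Gm := List.replicate i Gm.A ++ [Gm.B]

theorem stk_succ (i : ℕ) : stk (i + 1) = Gm.A :: stk i := by
  simp [stk, List.replicate_succ]

theorem stk_zero : stk 0 = [Gm.B] := rfl

/-- what is left of a run after block `j` -/
def Rest (j : Fin (N + 1)) (v : List (Al N)) (μ : List (Lb N)) : Prop :=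
  WSteps (nxt j, (j.succ, .S), v) μ (fin N)

theorem D_phase (j : Fin (N + 1)) (i : ℕ) : ∀ (v : List (Al N)) (μ : List (Lb N)),
    WSteps (stk i, (j.castSucc, .D), v) μ (fin N) →
    ∃ (O : List (Lb N)) (μ' : List (Lb N)) (v' : List (Al N)), μ = O ++ (j, Kd.e1) :: μ' ∧
      O.length = i ∧ (∀ x ∈ O, x = (j, Kd.o1)) ∧
      v = List.replicate (i + 1) (od j) ++ v' ∧ Rest j v' μ' := by
  induction i with
  | zero =>
    intro v μ h
    generalize hc : ((stk 0, (j.castSucc, Ph.D), v) : Cf N) = c at h
    cases h with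
    | refl => simp [stk, fin] at hc
    | step x δ v' μ _ h =>
      obtain ⟨j', k⟩ := x
      simp only [Prod.mk.injEq] at hc
      obtain ⟨h1, h2, h3⟩ := hc
      cases k <;> simp only [wsrc, wtop, stk_zero, Prod.mk.injEq, List.cons.injEq, reduceCtorEq,
        and_false, false_and] at h1 h2
      obtain ⟨_, rfl⟩ := h1
      have hj : j = j' := Fin.castSucc_injective _ h2.1
      subst hj
      refine ⟨[], μ, v', rfl, rfl, by simp, ?_, ?_⟩
      · rw [h3]; simp [wread]
      · simpa [Rest, wpush, wtgt] using h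
  | succ i ih =>
    intro v μ h
    generalize hc : ((stk (i + 1), (j.castSucc, Ph.D), v) : Cf N) = c at h
    cases h with
    | refl => simp [stk, fin] at hc
    | step x δ v' μ _ h =>
      obtain ⟨j', k⟩ := x
      simp only [Prod.mk.injEq] at hc
      obtain ⟨h1, h2, h3⟩ := hc
      cases k <;> simp only [wsrc, wtop, stk_succ, Prod.mk.injEq, List.cons.injEq, reduceCtorEq,
        and_false, false_and] at h1 h2
      obtain ⟨_, rfl⟩ := h1
      have hj : j = j' := Fin.castSucc_injective _ h2.1
      subst hj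
      obtain ⟨O, μ', v'', rfl, h4, h5, h6, h7⟩ := ih v' μ h
      refine ⟨(j, Kd.o1) :: O, μ', v'', rfl, by simp [h4], ?_, ?_, h7⟩
      · intro y hy
        rcases List.mem_cons.mp hy with rfl | hy
        · rfl
        · exact h5 y hy
      · rw [h3, h6]
        simp [wread, List.replicate_succ]

theorem U_phase (j : Fin (N + 1)) : ∀ (n : ℕ) (i : ℕ) (v : List (Al N)) (μ : List (Lb N)),
    μ.length ≤ n → WSteps (stk i, (j.castSucc, .U), v) μ (fin N) →
    ∃ (P O : List (Lb N)) (e : Lb N) (μ' : List (Lb N)) (v' : List (Al N)),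
      μ = P ++ (O ++ e :: μ') ∧ O.length = P.length + i ∧
      (∀ x ∈ P, x.1 = j ∧ x.2 ≠ Kd.f) ∧ (∀ x ∈ O, x.1 = j ∧ x.2 ≠ Kd.f) ∧
      (e.1 = j ∧ e.2 ≠ Kd.f) ∧
      v = List.replicate P.length (ev j) ++ (List.replicate (P.length + i + 1) (od j) ++ v') ∧
      Rest j v' μ' := by
  intro n
  induction n with
  | zero =>
    intro i v μ hμ h
    have : μ = [] := List.length_eq_zero_iff.mp (by omega)
    subst this
    generalize hc : ((stk i, (j.castSucc, Ph.U), v) : Cf N) = c at h
    cases h
    simp [stk, fin] at hc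
  | succ n ih =>
    intro i v μ hμ h
    generalize hc : ((stk i, (j.castSucc, Ph.U), v) : Cf N) = c at h
    cases h with
    | refl => simp [stk, fin] at hc
    | step x δ v' μ _ h =>
      obtain ⟨j', k⟩ := x
      simp only [Prod.mk.injEq] at hc
      obtain ⟨h1, h2, h3⟩ := hc
      simp only [List.length_cons] at hμ
      rcases i with _ | i
      · cases k <;> simp only [wsrc, wtop, stk_zero, Prod.mk.injEq, List.cons.injEq, reduceCtorEq,
          and_false, false_and] at h1 h2
        · -- p0
          obtain ⟨_, rfl⟩ := h1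
          have hj : j = j' := Fin.castSucc_injective _ h2.1
          subst hj
          obtain ⟨P, O, e, μ', v'', rfl, h4, h5, h6, h7, h8, h9⟩ := ih 1 v' μ (by omega) h
          refine ⟨(j, Kd.p0) :: P, O, e, μ', v'', rfl, by simp [h4], ?_, h6, h7, ?_, h9⟩
          · intro y hy
            rcases List.mem_cons.mp hy with rfl | hy
            · exact ⟨rfl, by simp⟩
            · exact h5 y hy
          · rw [h3, h8]
            simp [wread, List.replicate_succ]
        · -- e0
          obtain ⟨_, rfl⟩ := h1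
          have hj : j = j' := Fin.castSucc_injective _ h2.1
          subst hj
          refine ⟨[], [], (j, Kd.e0), μ, v', rfl, rfl, by simp, by simp, ⟨rfl, by simp⟩, ?_, ?_⟩
          · rw [h3]; simp [wread]
          · simpa [Rest, wpush, wtgt] using h
      · cases k <;> simp only [wsrc, wtop, stk_succ, Prod.mk.injEq, List.cons.injEq, reduceCtorEq,
          and_false, false_and] at h1 h2
        · -- p1
          obtain ⟨_, rfl⟩ := h1
          have hj : j = j' := Fin.castSucc_injective _ h2.1
          subst hj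
          have h' : WSteps (stk (i + 1 + 1), (j.castSucc, .U), v') μ (fin N) := by
            rw [stk_succ, stk_succ]
            exact h
          obtain ⟨P, O, e, μ', v'', rfl, h4, h5, h6, h7, h8, h9⟩ := ih (i + 1 + 1) v' μ (by omega) h'
          refine ⟨(j, Kd.p1) :: P, O, e, μ', v'', rfl, by simp only [List.length_cons]; omega, ?_,
            h6, h7, ?_, h9⟩
          · intro y hy
            rcases List.mem_cons.mp hy with rfl | hy
            · exact ⟨rfl, by simp⟩
            · exact h5 y hy
          · rw [h3, h8]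
            have e1 : ((j, Kd.p1) :: P).length + (i + 1) + 1 = P.length + (i + 1 + 1) + 1 := by
              simp only [List.length_cons]; omega
            rw [e1]
            simp [wread, List.replicate_succ]
        · -- o0
          obtain ⟨_, rfl⟩ := h1
          have hj : j = j' := Fin.castSucc_injective _ h2.1
          subst hj
          obtain ⟨O, μ', v'', rfl, h4, h5, h6, h7⟩ := D_phase j i v' μ h
          refine ⟨[], (j, Kd.o0) :: O, (j, Kd.e1), μ', v'', rfl, by simp [h4], by simp, ?_,
            ⟨rfl, by simp⟩, ?_, h7⟩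
          · intro y hy
            rcases List.mem_cons.mp hy with rfl | hy
            · exact ⟨rfl, by simp⟩
            · rw [h5 y hy]
              exact ⟨rfl, by simp⟩
          · rw [h3, h6]
            simp [wread, List.replicate_succ]

/-- the natural blocks -/
def NatBlock (j : Fin (N + 1)) (a : ℕ) (b : List (Lb N)) : Prop :=
  ∃ t, b = (j, Kd.f) :: t ∧ t.length = 2 * a + 1 ∧ ∀ x ∈ t, x.1 = j ∧ x.2 ≠ Kd.f

theorem S_phase (j : Fin (N + 1)) (v : List (Al N)) (μ : List (Lb N))
    (h : WSteps ([.Z], (j.castSucc, .S), v) μ (fin N)) :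
    ∃ (b : List (Lb N)) (a : ℕ) (μ' : List (Lb N)) (v' : List (Al N)), μ = b ++ μ' ∧
      NatBlock j a b ∧ v = List.replicate (a + 1) (ev j) ++ (List.replicate (a + 1) (od j) ++ v') ∧
      Rest j v' μ' := by
  generalize hc : (([.Z], (j.castSucc, Ph.S), v) : Cf N) = c at h
  cases h with
  | refl => simp [fin] at hc
  | step x δ v' μ _ h =>
    obtain ⟨j', k⟩ := x
    simp only [Prod.mk.injEq] at hc
    obtain ⟨h1, h2, h3⟩ := hc
    cases k <;> simp only [wsrc, wtop, Prod.mk.injEq, List.cons.injEq, reduceCtorEq,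
      and_false, false_and] at h1 h2
    obtain ⟨_, rfl⟩ := h1
    have hj : j = j' := Fin.castSucc_injective _ h2.1
    subst hj
    obtain ⟨P, O, e, μ', v'', rfl, h4, h5, h6, h7, h8, h9⟩ := U_phase j μ.length 0 v' μ le_rfl h
    refine ⟨(j, Kd.f) :: (P ++ (O ++ [e])), P.length, μ', v'', by simp, ⟨_, rfl, ?_, ?_⟩, ?_, h9⟩
    · simp only [List.length_append, List.length_singleton]; omega
    · intro x hx
      simp only [List.mem_append, List.mem_singleton] at hx
      rcases hx with hx | hx | rfl
      · exact h5 x hx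
      · exact h6 x hx
      · exact h7
    · rw [h3, h8]
      simp [wread, List.replicate_succ]

/-- a list of natural blocks starting with block `j` -/
inductive Nat' : ℕ → List (List (Lb N)) → List ℕ → Prop
  | nil (j : ℕ) : Nat' j [] []
  | cons (i : ℕ) (j : Fin (N + 1)) (a : ℕ) (b : List (Lb N)) (NB : List (List (Lb N)))
      (as : List ℕ) : i = j.val → NatBlock j a b → Nat' (i + 1) NB as → Nat' i (b :: NB) (a :: as)

/-- the word read by natural blocks -/
def wr : ℕ → List ℕ → List (Al N)
  | _, [] => []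
  | j, a :: as => List.replicate (a + 1) ⟨(2 * j) % (2 * N + 2), Nat.mod_lt _ (by omega)⟩ ++
      (List.replicate (a + 1) ⟨(2 * j + 1) % (2 * N + 2), Nat.mod_lt _ (by omega)⟩ ++ wr (j + 1) as)

theorem from_empty {q : St N} {v : List (Al N)} {μ : List (Lb N)} {c : Cf N}
    (h : WSteps ([], q, v) μ c) : μ = [] ∧ c = ([], q, v) := by
  generalize hc : (([], q, v) : Cf N) = c0 at h
  cases h with
  | refl => exact ⟨rfl, rfl⟩
  | step x δ v' μ _ h => simp at hc

theorem all_blocks (t : ℕ) : ∀ (j : Fin (N + 1)) (v : List (Al N)) (μ : List (Lb N)),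
    j.val + t = N → WSteps ([.Z], (j.castSucc, .S), v) μ (fin N) →
    ∃ NB as, Nat' (N := N) j.val NB as ∧ μ = NB.flatten ∧ NB.length = t + 1 ∧ v = wr j.val as := by
  induction t with
  | zero =>
    intro j v μ hj h
    obtain ⟨b, a, μ', v', rfl, hb, hv, hr⟩ := S_phase j v μ h
    have hN : nxt j = [] := by simp [nxt]; omega
    unfold Rest at hr
    rw [hN] at hr
    obtain ⟨rfl, hc⟩ := from_empty hr
    simp only [fin, Prod.mk.injEq] at hc
    have hv' : v' = [] := hc.2.2.symm
    subst hv'
    refine ⟨[b], [a], Nat'.cons _ j a b [] [] rfl hb (Nat'.nil _), by simp, rfl, ?_⟩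
    have e1 : (2 * j.val) % (2 * N + 2) = 2 * j.val := Nat.mod_eq_of_lt (by omega)
    have e2 : (2 * j.val + 1) % (2 * N + 2) = 2 * j.val + 1 := Nat.mod_eq_of_lt (by omega)
    rw [hv]
    simp only [wr, e1, e2]
    rfl
  | succ t ih =>
    intro j v μ hj h
    obtain ⟨b, a, μ', v', rfl, hb, hv, hr⟩ := S_phase j v μ h
    have hN : nxt j = [.Z] := by simp [nxt]; omega
    unfold Rest at hr
    rw [hN] at hr
    have hlt : j.val + 1 < N + 1 := by omega
    obtain ⟨NB, as, h1, rfl, h2, h3⟩ := ih ⟨j.val + 1, hlt⟩ v' μ' (by simp; omega) hr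
    refine ⟨b :: NB, a :: as, Nat'.cons _ j a b NB as rfl hb h1, by simp, by simp [h2], ?_⟩
    have e1 : (2 * j.val) % (2 * N + 2) = 2 * j.val := Nat.mod_eq_of_lt (by omega)
    have e2 : (2 * j.val + 1) % (2 * N + 2) = 2 * j.val + 1 := Nat.mod_eq_of_lt (by omega)
    rw [hv, h3]
    simp only [wr, e1, e2]
    rfl

theorem Nat'.idx {j : ℕ} {NB : List (List (Lb N))} {as : List ℕ} (h : Nat' j NB as) :
    ∀ x ∈ NB.flatten, j ≤ x.1.val := by
  induction h with
  | nil j => simp
  | cons i j a b NB as hij hb _ ih =>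
    intro x hx
    rw [List.flatten_cons, List.mem_append] at hx
    rcases hx with hx | hx
    · obtain ⟨t, rfl, _, ht⟩ := hb
      rcases List.mem_cons.mp hx with rfl | hx
      · exact hij.le
      · rw [(ht x hx).1]
        exact hij.le
    · have := ih x hx
      omega

theorem match_blocks (k : ℕ) {j : ℕ} {NB : List (List (Lb N))} {as : List ℕ}
    (h : Nat' j NB as) : ∀ B : List (List (Lb N)), B.length = NB.length → (∀ b ∈ B, b.length = k) →
      B.flatten = NB.flatten → B.IsChain WRel → ∀ a ∈ as, 2 * a + 2 = k := by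
  induction h with
  | nil j => intro B _ _ _ _ a ha; simp at ha
  | cons i j a b NB as hij hb hNB ih =>
    intro B hlen hB hfl hch
    rcases B with _ | ⟨b0, B⟩
    · simp at hlen
    obtain ⟨t, rfl, ht, htm⟩ := hb
    have hb0 : b0.length = k := hB b0 (by simp)
    have hBk : ∀ b ∈ B, b.length = k := fun b hb => hB b (List.mem_cons_of_mem _ hb)
    simp only [List.length_cons] at hlen
    rw [List.flatten_cons, List.flatten_cons] at hfl
    cases hNB with
    | nil =>
      have hB0 : B = [] := List.length_eq_zero_iff.mp (by simpa using hlen)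
      subst hB0
      simp only [List.flatten_nil, List.append_nil] at hfl
      intro a' ha'
      simp only [List.mem_singleton] at ha'
      subst ha'
      rw [hfl, List.length_cons, ht] at hb0
      omega
    | cons _ j' a' b' NB' as' hjj hb' hNB' =>
      rcases B with _ | ⟨b1, B⟩
      · simp at hlen
      rw [List.isChain_cons_cons] at hch
      obtain ⟨⟨r, r', hr, hr', hR1, hR2, hR3⟩, hch⟩ := hch
      -- heads
      rcases b0 with _ | ⟨x0, t0⟩
      · simp at hr
      rcases b1 with _ | ⟨x1, t1⟩
      · simp at hr'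
      simp only [List.head?_cons, Option.some.injEq] at hr hr'
      subst hr
      subst hr'
      obtain ⟨t', rfl, ht', htm'⟩ := hb'
      have hx0 : x0 = (j, Kd.f) := by
        simp only [List.cons_append, List.cons.injEq] at hfl
        exact hfl.1
      have hx1 : x1 = (j', Kd.f) := by
        obtain ⟨i1, k1⟩ := x1
        simp only at hR2 hR3
        subst hR2
        rw [hx0] at hR3
        simp only at hR3
        have : i1 = j' := Fin.ext (by omega)
        rw [this]
      subst hx0
      subst hx1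
      -- the block b0 is the natural block
      have hnj : j'.val = j.val + 1 := by omega
      have key : (j, Kd.f) :: t0 = (j, Kd.f) :: t ∧
          ((j', Kd.f) :: t1) ++ B.flatten = ((j', Kd.f) :: t') ++ NB'.flatten := by
        simp only [List.flatten_cons, List.cons_append, List.cons.injEq, true_and] at hfl ⊢
        -- t0 ++ (j',f) :: .. = t ++ (j',f) :: ..
        have hnt : (j', Kd.f) ∉ t := fun h => (htm _ h).2 rfl
        have hnr : (j', Kd.f) ∉ t' ++ NB'.flatten := by
          intro h
          rcases List.mem_append.mp h with h | h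
          · exact (htm' _ h).2 rfl
          · have := hNB'.idx _ h
            simp only at this
            omega
        rcases List.append_eq_append_iff.mp hfl with ⟨s, hs1, hs2⟩ | ⟨s, hs1, hs2⟩
        · -- t = t0 ++ s
          rcases s with _ | ⟨y, s⟩
          · simp only [List.append_nil] at hs1
            simp only [List.nil_append, List.cons.injEq, true_and] at hs2
            exact ⟨hs1.symm, hs2⟩
          · exfalso
            simp only [List.cons_append, List.cons.injEq] at hs2
            apply hnt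
            rw [hs1, ← hs2.1]
            simp
        · -- t0 = t ++ s
          rcases s with _ | ⟨y, s⟩
          · simp only [List.append_nil] at hs1
            simp only [List.nil_append, List.cons.injEq, true_and] at hs2
            exact ⟨hs1, hs2.symm⟩
          · exfalso
            simp only [List.cons_append, List.cons.injEq] at hs2
            apply hnr
            rw [hs2.2]
            simp
      obtain ⟨key1, key2⟩ := key
      have ih' := ih (((j', Kd.f) :: t1) :: B) (by simpa using hlen) hBk (by simpa using key2) hch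
      intro a2 ha2
      rcases List.mem_cons.mp ha2 with rfl | ha2
      · rw [key1, List.length_cons, ht] at hb0
        omega
      · exact ih' a2 ha2

theorem Nat'.len {j : ℕ} {NB : List (List (Lb N))} {as : List ℕ} (h : Nat' j NB as) :
    NB.length = as.length := by
  induction h with
  | nil => rfl
  | cons i j a b NB as _ _ _ ih => simp [ih]

theorem wr_word_aux (a t : ℕ) : ∀ j, j + t = N + 1 →
    (wr (N := N) j (List.replicate t a)).map Fin.val =
      (List.range' (2 * j) (2 * t)).flatMap (fun i => List.replicate (a + 1) i) := by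
  induction t with
  | zero => intro j _; simp [wr]
  | succ t ih =>
    intro j hj
    have e1 : (2 * j) % (2 * N + 2) = 2 * j := Nat.mod_eq_of_lt (by omega)
    have e2 : (2 * j + 1) % (2 * N + 2) = 2 * j + 1 := Nat.mod_eq_of_lt (by omega)
    have e3 : 2 * (t + 1) = 2 * t + 1 + 1 := by ring
    rw [List.replicate_succ, wr, e3, List.range'_succ, List.range'_succ]
    simp only [List.map_append, List.map_replicate, e1, e2, List.flatMap_cons]
    rw [ih (j + 1) (by omega)]
    rfl

theorem wr_word (a : ℕ) : wr (N := N) 0 (List.replicate (N + 1) a) = word (2 * N + 2) (a + 1) := by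
  apply (List.map_injective_iff.mpr Fin.val_injective)
  rw [wr_word_aux a (N + 1) 0 (by omega)]
  unfold word
  rw [List.map_flatMap]
  have h1 : (List.finRange (2 * N + 2)).map Fin.val = List.range (2 * N + 2) := by simp
  have h2 : List.range' (2 * 0) (2 * (N + 1)) = (List.finRange (2 * N + 2)).map Fin.val := by
    rw [h1, List.range_eq_range']
    rfl
  rw [h2, List.flatMap_map]
  congr 1
  funext i
  simp

theorem lang_sub {w : List (Al N)} (h : w ∈ Lang (wit N) N) : w ∈ Lr (2 * N + 2) := by
  rw [mem_iff] at h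
  obtain ⟨B, hB, ⟨k, hk, hBk⟩, _, hch, hst⟩ := h
  obtain ⟨NB, as, h1, h2, h3, h4⟩ := all_blocks N (0 : Fin (N + 1)) w B.flatten (by simp) hst
  have h5 := match_blocks k h1 B (by rw [hB, h3]) hBk h2 hch
  have h6 : as.length = N + 1 := by rw [← h1.len, h3]
  have h7 : as = List.replicate (N + 1) ((k - 2) / 2) := by
    rw [List.eq_replicate_iff]
    refine ⟨h6, fun a ha => ?_⟩
    have := h5 a ha
    omega
  refine ⟨(k - 2) / 2 + 1, by omega, ?_⟩
  rw [h4, h7]
  exact wr_word _

/-! ### the converse -/

def nbi (j : Fin (N + 1)) : ℕ → List (Lb N)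
  | 0 => [(j, .f)]
  | a + 1 => (j, .f) :: (j, .p0) ::
      (List.replicate a (j, .p1) ++ (j, .o0) :: List.replicate a (j, .o1))

def nbe (j : Fin (N + 1)) : ℕ → Lb N
  | 0 => (j, .e0)
  | _ + 1 => (j, .e1)

def nb (j : Fin (N + 1)) (a : ℕ) : List (Lb N) := nbi j a ++ [nbe j a]

theorem nb_length (j : Fin (N + 1)) (a : ℕ) : (nb j a).length = 2 * a + 2 := by
  cases a with
  | zero => rfl
  | succ a => simp [nb, nbi]; omega

theorem nb_head (j : Fin (N + 1)) (a : ℕ) : (nb j a).head? = some (j, .f) := by
  cases a with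
  | zero => rfl
  | succ a => rfl

theorem step' (x : Lb N) (q : St N) (δ : List Gm) (v : List (Al N)) (μ : List (Lb N)) (c : Cf N)
    (st : List Gm) (u : List (Al N)) (h1 : st = wtop x :: δ) (h2 : q = wsrc x)
    (h3 : u = wread x ++ v)
    (h : WSteps (wpush x ++ δ, wtgt x, v) μ c) : WSteps (st, q, u) (x :: μ) c := by
  subst h1 h2 h3
  exact WSteps.step x δ v μ c h

theorem D_run (j : Fin (N + 1)) (v : List (Al N)) (i : ℕ) :
    WSteps (stk i, (j.castSucc, .D), List.replicate (i + 1) (od j) ++ v)
      (List.replicate i (j, .o1) ++ [(j, .e1)]) (nxt j, (j.succ, .S), v) := by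
  induction i with
  | zero =>
    apply step' (j, .e1) _ [] v [] _ _ _ rfl rfl rfl
    simpa [wpush, wtgt] using WSteps.refl _
  | succ i ih =>
    rw [List.replicate_succ, List.replicate_succ]
    apply step' (j, .o1) _ (stk i) _ _ _ _ _ (stk_succ i) rfl rfl
    exact ih

theorem U_run (j : Fin (N + 1)) (v : List (Al N)) (p : ℕ) : ∀ i,
    WSteps (stk (i + 1), (j.castSucc, .U), List.replicate p (ev j) ++ v)
      (List.replicate p (j, .p1)) (stk (i + 1 + p), (j.castSucc, .U), v) := by
  induction p with
  | zero => intro i; exact WSteps.refl _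
  | succ p ih =>
    intro i
    rw [List.replicate_succ, List.replicate_succ]
    apply step' (j, .p1) _ (stk i) _ _ _ _ _ (stk_succ i) rfl rfl
    have := ih (i + 1)
    rw [stk_succ, stk_succ] at this
    have e : i + 1 + (p + 1) = i + 1 + 1 + p := by ring
    rw [e]
    exact this

theorem nb_run (j : Fin (N + 1)) (a : ℕ) (v : List (Al N)) :
    WSteps ([.Z], (j.castSucc, .S),
      List.replicate (a + 1) (ev j) ++ (List.replicate (a + 1) (od j) ++ v)) (nb j a)
      (nxt j, (j.succ, .S), v) := by
  cases a with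
  | zero =>
    apply step' (j, .f) _ [] _ _ _ _ _ rfl rfl rfl
    apply step' (j, .e0) _ [] _ _ _ _ _ rfl rfl rfl
    simpa [wpush, wtgt] using WSteps.refl _
  | succ a =>
    have hnb : nb j (a + 1) = (j, Kd.f) :: (j, Kd.p0) :: (List.replicate a (j, Kd.p1) ++
        ((j, Kd.o0) :: (List.replicate a (j, Kd.o1) ++ [(j, Kd.e1)]))) := by
      simp [nb, nbi, nbe]
    rw [hnb]
    rw [List.replicate_succ, List.replicate_succ]
    apply step' (j, .f) _ [] _ _ _ _ _ rfl rfl rfl
    apply step' (j, .p0) _ [] _ _ _ _ _ rfl rfl rfl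
    have hU := U_run j (List.replicate (a + 1 + 1) (od j) ++ v) a 0
    refine WSteps.append hU ?_
    have e1 : 0 + 1 + a = a + 1 := by ring
    rw [e1, List.replicate_succ]
    apply step' (j, .o0) _ (stk a) _ _ _ _ _ (stk_succ a) rfl rfl
    exact D_run j v a

def nbs (a : ℕ) : ℕ → ℕ → List (List (Lb N))
  | _, 0 => []
  | j, t + 1 => nb ⟨j % (N + 1), Nat.mod_lt _ (by omega)⟩ a :: nbs a (j + 1) t

theorem nbs_length (a t : ℕ) : ∀ j, (nbs (N := N) a j t).length = t := by
  induction t with
  | zero => intro j; rfl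
  | succ t ih => intro j; simp [nbs, ih]

theorem nbs_all (a t : ℕ) : ∀ j, ∀ b ∈ nbs (N := N) a j t, b.length = 2 * a + 2 := by
  induction t with
  | zero => intro j b hb; simp [nbs] at hb
  | succ t ih =>
    intro j b hb
    rw [nbs, List.mem_cons] at hb
    rcases hb with rfl | hb
    · exact nb_length _ _
    · exact ih _ _ hb

theorem nbs_chain (a t : ℕ) : ∀ j, j + t = N + 1 → (nbs (N := N) a j t).IsChain WRel := by
  induction t with
  | zero => intro j _; simp [nbs]
  | succ t ih =>
    intro j hj
    have h := ih (j + 1) (by omega)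
    rcases t with _ | t
    · simp [nbs]
    · rw [nbs, nbs] at *
      rw [List.isChain_cons_cons]
      refine ⟨⟨_, _, nb_head _ _, nb_head _ _, rfl, rfl, ?_⟩, h⟩
      simp only
      rw [Nat.mod_eq_of_lt (by omega), Nat.mod_eq_of_lt (by omega)]

theorem nbs_run (a t : ℕ) : ∀ (j : Fin (N + 1)), j.val + t = N →
    WSteps ([.Z], (j.castSucc, .S), wr j.val (List.replicate (t + 1) a))
      (nbs a j.val (t + 1)).flatten (fin N) := by
  induction t with
  | zero =>
    intro j hj
    have hN : nxt j = [] := by simp [nxt]; omega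
    have h := nb_run j a []
    rw [hN] at h
    have e0 : (⟨j.val % (N + 1), Nat.mod_lt _ (by omega)⟩ : Fin (N + 1)) = j :=
      Fin.ext (Nat.mod_eq_of_lt j.isLt)
    have e1 : (2 * j.val) % (2 * N + 2) = 2 * j.val := Nat.mod_eq_of_lt (by omega)
    have e2 : (2 * j.val + 1) % (2 * N + 2) = 2 * j.val + 1 := Nat.mod_eq_of_lt (by omega)
    have e3 : j.succ = Fin.last (N + 1) := Fin.ext (by simp; omega)
    rw [e3] at h
    have e4 : wr j.val (List.replicate (0 + 1) a) =
        List.replicate (a + 1) (ev j) ++ (List.replicate (a + 1) (od j) ++ []) := by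
      rw [List.replicate_succ, List.replicate_zero, wr]
      simp only [e1, e2]
      rfl
    have e5 : (nbs a j.val (0 + 1)).flatten = nb j a := by
      rw [nbs, e0]
      simp [nbs]
    rw [e4, e5]
    exact h
  | succ t ih =>
    intro j hj
    have hN : nxt j = [.Z] := by simp [nxt]; omega
    have hlt : j.val + 1 < N + 1 := by omega
    have h' := ih ⟨j.val + 1, hlt⟩ (by simp; omega)
    have h := nb_run j a (wr (j.val + 1) (List.replicate (t + 1) a))
    rw [hN] at h
    have e0 : (⟨j.val % (N + 1), Nat.mod_lt _ (by omega)⟩ : Fin (N + 1)) = j :=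
      Fin.ext (Nat.mod_eq_of_lt j.isLt)
    have e1 : (2 * j.val) % (2 * N + 2) = 2 * j.val := Nat.mod_eq_of_lt (by omega)
    have e2 : (2 * j.val + 1) % (2 * N + 2) = 2 * j.val + 1 := Nat.mod_eq_of_lt (by omega)
    rw [nbs, e0, List.flatten_cons]
    rw [List.replicate_succ, wr]
    simp only [e1, e2]
    exact WSteps.append h h'

theorem sub_lang {w : List (Al N)} (h : w ∈ Lr (2 * N + 2)) : w ∈ Lang (wit N) N := by
  obtain ⟨m, hm, rfl⟩ := h
  obtain ⟨a, rfl⟩ : ∃ a, m = a + 1 := ⟨m - 1, by omega⟩
  rw [mem_iff]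
  refine ⟨nbs a 0 (N + 1), nbs_length _ _ _, ⟨2 * a + 2, by omega, nbs_all _ _ _⟩, ?_,
    nbs_chain _ _ _ (by omega), ?_⟩
  · have e0 : (⟨0 % (N + 1), Nat.mod_lt _ (by omega)⟩ : Fin (N + 1)) = 0 :=
      Fin.ext (by simp)
    refine ⟨nbi 0 a, nbe 0 a, nbs a (0 + 1) N, by rw [nbs, e0]; rfl, ?_, ?_⟩
    · cases a <;> rfl
    · intro y hy
      have hy1 : y.1 = 0 ∧ y.2 ≠ Kd.e0 ∧ y.2 ≠ Kd.e1 := by
        cases a with
        | zero =>
          simp only [nbi, List.mem_singleton] at hy
          subst hy
          simp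
        | succ a =>
          simp only [nbi, List.mem_cons, List.mem_append] at hy
          rcases hy with rfl | rfl | hy | rfl | hy
          · simp
          · simp
          · rw [List.eq_of_mem_replicate hy]; simp
          · simp
          · rw [List.eq_of_mem_replicate hy]; simp
      obtain ⟨i, k⟩ := y
      obtain ⟨h1, h2, h3⟩ := hy1
      simp only at h1 h2 h3
      subst h1
      cases k <;> simp_all [wtgt]
  · have := nbs_run a N (0 : Fin (N + 1)) (by simp)
    have hw := wr_word (N := N) a
    simp only [Fin.val_zero] at this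
    rw [hw] at this
    exact this

theorem mem_FSPDA (N : ℕ) : Lr (2 * N + 2) ∈ FSPDA N (Fin (2 * N + 2)) :=
  ⟨wit N, Set.ext fun _ => ⟨lang_sub, sub_lang⟩⟩

end Pool.Agent.R576.Fspda.Wit
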