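import Mathlib
import Pool.Agent.H548.LU.Defs

/-! Project LU, part D: random bits for the host. -/

namespace Pool.Agent.R576.LUD

open Finset Classical
open Pool.Agent.H548.LU

noncomputable section

lemma two_pow_le (n : ℕ) (x : ℝ) (hx : 0 ≤ x) (h : (n : ℝ) ≤ x + 1) :
    (2 : ℝ) ^ n ≤ 2 * Real.exp (7 / 10 * x) := by
  have h2 : (2 : ℝ) = Real.exp (Real.log 2) := (Real.exp_log (by norm_num)).symm
  have hl : Real.log 2 ≤ 7 / 10 := by
    have := Real.log_two_lt_d9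
    linarith
  have hl0 : 0 ≤ Real.log 2 := Real.log_nonneg (by norm_num)
  have h1 : (2 : ℝ) ^ n = Real.exp ((n : ℝ) * Real.log 2) := by
    rw [Real.exp_nat_mul, ← h2]
  have h3 : 2 * Real.exp (7 / 10 * x) = Real.exp (Real.log 2 + 7 / 10 * x) := by
    rw [Real.exp_add, ← h2]
  rw [h1, h3]
  apply Real.exp_le_exp.mpr
  nlinarith

lemma pow_le_exp (c : ℝ) (h0 : c ≤ 1) (n : ℕ) : (1 - c) ^ n ≤ Real.exp (-(c * n)) := by
  have h1 : (1 - c) ^ n ≤ (Real.exp (-c)) ^ n :=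
    pow_le_pow_left₀ (by linarith) (Real.one_sub_le_exp_neg c) n
  have h2 : (Real.exp (-c)) ^ n = Real.exp (-(c * n)) := by
    rw [← Real.exp_nat_mul]
    congr 1
    ring
  rwa [h2] at h1

lemma sumPairs (V : Type) [Fintype V] (F : Finset (Finset V × Finset V)) (y : ℝ) (hy : 0 ≤ y)
    (hF : ∀ p ∈ F, p.2 ⊆ p.1 ∧ p.1.Nonempty) :
    ∑ p ∈ F, y ^ p.1.card ≤ (2 * y + 1) ^ (Fintype.card V) - 1 := by
  have hmaps : ∀ p ∈ F, p.1 ∈ (univ : Finset (Finset V)).erase ∅ := by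
    intro p hp
    rw [mem_erase]
    exact ⟨(hF p hp).2.ne_empty, mem_univ _⟩
  rw [← Finset.sum_fiberwise_of_maps_to hmaps]
  have h1 : ∀ W ∈ (univ : Finset (Finset V)).erase ∅,
      ∑ p ∈ F with p.1 = W, y ^ p.1.card ≤ (2 * y) ^ W.card := by
    intro W hW
    have h2 : ∑ p ∈ F with p.1 = W, y ^ p.1.card = ∑ p ∈ F with p.1 = W, y ^ W.card := by
      apply Finset.sum_congr rfl
      intro p hp
      rw [(mem_filter.mp hp).2]
    rw [h2, Finset.sum_const, nsmul_eq_mul, mul_pow]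
    apply mul_le_mul_of_nonneg_right _ (pow_nonneg hy _)
    have h3 : (F.filter fun p => p.1 = W).card ≤ W.powerset.card := by
      apply Finset.card_le_card_of_injOn (fun p => p.2)
      · intro p hp
        have hp' := mem_filter.mp (Finset.mem_coe.mp hp)
        have := (hF p hp'.1).1
        rw [hp'.2] at this
        exact Finset.mem_coe.mpr (mem_powerset.mpr this)
      · intro p hp q hq hpq
        have hp' := mem_filter.mp (Finset.mem_coe.mp hp)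
        have hq' := mem_filter.mp (Finset.mem_coe.mp hq)
        exact Prod.ext (hp'.2.trans hq'.2.symm) hpq
    rw [Finset.card_powerset] at h3
    exact_mod_cast h3
  refine (Finset.sum_le_sum h1).trans ?_
  have h4 : ∑ W : Finset V, (2 * y) ^ W.card = (2 * y + 1) ^ (Fintype.card V) := by
    have := Fintype.sum_pow_mul_eq_add_pow V (2 * y) (1 : ℝ)
    simpa using this
  have h5 : ∑ W ∈ (univ : Finset (Finset V)).erase ∅, (2 * y) ^ W.card + (2 * y) ^ (∅ : Finset V).card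
      = ∑ W : Finset V, (2 * y) ^ W.card := Finset.sum_erase_add _ _ (mem_univ _)
  rw [h4] at h5
  simp only [card_empty, pow_zero] at h5
  linarith

/-- non-conflicting literals at the edge `e` -/
def litSet {k d N t : ℕ} (data : Fin t → Vx k d N → Cell k d N) (e : Ed k d N) :
    Finset (Finset (Vx k d N) × Bool) :=
  (Finset.eraseNone (univ.image fun l => lit (data l) e)).filter fun p =>
    ¬ ∃ l', lit (data l') e = some (p.1, !p.2)

lemma mem_litSet {k d N t : ℕ} (data : Fin t → Vx k d N → Cell k d N) (e : Ed k d N)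
    (p : Finset (Vx k d N) × Bool) :
    p ∈ litSet data e ↔ (∃ l, lit (data l) e = some p) ∧
      ¬ ∃ l', lit (data l') e = some (p.1, !p.2) := by
  unfold litSet
  rw [mem_filter, Finset.mem_eraseNone, mem_image]
  constructor
  · rintro ⟨⟨l, _, hl⟩, h⟩
    exact ⟨⟨l, hl⟩, h⟩
  · rintro ⟨⟨l, hl⟩, h⟩
    exact ⟨⟨l, mem_univ _, hl⟩, h⟩

lemma card_litSet {k d N t : ℕ} (data : Fin t → Vx k d N → Cell k d N) (e : Ed k d N) :
    (litSet data e).card ≤ t := by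
  unfold litSet
  refine (Finset.card_filter_le _ _).trans ?_
  refine (Finset.card_eraseNone_le _).trans ?_
  refine Finset.card_image_le.trans ?_
  simp

/-- index type of the first kind -/
def PairIdx (k d N : ℕ) (D ρ₂ : ℝ) (X : Finset (Ed k d N)) : Type :=
  {p : Finset (Vx k d N) × Finset (Vx k d N) //
    p.2 ⊆ p.1 ∧ ρ₂ * D * (p.1.card : ℝ) < ((inn X p.1 \ inn X p.2).card : ℝ)}

instance (k d N : ℕ) (D ρ₂ : ℝ) (X : Finset (Ed k d N)) : Fintype (PairIdx k d N D ρ₂ X) :=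
  inferInstanceAs (Fintype {p : Finset (Vx k d N) × Finset (Vx k d N) //
    p.2 ⊆ p.1 ∧ ρ₂ * D * (p.1.card : ℝ) < ((inn X p.1 \ inn X p.2).card : ℝ)})

lemma tail_real (n : ℕ) (ρ₁ D ε : ℝ) (_hρ₁ : 0 < ρ₁) (hD : 0 < D) (hε : ε ≤ ρ₁) (hn : 0 < n)
    (hlog : Real.log (n : ℝ) ≤ ε * D) (hL : 8 ≤ ρ₁ * D) :
    2 * ((2 * Real.exp (-(3 * ρ₁ * D)) + 1) ^ n - 1) ≤ 8 / 17 := by
  have hn0 : (0 : ℝ) < n := by exact_mod_cast hn
  have hny : (n : ℝ) * Real.exp (-(3 * ρ₁ * D)) ≤ Real.exp (-(2 * (ρ₁ * D))) := by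
    have h0 : (n : ℝ) * Real.exp (-(3 * ρ₁ * D)) =
        Real.exp (Real.log n + -(3 * ρ₁ * D)) := by
      rw [Real.exp_add, Real.exp_log hn0]
    rw [h0]
    apply Real.exp_le_exp.mpr
    have : ε * D ≤ ρ₁ * D := mul_le_mul_of_nonneg_right hε hD.le
    linarith
  have hsm : Real.exp (-(2 * (ρ₁ * D))) ≤ 1 / 17 := by
    have h11 : (17 : ℝ) ≤ Real.exp 16 := by
      have := Real.add_one_le_exp (16 : ℝ)
      linarith
    have h12 : Real.exp (-(2 * (ρ₁ * D))) ≤ Real.exp (-16) := by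
      apply Real.exp_le_exp.mpr
      linarith
    have h13 : Real.exp (-16) * Real.exp 16 = 1 := by
      rw [← Real.exp_add]
      simp
    have h14 : Real.exp (-16) ≤ 1 / 17 := by
      have := Real.exp_pos (-16)
      rw [le_div_iff₀ (by norm_num)]
      nlinarith
    exact h12.trans h14
  have hy0 : 0 < Real.exp (-(3 * ρ₁ * D)) := Real.exp_pos _
  generalize Real.exp (-(3 * ρ₁ * D)) = y at hny hy0 ⊢
  have hz0 : 0 ≤ 2 * (n * y) := by positivity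
  have hz1 : 2 * (n * y) ≤ 2 / 17 := by linarith
  have h15 : (2 * y + 1) ^ n ≤ Real.exp (2 * (n * y)) := by
    have h16 : (2 * y + 1) ^ n ≤ (Real.exp (2 * y)) ^ n :=
      pow_le_pow_left₀ (by positivity) (Real.add_one_le_exp _) n
    rw [← Real.exp_nat_mul] at h16
    have h16' : (n : ℝ) * (2 * y) = 2 * (n * y) := by ring
    rwa [h16'] at h16
  have h17 : Real.exp (2 * (n * y)) - 1 ≤ 2 * (2 * (n * y)) := by
    have := Real.abs_exp_sub_one_le (x := 2 * (n * y)) (by rw [abs_of_nonneg hz0]; linarith)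
    rw [abs_of_nonneg hz0] at this
    exact (le_abs_self _).trans this
  linarith

lemma first_sum (k d N : ℕ) (D ρ₁ ρ₂ ε : ℝ) (X : Finset (Ed k d N)) (hρ₁ : 0 < ρ₁)
    (hρ : 16 * ρ₁ ≤ ρ₂) (hD : 0 < D) (hε : ε ≤ ρ₁) (hn : 0 < Fintype.card (Vx k d N))
    (hlog : Real.log (Fintype.card (Vx k d N) : ℝ) ≤ ε * D) (hL : 8 ≤ ρ₁ * D) :
    ∑ i : PairIdx k d N D ρ₂ X, (2 : ℝ) ^ (⌊ρ₁ * D * (i.1.1.card : ℝ)⌋₊ + 1) *
      (1 - (1 / 2 : ℝ) ^ (1 + 1)) ^ ((inn X i.1.1 \ inn X i.1.2).card) ≤ 8 / 17 := by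
  set y : ℝ := Real.exp (-(3 * ρ₁ * D)) with hy
  have hy0 : 0 < y := Real.exp_pos _
  have hρD : 0 < ρ₁ * D := mul_pos hρ₁ hD
  have h1 : ∀ i : PairIdx k d N D ρ₂ X, (2 : ℝ) ^ (⌊ρ₁ * D * (i.1.1.card : ℝ)⌋₊ + 1) *
      (1 - (1 / 2 : ℝ) ^ (1 + 1)) ^ ((inn X i.1.1 \ inn X i.1.2).card) ≤
      2 * y ^ i.1.1.card := by
    intro i
    have hc : 0 ≤ ρ₁ * D * (i.1.1.card : ℝ) := by positivity
    have h2 := two_pow_le (⌊ρ₁ * D * (i.1.1.card : ℝ)⌋₊ + 1) (ρ₁ * D * (i.1.1.card : ℝ)) hc (by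
      push_cast
      have := Nat.floor_le hc
      linarith)
    have h3 := pow_le_exp (1 / 4) (by norm_num) ((inn X i.1.1 \ inn X i.1.2).card)
    have h4 : (1 - (1 / 2 : ℝ) ^ (1 + 1)) = 1 - 1 / 4 := by norm_num
    rw [h4]
    have h5 : y ^ i.1.1.card = Real.exp (-(3 * ρ₁ * D) * (i.1.1.card : ℝ)) := by
      rw [hy, ← Real.exp_nat_mul]
      congr 1
      ring
    have h6 : (2 : ℝ) ^ (⌊ρ₁ * D * (i.1.1.card : ℝ)⌋₊ + 1) *
        (1 - 1 / 4) ^ ((inn X i.1.1 \ inn X i.1.2).card) ≤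
        (2 * Real.exp (7 / 10 * (ρ₁ * D * (i.1.1.card : ℝ)))) *
          Real.exp (-(1 / 4 * ((inn X i.1.1 \ inn X i.1.2).card : ℝ))) :=
      mul_le_mul h2 h3 (by positivity) (by positivity)
    refine h6.trans ?_
    rw [mul_assoc, ← Real.exp_add, h5]
    apply mul_le_mul_of_nonneg_left _ (by norm_num)
    apply Real.exp_le_exp.mpr
    have h7 := i.2.2
    have h8 : 16 * ρ₁ * D * (i.1.1.card : ℝ) ≤ ρ₂ * D * (i.1.1.card : ℝ) := by
      apply mul_le_mul_of_nonneg_right _ (Nat.cast_nonneg _)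
      exact mul_le_mul_of_nonneg_right hρ hD.le
    nlinarith
  refine (Finset.sum_le_sum fun i _ => h1 i).trans ?_
  rw [← Finset.mul_sum]
  have h9 : ∑ i : PairIdx k d N D ρ₂ X, y ^ i.1.1.card =
      ∑ p ∈ (univ : Finset (Finset (Vx k d N) × Finset (Vx k d N))).filter
        (fun p => p.2 ⊆ p.1 ∧ ρ₂ * D * (p.1.card : ℝ) < ((inn X p.1 \ inn X p.2).card : ℝ)),
        y ^ p.1.card := by
    refine (Finset.sum_subtype _ ?_ (fun p : Finset (Vx k d N) × Finset (Vx k d N) =>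
      y ^ p.1.card)).symm
    intro p
    simp
  rw [h9]
  have h10 := sumPairs (Vx k d N) ((univ : Finset (Finset (Vx k d N) × Finset (Vx k d N))).filter
        (fun p => p.2 ⊆ p.1 ∧ ρ₂ * D * (p.1.card : ℝ) < ((inn X p.1 \ inn X p.2).card : ℝ)))
        y hy0.le (by
      intro p hp
      have hp' := (mem_filter.mp hp).2
      refine ⟨hp'.1, ?_⟩
      rw [Finset.nonempty_iff_ne_empty]
      intro h0
      have := hp'.2
      rw [h0] at this
      simp [inn] at this)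
  have hsum := tail_real (Fintype.card (Vx k d N)) ρ₁ D ε hρ₁ hD hε hn hlog hL
  rw [← hy] at hsum
  linarith

lemma card_cell (k d N : ℕ) : Fintype.card (Cell k d N) =
    Fintype.card (Vx k d N) * (Fintype.card (Vx k d N) * (d + 2)) := by
  simp only [Cell, Fintype.card_prod, Fintype.card_option, Fintype.card_fin]

lemma second_real (d n t c : ℕ) (D ε : ℝ) (ht : 0 < t)
    (hD : 0 < D) (hε0 : 0 < ε) (hε : ε ≤ 1 / (4 * t * 2 ^ (t + 8)))
    (hn : 0 < n)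
    (hlog : Real.log (n : ℝ) ≤ ε * D)
    (hL1 : 2 * 2 ^ (t + 8) * t * Real.log (d + 2) ≤ D) (hL2 : 2 ^ (t + 8) ≤ D)
    (hX : D * (n : ℝ) ≤ 32 * (c : ℝ)) :
    (((n * (n * (d + 2))) ^ n) ^ t : ℝ) *
      ((2 : ℝ) ^ (⌈D * (n : ℝ) / 2 ^ (t + 8)⌉₊) *
      (1 - (1 / 2 : ℝ) ^ (t + 1)) ^ c) < 1 / 2 := by
  have hn0 : (0 : ℝ) < n := by exact_mod_cast hn
  have hn1 : (1 : ℝ) ≤ n := by exact_mod_cast hn
  have ht0 : (0 : ℝ) < t := by exact_mod_cast ht
  set A : ℝ := 2 ^ (t + 8) with hA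
  have hA0 : 0 < A := by positivity
  set x : ℝ := D * n / A with hx
  have hx1 : 1 ≤ x := by
    rw [hx, le_div_iff₀ hA0]
    nlinarith
  have hx0 : 0 ≤ x := by linarith
  -- number of data
  have h1 : (((n * (n * (d + 2))) ^ n) ^ t : ℝ) =
      Real.exp ((t : ℝ) * (n * (2 * Real.log n + Real.log (d + 2)))) := by
    have hd : (0 : ℝ) < (d : ℝ) + 2 := by positivity
    have h2 : (n * (n * (d + 2)) : ℝ) = Real.exp (2 * Real.log n + Real.log (d + 2)) := by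
      rw [Real.exp_add, Real.exp_log hd, two_mul, Real.exp_add, Real.exp_log hn0]
      ring
    rw [h2, ← Real.exp_nat_mul, ← Real.exp_nat_mul]
  have h3 : (t : ℝ) * (n * (2 * Real.log n + Real.log (d + 2))) ≤ x := by
    have h4 : 2 * (t : ℝ) * Real.log n ≤ D / (2 * A) := by
      have h5 : 2 * (t : ℝ) * Real.log n ≤ 2 * t * (ε * D) := by
        apply mul_le_mul_of_nonneg_left hlog (by positivity)
      refine h5.trans ?_
      have h6 : ε * D ≤ 1 / (4 * t * A) * D := mul_le_mul_of_nonneg_right hε hD.le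
      have h7 : 2 * (t : ℝ) * (1 / (4 * t * A) * D) = D / (2 * A) := by
        field_simp
        ring
      rw [← h7]
      exact mul_le_mul_of_nonneg_left h6 (by positivity)
    have h8 : (t : ℝ) * Real.log (d + 2) ≤ D / (2 * A) := by
      rw [le_div_iff₀ (by positivity)]
      linarith
    have h9 : (t : ℝ) * (n * (2 * Real.log n + Real.log (d + 2))) =
        n * (2 * t * Real.log n + t * Real.log (d + 2)) := by ring
    rw [h9]
    have h10 : 2 * (t : ℝ) * Real.log n + t * Real.log (d + 2) ≤ D / A := by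
      have : D / (2 * A) + D / (2 * A) = D / A := by
        field_simp
        ring
      linarith
    calc (n : ℝ) * (2 * t * Real.log n + t * Real.log (d + 2)) ≤ n * (D / A) :=
          mul_le_mul_of_nonneg_left h10 hn0.le
      _ = x := by rw [hx]; ring
  have h11 := two_pow_le (⌈x⌉₊) x hx0 (Nat.ceil_lt_add_one hx0).le
  have h12 := pow_le_exp ((1 / 2 : ℝ) ^ (t + 1)) (pow_le_one₀ (by norm_num) (by norm_num)) c
  have h13 : 4 * x ≤ (1 / 2 : ℝ) ^ (t + 1) * c := by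
    have h14 : (1 / 2 : ℝ) ^ (t + 1) = 128 / A := by
      rw [hA, div_pow, one_pow, div_eq_div_iff (by positivity) (by positivity)]
      rw [pow_add, pow_add]
      norm_num
      ring
    rw [h14, hx]
    rw [div_mul_eq_mul_div, mul_div_assoc', div_le_div_iff_of_pos_right hA0]
    linarith
  have h15 : (1 - (1 / 2 : ℝ) ^ (t + 1)) ^ c ≤ Real.exp (-(4 * x)) :=
    h12.trans (Real.exp_le_exp.mpr (by linarith))
  have hnn' : (0 : ℝ) ≤ (1 - (1 / 2 : ℝ) ^ (t + 1)) ^ c := by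
    apply pow_nonneg
    have : (1 / 2 : ℝ) ^ (t + 1) ≤ 1 := pow_le_one₀ (by norm_num) (by norm_num)
    linarith
  rw [h1]
  have h16 : Real.exp ((t : ℝ) * (n * (2 * Real.log n + Real.log (d + 2)))) ≤ Real.exp x :=
    Real.exp_le_exp.mpr h3
  have h17 : (2 : ℝ) ^ ⌈x⌉₊ * (1 - (1 / 2 : ℝ) ^ (t + 1)) ^ c ≤
      (2 * Real.exp (7 / 10 * x)) * Real.exp (-(4 * x)) :=
    mul_le_mul h11 h15 hnn' (by positivity)
  have h18 : Real.exp ((t : ℝ) * (n * (2 * Real.log n + Real.log (d + 2)))) *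
      ((2 : ℝ) ^ ⌈x⌉₊ * (1 - (1 / 2 : ℝ) ^ (t + 1)) ^ c) ≤
      Real.exp x * ((2 * Real.exp (7 / 10 * x)) * Real.exp (-(4 * x))) :=
    mul_le_mul h16 h17 (by positivity) (Real.exp_pos _).le
  refine lt_of_le_of_lt h18 ?_
  have h19 : Real.exp x * ((2 * Real.exp (7 / 10 * x)) * Real.exp (-(4 * x))) =
      2 * Real.exp (-(23 / 10 * x)) := by
    have : Real.exp x * ((2 * Real.exp (7 / 10 * x)) * Real.exp (-(4 * x))) =
      2 * (Real.exp x * Real.exp (7 / 10 * x) * Real.exp (-(4 * x))) := by ring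
    rw [this, ← Real.exp_add, ← Real.exp_add]
    congr 2
    ring
  rw [h19]
  have h20 : Real.exp (-(23 / 10 * x)) ≤ Real.exp (-(23 / 10)) := by
    apply Real.exp_le_exp.mpr
    linarith
  have h21 : (5 : ℝ) < Real.exp (23 / 10) := by
    have := Real.quadratic_le_exp_of_nonneg (x := (23 / 10 : ℝ)) (by norm_num)
    norm_num at this
    linarith
  have h22 : Real.exp (-(23 / 10)) * Real.exp (23 / 10) = 1 := by
    rw [← Real.exp_add]
    simp
  have h23 : Real.exp (-(23 / 10)) < 1 / 4 := by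
    have := Real.exp_pos (-(23 / 10))
    rw [lt_div_iff₀ (by norm_num)]
    nlinarith
  linarith

lemma second_sum (k d N t : ℕ) (D ε : ℝ) (X : Finset (Ed k d N)) (ht : 0 < t)
    (hD : 0 < D) (hε0 : 0 < ε) (hε : ε ≤ 1 / (4 * t * 2 ^ (t + 8)))
    (hn : 0 < Fintype.card (Vx k d N))
    (hlog : Real.log (Fintype.card (Vx k d N) : ℝ) ≤ ε * D)
    (hL1 : 2 * 2 ^ (t + 8) * t * Real.log (d + 2) ≤ D) (hL2 : 2 ^ (t + 8) ≤ D)
    (hX : D * (Fintype.card (Vx k d N) : ℝ) ≤ 32 * (X.card : ℝ)) :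
    ∑ _i : (Fin t → Vx k d N → Cell k d N),
      (2 : ℝ) ^ (⌈D * (Fintype.card (Vx k d N) : ℝ) / 2 ^ (t + 8)⌉₊) *
      (1 - (1 / 2 : ℝ) ^ (t + 1)) ^ X.card < 1 / 2 := by
  have hcard : (Fintype.card (Fin t → Vx k d N → Cell k d N) : ℝ) =
      ((((Fintype.card (Vx k d N) : ℝ) * ((Fintype.card (Vx k d N) : ℝ) * (d + 2))) ^
        (Fintype.card (Vx k d N))) ^ t : ℝ) := by
    have h1 : Fintype.card (Fin t → Vx k d N → Cell k d N) =
        (Fintype.card (Vx k d N → Cell k d N)) ^ t := by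
      have := Fintype.card_fun (α := Fin t) (β := Vx k d N → Cell k d N)
      rw [Fintype.card_fin] at this
      convert this
    have h2 : Fintype.card (Vx k d N → Cell k d N) =
        (Fintype.card (Cell k d N)) ^ (Fintype.card (Vx k d N)) := by
      have := Fintype.card_fun (α := Vx k d N) (β := Cell k d N)
      convert this
    rw [h1, h2, card_cell]
    push_cast
    rfl
  have hmain := second_real d (Fintype.card (Vx k d N)) t X.card D ε ht hD hε0 hε hn hlog hL1 hL2 hX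
  rw [Finset.sum_const, nsmul_eq_mul, Finset.card_univ, hcard]
  exact hmain

lemma combine (h : StmtBits) (Ad E ι₁ ι₂ : Type) [Fintype Ad] [Fintype E] [Fintype ι₁]
    [Fintype ι₂] (ED₁ : ι₁ → Finset E) (L₁ : ι₁ → E → Finset (Ad × Bool)) (s₁ t₁ : ι₁ → ℕ)
    (ED₂ : ι₂ → Finset E) (L₂ : ι₂ → E → Finset (Ad × Bool)) (s₂ t₂ : ι₂ → ℕ)
    (c₁ : ∀ i e, (L₁ i e).card ≤ t₁ i) (c₂ : ∀ i e, (L₂ i e).card ≤ t₂ i)
    (n₁ : ∀ i e w, ¬ ((w, true) ∈ L₁ i e ∧ (w, false) ∈ L₁ i e))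
    (n₂ : ∀ i e w, ¬ ((w, true) ∈ L₂ i e ∧ (w, false) ∈ L₂ i e))
    (h₁ : ∑ i, (2 : ℝ) ^ (s₁ i) * (1 - (1 / 2 : ℝ) ^ (t₁ i + 1)) ^ ((ED₁ i).card) ≤ 8 / 17)
    (h₂ : ∑ i, (2 : ℝ) ^ (s₂ i) * (1 - (1 / 2 : ℝ) ^ (t₂ i + 1)) ^ ((ED₂ i).card) < 1 / 2) :
    ∃ β : Ad → E → Bool,
      (∀ i, ∃ F : Finset E, s₁ i ≤ F.card ∧ ∀ e ∈ F, e ∈ ED₁ i ∧ ∀ p ∈ L₁ i e, β p.1 e ≠ p.2) ∧
      (∀ i, ∃ F : Finset E, s₂ i ≤ F.card ∧ ∀ e ∈ F, e ∈ ED₂ i ∧ ∀ p ∈ L₂ i e, β p.1 e ≠ p.2) := by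
  obtain ⟨β, hβ⟩ := h Ad E (ι₁ ⊕ ι₂) (Sum.elim ED₁ ED₂) (Sum.elim L₁ L₂) (Sum.elim s₁ s₂)
    (Sum.elim t₁ t₂)
    (by
      rintro (i | i) e
      · exact c₁ i e
      · exact c₂ i e)
    (by
      rintro (i | i) e w
      · exact n₁ i e w
      · exact n₂ i e w)
    (by
      rw [Fintype.sum_sum_type]
      simp only [Sum.elim_inl, Sum.elim_inr]
      linarith)
  exact ⟨β, fun i => ⟨_, hβ (Sum.inl i), fun e he => mem_filter.mp he⟩,
    fun i => ⟨_, hβ (Sum.inr i), fun e he => mem_filter.mp he⟩⟩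

lemma good_of (k d N t : ℕ) (D ρ₁ ρ₂ : ℝ) (X : Finset (Ed k d N))
    (β : Finset (Vx k d N) → Ed k d N → Bool)
    (hinl : ∀ i : PairIdx k d N D ρ₂ X, ∃ F : Finset (Ed k d N),
      ⌊ρ₁ * D * (i.1.1.card : ℝ)⌋₊ + 1 ≤ F.card ∧ ∀ e ∈ F, e ∈ inn X i.1.1 \ inn X i.1.2 ∧
        ∀ p ∈ ({(i.1.1, false)} : Finset (Finset (Vx k d N) × Bool)), β p.1 e ≠ p.2)
    (hinr : ∀ data : Fin t → Vx k d N → Cell k d N, ∃ F : Finset (Ed k d N),
      ⌈D * (Fintype.card (Vx k d N) : ℝ) / 2 ^ (t + 8)⌉₊ ≤ F.card ∧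
      ∀ e ∈ F, e ∈ X ∧ ∀ p ∈ litSet data e, β p.1 e ≠ p.2) :
    GoodBeta k d N t D ρ₁ ρ₂ (D * (Fintype.card (Vx k d N) : ℝ) / 2 ^ (t + 8)) X β := by
  refine ⟨?_, ?_⟩
  · intro W M hMW hT
    obtain ⟨F, h1, hF⟩ := hinl ⟨(W, M), hMW, hT⟩
    have h2 : F.card ≤ ((inn X W \ inn X M).filter fun e => β W e = true).card := by
      apply Finset.card_le_card
      intro e he
      have h4 := hF e he
      rw [mem_filter]
      refine ⟨h4.1, ?_⟩
      have h5 := h4.2 (W, false) (mem_singleton_self _)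
      simpa using h5
    have h3 : ρ₁ * D * (W.card : ℝ) < (⌊ρ₁ * D * (W.card : ℝ)⌋₊ : ℝ) + 1 := Nat.lt_floor_add_one _
    refine lt_of_lt_of_le h3 ?_
    have h6 : ⌊ρ₁ * D * (W.card : ℝ)⌋₊ + 1 ≤
        ((inn X W \ inn X M).filter fun e => β W e = true).card := h1.trans h2
    exact_mod_cast h6
  · intro data
    obtain ⟨F, h1, hF⟩ := hinr data
    have h2 : F.card ≤
        (X.filter fun e => ∀ ℓ W c, lit (data ℓ) e = some (W, c) → β W e = c →
          ∃ ℓ', lit (data ℓ') e = some (W, !c)).card := by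
      apply Finset.card_le_card
      intro e he
      rw [mem_filter]
      refine ⟨(hF e he).1, ?_⟩
      intro l W c hl hb
      by_contra hno
      exact (hF e he).2 (W, c) ((mem_litSet data e (W, c)).mpr ⟨⟨l, hl⟩, hno⟩) hb
    have h4 : (⌈D * (Fintype.card (Vx k d N) : ℝ) / 2 ^ (t + 8)⌉₊ : ℝ) ≤
        ((X.filter fun e => ∀ ℓ W c, lit (data ℓ) e = some (W, c) → β W e = c →
          ∃ ℓ', lit (data ℓ') e = some (W, !c)).card : ℝ) :=
      Nat.cast_le.mpr (h1.trans h2)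
    exact (Nat.le_ceil _).trans h4

lemma beta_core (h : StmtBits) (k d N t : ℕ) (D ρ₁ ρ₂ : ℝ) (X : Finset (Ed k d N))
    (hfirst : ∑ i : PairIdx k d N D ρ₂ X, (2 : ℝ) ^ (⌊ρ₁ * D * (i.1.1.card : ℝ)⌋₊ + 1) *
      (1 - (1 / 2 : ℝ) ^ (1 + 1)) ^ ((inn X i.1.1 \ inn X i.1.2).card) ≤ 8 / 17)
    (hsecond : ∑ _i : (Fin t → Vx k d N → Cell k d N),
      (2 : ℝ) ^ (⌈D * (Fintype.card (Vx k d N) : ℝ) / 2 ^ (t + 8)⌉₊) *
      (1 - (1 / 2 : ℝ) ^ (t + 1)) ^ X.card < 1 / 2) :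
    ∃ β, GoodBeta k d N t D ρ₁ ρ₂ (D * (Fintype.card (Vx k d N) : ℝ) / 2 ^ (t + 8)) X β := by
  obtain ⟨β, hβ₁, hβ₂⟩ := combine h (Finset (Vx k d N)) (Ed k d N)
    (PairIdx k d N D ρ₂ X) (Fin t → Vx k d N → Cell k d N)
    (fun i => inn X i.1.1 \ inn X i.1.2) (fun i _ => {(i.1.1, false)})
    (fun i => ⌊ρ₁ * D * (i.1.1.card : ℝ)⌋₊ + 1) (fun _ => 1)
    (fun _ => X) (fun data e => litSet data e)
    (fun _ => ⌈D * (Fintype.card (Vx k d N) : ℝ) / 2 ^ (t + 8)⌉₊) (fun _ => t)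
    (fun i e => by simp) (fun data e => card_litSet data e)
    (fun i e w => by simp)
    (fun data e w hw => by
      rw [mem_litSet, mem_litSet] at hw
      exact hw.1.2 hw.2.1)
    hfirst hsecond
  exact ⟨β, good_of k d N t D ρ₁ ρ₂ X β hβ₁ hβ₂⟩

theorem stmtBeta_of (h : StmtBits) : StmtBeta := by
  intro t d ρ₁ ρ₂ ht hρ₁ hρ
  have ht0 : (0 : ℝ) < t := by exact_mod_cast ht
  have hA0 : (0 : ℝ) < 2 ^ (t + 8) := by positivity
  have hε0 : (0 : ℝ) < min ρ₁ (1 / (4 * t * 2 ^ (t + 8))) := lt_min hρ₁ (by positivity)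
  have hlg : 0 ≤ Real.log ((d : ℝ) + 2) := Real.log_nonneg (by
    have : (0 : ℝ) ≤ d := Nat.cast_nonneg d
    linarith)
  have hp1 : 0 ≤ 2 * 2 ^ (t + 8) * (t : ℝ) * Real.log ((d : ℝ) + 2) := by positivity
  have hp2 : 0 ≤ 8 / ρ₁ := by positivity
  refine ⟨min ρ₁ (1 / (4 * t * 2 ^ (t + 8))), hε0,
    8 / ρ₁ + 2 * 2 ^ (t + 8) * t * Real.log (d + 2) + 2 ^ (t + 8), ?_⟩
  intro k N D X hn hLD hD hlog hX
  have hL0 : 8 ≤ ρ₁ * D := by
    have : 8 / ρ₁ ≤ D := by linarith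
    rw [div_le_iff₀ hρ₁] at this
    linarith
  have hL1 : 2 * 2 ^ (t + 8) * t * Real.log (d + 2) ≤ D := by linarith
  have hL2 : (2 : ℝ) ^ (t + 8) ≤ D := by linarith
  exact beta_core h k d N t D ρ₁ ρ₂ X
    (first_sum k d N D ρ₁ ρ₂ _ X hρ₁ hρ hD (min_le_left _ _) hn hlog hL0)
    (second_sum k d N t D _ X ht hD hε0 (min_le_right _ _) hn hlog hL1 hL2 hX)

end

end Pool.Agent.R576.LUD
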