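import Pool.Agent.R59.SP.Defs

set_option autoImplicit false

namespace R576.SPLA4
open Finset Matrix

/-- principal minor on a finset -/
noncomputable def D {N : ℕ} (A : Matrix (Fin N) (Fin N) ℂ) (s : Finset (Fin N)) : ℂ :=
  (A.submatrix (Subtype.val : {x // x ∈ s} → Fin N) Subtype.val).det

theorem det_noninj {N n : ℕ} (A : Matrix (Fin N) (Fin N) ℂ) (a : Fin n → Fin N) (h : ¬ Function.Injective a) :
    (A.submatrix a a).det = 0 := by
  simp only [Function.Injective, not_forall] at h
  obtain ⟨i, j, hij, hne⟩ := h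
  apply Matrix.det_zero_of_row_eq hne
  funext k
  simp [Matrix.submatrix_apply, hij]

theorem sum_fixed_image {N n : ℕ} (A : Matrix (Fin N) (Fin N) ℂ) (s : Finset (Fin N)) (hs : s.card = n) :
    ∑ a ∈ (univ : Finset (Fin n → Fin N)).filter (fun a => univ.image a = s), (A.submatrix a a).det =
      (n.factorial : ℂ) * D A s := by
  classical
  have e0 : Fin n ≃ {x // x ∈ s} := (Fintype.equivFinOfCardEq (by simp [hs])).symm
  have h1 : ∑ a ∈ (univ : Finset (Fin n → Fin N)).filter (fun a => univ.image a = s), (A.submatrix a a).det =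
      ∑ σ : Equiv.Perm (Fin n), (A.submatrix (fun i => (e0 (σ i)).1) (fun i => (e0 (σ i)).1)).det := by
    symm
    apply Finset.sum_bij (fun σ _ => fun i => (e0 (σ i)).1)
    · intro σ _
      simp only [mem_filter, mem_univ, true_and]
      ext x
      simp only [mem_image, mem_univ, true_and]
      constructor
      · rintro ⟨i, rfl⟩
        exact (e0 (σ i)).2
      · intro hx
        exact ⟨σ.symm (e0.symm ⟨x, hx⟩), by simp⟩
    · intro σ _ τ _ h
      ext i
      have := congrFun h i
      have h2 : e0 (σ i) = e0 (τ i) := Subtype.ext this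
      have h3 := e0.injective h2
      rw [h3]
    · intro a ha
      simp only [mem_filter, mem_univ, true_and] at ha
      have hmem : ∀ i, a i ∈ s := fun i => ha ▸ mem_image_of_mem a (mem_univ i)
      have hinj : Function.Injective a := by
        have hc : (univ.image a).card = (univ : Finset (Fin n)).card := by rw [ha, hs]; simp
        have := Finset.card_image_iff.1 hc
        intro x y hxy
        exact this (by simp) (by simp) hxy
      have hf : Function.Injective (fun i => e0.symm ⟨a i, hmem i⟩) := by
        intro x y hxy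
        have h1 := e0.symm.injective hxy
        exact hinj (by simpa using congrArg Subtype.val h1)
      refine ⟨Equiv.ofBijective _ (Finite.injective_iff_bijective.1 hf), mem_univ _, ?_⟩
      funext i
      simp
    · intro σ _
      rfl
  rw [h1]
  have h2 : ∀ σ : Equiv.Perm (Fin n), (A.submatrix (fun i => (e0 (σ i)).1) (fun i => (e0 (σ i)).1)).det = D A s := by
    intro σ
    have := Matrix.det_submatrix_equiv_self (σ.trans e0) (A.submatrix (Subtype.val : {x // x ∈ s} → Fin N) Subtype.val)
    rw [D, ← this]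
    rfl
  rw [Finset.sum_congr rfl (fun σ _ => h2 σ), Finset.sum_const, Finset.card_univ, Fintype.card_perm, Fintype.card_fin,
    nsmul_eq_mul]

theorem sum_maps {N n : ℕ} (A : Matrix (Fin N) (Fin N) ℂ) :
    ∑ a : Fin n → Fin N, (A.submatrix a a).det = ∑ s ∈ powersetCard n (univ : Finset (Fin N)), (n.factorial : ℂ) * D A s := by
  classical
  rw [← Finset.sum_fiberwise (univ : Finset (Fin n → Fin N)) (fun a => univ.image a) (fun a => (A.submatrix a a).det)]
  rw [← Finset.sum_subset (Finset.subset_univ (powersetCard n (univ : Finset (Fin N))))]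
  · apply Finset.sum_congr rfl
    intro s hs
    rw [mem_powersetCard] at hs
    exact sum_fixed_image A s hs.2
  · intro s _ hs
    apply Finset.sum_eq_zero
    intro a ha
    simp only [mem_filter, mem_univ, true_and] at ha
    apply det_noninj
    intro hinj
    apply hs
    rw [mem_powersetCard]
    refine ⟨subset_univ _, ?_⟩
    rw [← ha, Finset.card_image_of_injective _ hinj]
    simp

theorem det_one_sub {N : ℕ} (A : Matrix (Fin N) (Fin N) ℂ) :
    (1 - A).det = ∑ s : Finset (Fin N), (-1 : ℂ) ^ s.card * D A s := by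
  classical
  have h1 := MultilinearMap.map_add_univ
    ((Matrix.detRowAlternating (n := Fin N) (R := ℂ)).toMultilinearMap)
    (fun i => (-A : Matrix (Fin N) (Fin N) ℂ) i) (fun i => (1 : Matrix (Fin N) (Fin N) ℂ) i)
  have h2 : (1 - A).det = ∑ s : Finset (Fin N), Matrix.det (s.piecewise (fun i => (-A : Matrix (Fin N) (Fin N) ℂ) i)
      (fun i => (1 : Matrix (Fin N) (Fin N) ℂ) i) : Matrix (Fin N) (Fin N) ℂ) := by
    rw [show (1 - A) = (-A) + (1 : Matrix (Fin N) (Fin N) ℂ) by rw [sub_eq_add_neg, add_comm]]
    exact h1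
  rw [h2]
  apply Finset.sum_congr rfl
  intro s _
  set M : Matrix (Fin N) (Fin N) ℂ := (s.piecewise (fun i => (-A : Matrix (Fin N) (Fin N) ℂ) i)
      (fun i => (1 : Matrix (Fin N) (Fin N) ℂ) i) : Matrix (Fin N) (Fin N) ℂ) with hM
  have hMs : ∀ i ∈ s, ∀ j, M i j = - A i j := by
    intro i hi j
    simp [hM, hi]
  have hMn : ∀ i, i ∉ s → ∀ j, M i j = (1 : Matrix (Fin N) (Fin N) ℂ) i j := by
    intro i hi j
    simp [hM, hi]
  rw [Matrix.twoBlockTriangular_det M (fun i => i ∈ s) (by
    intro i hi j hj
    rw [hMn i hi j, Matrix.one_apply_ne]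
    rintro rfl
    exact hi hj)]
  have e1 : (M.toSquareBlockProp (fun i => i ∈ s)) = - (A.submatrix (Subtype.val : {x // x ∈ s} → Fin N) Subtype.val) := by
    ext i j
    simp [Matrix.toSquareBlockProp_def, hMs i.1 i.2 j.1]
  have e2 : (M.toSquareBlockProp (fun i => ¬ i ∈ s)) = 1 := by
    ext i j
    simp only [Matrix.toSquareBlockProp_def, Matrix.of_apply, hMn i.1 i.2 j.1, Matrix.one_apply, Subtype.ext_iff]
  rw [e1, e2, Matrix.det_one, mul_one]
  have e3 : (- (A.submatrix (Subtype.val : {x // x ∈ s} → Fin N) Subtype.val)).det = (-1 : ℂ) ^ s.card * D A s := by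
    rw [Matrix.det_neg, Fintype.card_coe, D]
  rw [← e3]
  have key : ∀ (i1 i2 : DecidableEq {x // x ∈ s}) (f1 f2 : Fintype {x // x ∈ s})
      (X : Matrix {x // x ∈ s} {x // x ∈ s} ℂ),
      @Matrix.det {x // x ∈ s} i1 f1 ℂ _ X = @Matrix.det {x // x ∈ s} i2 f2 ℂ _ X := by
    intro i1 i2 f1 f2 X
    obtain rfl := Subsingleton.elim i1 i2
    obtain rfl := Subsingleton.elim f1 f2
    rfl
  exact key _ _ _ _ _

theorem la4 : R59.SP.S_LA4 := by
  intro N A
  constructor
  · rw [det_one_sub, ← Finset.sum_fiberwise_of_maps_to (g := Finset.card) (t := Finset.range (N + 1))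
      (fun s _ => by
        rw [Finset.mem_range]
        have := Finset.card_le_univ s
        rw [Fintype.card_fin] at this
        omega)]
    apply Finset.sum_congr rfl
    intro n _
    rw [sum_maps]
    have hset : (univ : Finset (Finset (Fin N))).filter (fun s => s.card = n) = powersetCard n univ := by
      ext s
      simp [mem_powersetCard]
    rw [hset, Finset.mul_sum]
    apply Finset.sum_congr rfl
    intro s hs
    rw [mem_powersetCard] at hs
    rw [hs.2]
    have hn : (n.factorial : ℂ) ≠ 0 := by exact_mod_cast n.factorial_ne_zero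
    field_simp
  · intro n hn
    rw [sum_maps, Finset.powersetCard_eq_empty.2 (by simpa using hn), Finset.sum_empty]

end R576.SPLA4
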