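import Mathlib
import Pool.Agent.Helper599.Source

set_option autoImplicit false

/-!
# Shuffles, one-counter automata, and a machine which checks mismatches (used for MP_435b2a_lc)
-/

namespace Pool.Agent.R576.Shuf

open Relation

/-! ### Definitions -/

/-- The shuffle of two words: all words `u₁ v₁ u₂ v₂ ⋯` with `u = u₁ u₂ ⋯` and `v = v₁ v₂ ⋯`
(the list `l` is the list of the pairs `(uᵢ, vᵢ)`). -/
def wordShuffle {A : Type} (u v : List A) : Set (List A) :=
  {w | ∃ l : List (List A × List A), u = (l.map Prod.fst).flatten ∧
    v = (l.map Prod.snd).flatten ∧ w = (l.map fun p => p.1 ++ p.2).flatten}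

/-- The shuffle of two languages. -/
def shuffle {A : Type} (L₁ L₂ : Set (List A)) : Set (List A) :=
  {w | ∃ u ∈ L₁, ∃ v ∈ L₂, w ∈ wordShuffle u v}

/-- A deterministic finite automaton with one counter. The transition function gets the state, the
scanned symbol (`none` is the right end-marker) and the answer to the question whether the counter
is zero; it gives (if it is defined) the new state, the change of the counter (`-1`, `0` or `1`) and
whether the head moves to the next symbol. -/
structure DCM (A : Type) where
  /-- the states -/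
  Q : Type
  /-- there are finitely many states -/
  finite : Finite Q
  /-- the initial state -/
  start : Q
  /-- the final states -/
  final : Set Q
  /-- the transition function -/
  step : Q → Option A → Bool → Option (Q × SignType × Bool)

namespace DCM
variable {A : Type} (M : DCM A)

/-- A configuration: the state, the unread input with the end-marker, the counter. -/
abbrev Config : Type := M.Q × List (Option A) × ℕ

/-- One move. -/
inductive Move : M.Config → M.Config → Prop
  | mk (q q' : M.Q) (x : Option A) (r : List (Option A)) (n n' : ℕ) (d : SignType) (mv : Bool) :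
      M.step q x (decide (n = 0)) = some (q', d, mv) → (n' : ℤ) = n + (d : ℤ) →
      Move (q, x :: r, n) (q', if mv then r else x :: r, n')

/-- The initial configuration on the input `w`. -/
def init (w : List A) : M.Config := (M.start, w.map some ++ [none], 0)

/-- The accepted language: the input and the end-marker are read and a final state is reached. -/
def lang : Set (List A) :=
  {w | ∃ (q : M.Q) (n : ℕ), ReflTransGen M.Move (M.init w) (q, [], n) ∧ q ∈ M.final}

/-- The counter is `1`-reversal-bounded: in no computation, a move which decreases the counter is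
followed (later) by a move which increases it. -/
def OneReversal : Prop :=
  ∀ (w : List A) (c₁ c₂ c₃ c₄ : M.Config), ReflTransGen M.Move (M.init w) c₁ → M.Move c₁ c₂ →
    c₂.2.2 < c₁.2.2 → ReflTransGen M.Move c₂ c₃ → M.Move c₃ c₄ → c₄.2.2 ≤ c₃.2.2

end DCM

/-- A code of a finite automaton over the alphabet `Fin k`: the initial state, the list of the
transitions and the list of the final states. The states are natural numbers. -/
abbrev FACode (k : ℕ) : Type := ℕ × List (ℕ × Fin k × ℕ) × List ℕ

/-- The word `w` labels a path from `s` to `t`. -/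
def Path {k : ℕ} (δ : List (ℕ × Fin k × ℕ)) : ℕ → List (Fin k) → ℕ → Prop
  | s, [], t => s = t
  | s, a :: w, t => ∃ s', (s, a, s') ∈ δ ∧ Path δ s' w t

/-- The language accepted by a finite automaton. -/
def faLang {k : ℕ} (c : FACode k) : Set (List (Fin k)) := {w | ∃ t ∈ c.2.2, Path c.2.1 c.1 w t}

/-- The automaton is deterministic. -/
def Deterministic {k : ℕ} (c : FACode k) : Prop :=
  ∀ s a t t', (s, a, t) ∈ c.2.1 → (s, a, t') ∈ c.2.1 → t = t'

/-! ### Shuffles -/

/-- The shuffle of words, inductively. -/
inductive Shuf {A : Type} : List A → List A → List A → Prop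
  | nil : Shuf [] [] []
  | left (a : A) {u v w : List A} : Shuf u v w → Shuf (a :: u) v (a :: w)
  | right (a : A) {u v w : List A} : Shuf u v w → Shuf u (a :: v) (a :: w)

section shuf
variable {A : Type}

theorem Shuf.left_all (l : List A) {u v w : List A} (h : Shuf u v w) :
    Shuf (l ++ u) v (l ++ w) := by
  induction l with
  | nil => exact h
  | cons a l ih => exact Shuf.left a ih

theorem Shuf.right_all (l : List A) {u v w : List A} (h : Shuf u v w) :
    Shuf u (l ++ v) (l ++ w) := by
  induction l with
  | nil => exact h
  | cons a l ih => exact Shuf.right a ih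

theorem mem_wordShuffle {u v w : List A} : w ∈ wordShuffle u v ↔ Shuf u v w := by
  constructor
  · rintro ⟨l, rfl, rfl, rfl⟩
    induction l with
    | nil => exact Shuf.nil
    | cons p l ih =>
      simp only [List.map_cons, List.flatten_cons]
      rw [List.append_assoc]
      exact Shuf.left_all _ (Shuf.right_all _ ih)
  · intro h
    induction h with
    | nil => exact ⟨[], rfl, rfl, rfl⟩
    | left a _ ih =>
      obtain ⟨l, rfl, rfl, rfl⟩ := ih
      exact ⟨([a], []) :: l, by simp, by simp, by simp⟩
    | right a _ ih =>
      obtain ⟨l, rfl, rfl, rfl⟩ := ih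
      exact ⟨([], [a]) :: l, by simp, by simp, by simp⟩

theorem Shuf.split {u v w₁ w₂ : List A} (h : Shuf u v (w₁ ++ w₂)) :
    ∃ u₁ u₂ v₁ v₂, u = u₁ ++ u₂ ∧ v = v₁ ++ v₂ ∧ Shuf u₁ v₁ w₁ ∧ Shuf u₂ v₂ w₂ := by
  induction w₁ generalizing u v with
  | nil => exact ⟨[], u, [], v, rfl, rfl, Shuf.nil, h⟩
  | cons a w₁ ih =>
    cases h with
    | left _ h =>
      obtain ⟨u₁, u₂, v₁, v₂, rfl, rfl, h1, h2⟩ := ih h
      exact ⟨a :: u₁, u₂, v₁, v₂, rfl, rfl, Shuf.left a h1, h2⟩
    | right _ h =>
      obtain ⟨u₁, u₂, v₁, v₂, rfl, rfl, h1, h2⟩ := ih h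
      exact ⟨u₁, u₂, a :: v₁, v₂, rfl, rfl, Shuf.right a h1, h2⟩

theorem Shuf.map {B : Type} (f : A → B) {u v w : List A} (h : Shuf u v w) :
    Shuf (u.map f) (v.map f) (w.map f) := by
  induction h with
  | nil => exact Shuf.nil
  | left a _ ih => exact Shuf.left _ ih
  | right a _ ih => exact Shuf.right _ ih

end shuf

/-! ### The letters, the two languages -/

open Pool.Agent.Helper599.Core Pool.Agent.Helper599.Source

/-- The letters: two menu letters, a letter for every state of the counter machine, a letter for
each of the two counters, and the end of a block. -/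
inductive Lt (Q : Type) : Type
  | M (t : Bool)
  | St (o : Option Q)
  | K (j : Bool)
  | D

instance {Q : Type} [Finite Q] : Finite (Lt Q) := by
  refine Finite.of_injective (β := Bool ⊕ Option Q ⊕ Bool ⊕ Unit)
    (fun g => match g with
      | .M t => .inl t
      | .St o => .inr (.inl o)
      | .K j => .inr (.inr (.inl j))
      | .D => .inr (.inr (.inr ()))) ?_
  intro a b h
  cases a <;> cases b <;> simp_all

open Lt

variable {Q : Type}

/-- The first language: no letter `D`, and no menu letter is followed at once by a counter letter.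
The flag tells whether the last letter was a menu letter. -/
def good : Bool → List (Lt Q) → Prop
  | _, [] => True
  | _, M _ :: v => good true v
  | _, St _ :: v => good false v
  | p, K _ :: v => p = false ∧ good false v
  | _, D :: _ => False

theorem good_weak {v : List (Lt Q)} {p : Bool} (h : good p v) : good false v := by
  cases v with
  | nil => trivial
  | cons a v =>
    cases a with
    | M t => exact h
    | St o => exact h
    | K j => exact ⟨rfl, h.2⟩
    | D => exact h

theorem good_append {v₁ v₂ : List (Lt Q)} {p : Bool} (h : good p (v₁ ++ v₂)) :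
    good p v₁ ∧ good false v₂ := by
  induction v₁ generalizing p with
  | nil => exact ⟨trivial, good_weak h⟩
  | cons a v ih =>
    cases a with
    | M t => exact ih h
    | St o => exact ih h
    | K j => exact ⟨⟨h.1, (ih h.2).1⟩, (ih h.2).2⟩
    | D => exact h.elim

/-- The states of the machine for the second language. -/
inductive S2 (Q : Type) (B l : ℕ) : Type
  | skip
  | p1 (t : Bool)
  | rd (t : Bool) (q : Q) (r : Bool → Fin B)
  | w1 (t : Bool) (q : Q) (r : Bool → Fin B)
  | w2 (t : Bool) (q : Q) (r : Bool → Fin B)
  | ck (t : Bool) (α s : Fin (l + 1))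
  | acc
  | dead

instance {B l : ℕ} [Finite Q] : Finite (S2 Q B l) := by
  refine Finite.of_injective (β := Unit ⊕ Bool ⊕ (Fin 3 × Bool × Q × (Bool → Fin B)) ⊕
      (Bool × Fin (l + 1) × Fin (l + 1)) ⊕ Bool)
    (fun g => match g with
      | .skip => .inl ()
      | .p1 t => .inr (.inl t)
      | .rd t q r => .inr (.inr (.inl (0, t, q, r)))
      | .w1 t q r => .inr (.inr (.inl (1, t, q, r)))
      | .w2 t q r => .inr (.inr (.inl (2, t, q, r)))
      | .ck t α s => .inr (.inr (.inr (.inl (t, α, s))))
      | .acc => .inr (.inr (.inr (.inr true)))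
      | .dead => .inr (.inr (.inr (.inr false)))) ?_
  intro a b h
  cases a <;> cases b <;> simp_all

variable (N : Sys Q Bool)

/-- the next residue -/
def inc (r : Fin N.B) : Fin N.B := if h : (r : ℕ) + 1 < N.B then ⟨r + 1, h⟩ else ⟨0, N.hB⟩

open Classical in
/-- The transitions of the machine for the second language. -/
noncomputable def tr : S2 Q N.B N.l → Option (Lt Q) → Bool → S2 Q N.B N.l × SignType
  | .skip, some D, _ => (.skip, 0)
  | .skip, some (M t), _ => (.p1 t, 0)
  | .p1 t, some (St (some q)), _ => (.rd t q (fun _ => ⟨0, N.hB⟩), 0)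
  | .rd t q r, some (K j), _ =>
      (.rd t q (Function.update r j (inc N (r j))), if j = t ∧ ¬ (r j : ℕ) + 1 < N.B then 1 else 0)
  | .rd t q r, some D, _ => (.w1 t q r, 0)
  | .w1 t q r, some (M _), _ => (.w2 t q r, 0)
  | .w2 t q r, some (St o), _ =>
      if o = N.nxt q r then
        (.ck t ⟨N.a q r t, Nat.lt_succ_of_le (N.ha q r t)⟩
          ⟨N.b q r t, Nat.lt_succ_of_le (N.hb q r t)⟩, 0)
      else (.acc, 0)
  | .ck t α s, some (K j), z =>
      if j ≠ t then (.ck t α s, 0)
      else if 0 < (s : ℕ) then (.ck t α ⟨s - 1, by omega⟩, 0)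
      else if (α : ℕ) = 0 ∨ z = true then (.acc, 0)
      else (.ck t α ⟨α - 1, by omega⟩, -1)
  | .ck _ α s, some D, z =>
      if 0 < (s : ℕ) then (.acc, 0)
      else if (α : ℕ) = 0 ∨ z = true then (.dead, 0)
      else (.acc, 0)
  | .acc, _, _ => (.acc, 0)
  | _, _, _ => (.dead, 0)

/-- One step of the machine on states and counters. -/
noncomputable def nc (c : S2 Q N.B N.l × ℕ) (x : Option (Lt Q)) : S2 Q N.B N.l × ℕ :=
  ((tr N c.1 x (decide (c.2 = 0))).1, ((c.2 : ℤ) + ((tr N c.1 x (decide (c.2 = 0))).2 : ℤ)).toNat)

/-- the result of reading a word -/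
noncomputable def rn (c : S2 Q N.B N.l × ℕ) (w : List (Lt Q)) : S2 Q N.B N.l × ℕ :=
  w.foldl (fun c a => nc N c (some a)) c

theorem rn_nil (c : S2 Q N.B N.l × ℕ) : rn N c [] = c := rfl
theorem rn_cons (c : S2 Q N.B N.l × ℕ) (a : Lt Q) (w : List (Lt Q)) :
    rn N c (a :: w) = rn N (nc N c (some a)) w := rfl
theorem rn_append (c : S2 Q N.B N.l × ℕ) (v w : List (Lt Q)) :
    rn N c (v ++ w) = rn N (rn N c v) w := by
  unfold rn
  rw [List.foldl_append]

theorem rn_dead (n : ℕ) (w : List (Lt Q)) : (rn N (.dead, n) w).1 = .dead := by
  induction w generalizing n with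
  | nil => rfl
  | cons a w ih => rw [rn_cons]; exact ih _

theorem rn_acc (n : ℕ) (w : List (Lt Q)) : (rn N (.acc, n) w).1 = .acc := by
  induction w generalizing n with
  | nil => rfl
  | cons a w ih =>
    rw [rn_cons]
    have : nc N (.acc, n) (some a) = (.acc, (nc N (.acc, n) (some a)).2) := by
      apply Prod.ext
      · show (tr N .acc (some a) (decide (n = 0))).1 = _
        cases a <;> rfl
      · rfl
    rw [this]
    exact ih _

/-! ### The work of the machine on a block -/

theorem succ_div_mod {B : ℕ} (hB : 0 < B) (x : ℕ) :
    (x + 1) / B = x / B + (if x % B + 1 < B then 0 else 1) ∧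
      (x + 1) % B = if x % B + 1 < B then x % B + 1 else 0 := by
  have hx := Nat.div_add_mod x B
  have hr := Nat.mod_lt x hB
  set q := x / B
  set r := x % B
  split_ifs with h
  · rw [← hx, add_assoc]
    refine ⟨?_, ?_⟩
    · rw [Nat.mul_add_div hB, Nat.div_eq_of_lt h]
    · rw [Nat.mul_add_mod, Nat.mod_eq_of_lt h]
  · have e : x + 1 = B * (q + 1) := by rw [Nat.mul_add, ← hx]; omega
    rw [e]
    refine ⟨?_, ?_⟩
    · rw [Nat.mul_div_cancel_left _ hB]
    · rw [Nat.mul_mod_right]

theorem tz (x : ℕ) : ((x : ℤ) + ((0 : SignType) : ℤ)).toNat = x := by simp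
theorem tone (x : ℕ) : ((x : ℤ) + ((1 : SignType) : ℤ)).toNat = x + 1 := by
  simp only [SignType.coe_one]
  omega

/-- add the counter letters of `z` to the counters `n` -/
def addc (n : Bool → ℕ) (z : List Bool) : Bool → ℕ := fun i => n i + z.count i

theorem nc_rd (t : Bool) (q : Q) (n : Bool → ℕ) (j : Bool) :
    nc N (.rd t q (N.res n), n t / N.B) (some (K j)) =
      (.rd t q (N.res (addc n [j])), addc n [j] t / N.B) := by
  have hj : ∀ i, addc n [j] i = if i = j then n i + 1 else n i := by
    intro i
    unfold addc
    by_cases h : i = j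
    · subst h; simp
    · rw [List.count_singleton]
      simp [h, Ne.symm h]
  apply Prod.ext
  · show S2.rd t q (Function.update (N.res n) j (inc N (N.res n j))) = _
    congr 1
    funext i
    apply Fin.ext
    by_cases h : i = j
    · subst h
      rw [Function.update_self]
      show ((inc N (N.res n i) : Fin N.B) : ℕ) = addc n [i] i % N.B
      rw [hj, if_pos rfl, (succ_div_mod N.hB _).2]
      unfold inc
      by_cases h2 : (N.res n i : ℕ) + 1 < N.B
      · have h2' : n i % N.B + 1 < N.B := h2
        rw [dif_pos h2, if_pos h2']
        rfl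
      · have h2' : ¬ n i % N.B + 1 < N.B := h2
        rw [dif_neg h2, if_neg h2']
    · rw [Function.update_of_ne h]
      show n i % N.B = addc n [j] i % N.B
      rw [hj, if_neg h]
  · show (((n t / N.B : ℕ) : ℤ) + ((if j = t ∧ ¬ ((N.res n j : ℕ) + 1 < N.B) then (1 : SignType)
      else 0 : SignType) : ℤ)).toNat = addc n [j] t / N.B
    rw [hj]
    by_cases h : t = j
    · subst h
      rw [if_pos rfl, (succ_div_mod N.hB _).1]
      have e : (N.res n t : ℕ) = n t % N.B := rfl
      by_cases h2 : n t % N.B + 1 < N.B
      · rw [if_neg (by rw [e]; tauto), if_pos h2]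
        exact tz _
      · rw [if_pos (by rw [e]; exact ⟨rfl, h2⟩), if_neg h2]
        exact tone _
    · rw [if_neg (by intro hc; exact h hc.1.symm), if_neg h]
      exact tz _

theorem rd_read (t : Bool) (q : Q) (z : List Bool) : ∀ n : Bool → ℕ,
    rn N (.rd t q (N.res n), n t / N.B) (z.map K) =
      (.rd t q (N.res (addc n z)), addc n z t / N.B) := by
  induction z with
  | nil => intro n; rfl
  | cons j z ih =>
    intro n
    rw [List.map_cons, rn_cons, nc_rd, ih]
    have : addc (addc n [j]) z = addc n (j :: z) := by
      funext i
      unfold addc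
      simp only [List.count_cons, List.count_nil]
      omega
    rw [this]

/-- the counts of a list -/
def cnt (z : List Bool) : Bool → ℕ := fun i => z.count i

theorem first_block (t : Bool) (q : Q) (z : List Bool) :
    rn N (.skip, 0) (M t :: St (some q) :: (z.map K ++ [D])) =
      (.w1 t q (N.res (cnt z)), cnt z t / N.B) := by
  rw [rn_cons, rn_cons, rn_append]
  have h1 : nc N (nc N (.skip, 0) (some (M t))) (some (St (some q))) =
      (.rd t q (N.res (fun _ => 0)), (fun _ => 0 : Bool → ℕ) t / N.B) := by
    apply Prod.ext
    · show S2.rd t q (fun _ => ⟨0, N.hB⟩) = S2.rd t q (N.res (fun _ => 0))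
      congr 1
    · simp only [Nat.zero_div]
      rfl
  rw [h1, rd_read]
  have h2 : addc (fun _ => 0) z = cnt z := by
    funext i
    unfold addc cnt
    simp
  rw [h2]
  apply Prod.ext
  · rfl
  · exact tz _

theorem ck_read (t : Bool) (z : List Bool) : ∀ (α s : Fin (N.l + 1)) (c : ℕ),
    (rn N (.ck t α s, c) (z.map K ++ [D])).1 =
      if z.count t = s + α * c then .dead else .acc := by
  induction z with
  | nil =>
    intro α s c
    show (tr N (.ck t α s) (some D) (decide (c = 0))).1 = _
    simp only [tr]
    by_cases hs : 0 < (s : ℕ)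
    · rw [if_pos hs, if_neg]
      rw [List.count_nil]
      omega
    · have hs' : (s : ℕ) = 0 := by omega
      rw [if_neg hs]
      by_cases hα : (α : ℕ) = 0 ∨ decide (c = 0) = true
      · rw [if_pos hα, if_pos]
        rw [List.count_nil, hs']
        rcases hα with h | h
        · rw [h]; simp
        · rw [of_decide_eq_true h]; simp
      · rw [if_neg hα, if_neg]
        push Not at hα
        rw [List.count_nil, hs']
        have h1 : c ≠ 0 := fun h => hα.2 (decide_eq_true h)
        have := Nat.mul_pos (Nat.pos_of_ne_zero hα.1) (Nat.pos_of_ne_zero h1)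
        omega
  | cons j z ih =>
    intro α s c
    rw [List.map_cons, List.cons_append, rn_cons]
    by_cases hj : j = t
    · subst hj
      rw [List.count_cons_self]
      by_cases hs : 0 < (s : ℕ)
      · have e : nc N (.ck j α s, c) (some (K j)) = (.ck j α ⟨s - 1, by omega⟩, c) := by
          unfold nc
          simp only [tr, ne_eq, not_true_eq_false, if_false, if_pos hs]
          simp
        rw [e, ih]
        have : (z.count j = ((⟨s - 1, by omega⟩ : Fin (N.l + 1)) : ℕ) + α * c) ↔
            (z.count j + 1 = s + α * c) := by
          show z.count j = (s : ℕ) - 1 + α * c ↔ _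
          omega
        simp only [this]
      · have hs' : (s : ℕ) = 0 := by omega
        by_cases hα : (α : ℕ) = 0 ∨ decide (c = 0) = true
        · have e : (nc N (.ck j α s, c) (some (K j))) = (.acc, c) := by
            unfold nc
            simp only [tr, ne_eq, not_true_eq_false, if_false, if_neg hs, if_pos hα]
            simp
          rw [e, rn_acc, if_neg]
          rw [hs']
          rcases hα with h | h
          · rw [h]; simp
          · rw [of_decide_eq_true h]; simp
        · have e : (nc N (.ck j α s, c) (some (K j))) = (.ck j α ⟨α - 1, by omega⟩, c - 1) := by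
            unfold nc
            simp only [tr, ne_eq, not_true_eq_false, if_false, if_neg hs, if_neg hα]
            congr 1
            simp only [SignType.coe_neg_one]
            omega
          rw [e, ih]
          push Not at hα
          have h1 : c ≠ 0 := fun h => hα.2 (decide_eq_true h)
          obtain ⟨c', rfl⟩ := Nat.exists_eq_succ_of_ne_zero h1
          have h0 := hα.1
          have : (z.count j = ((⟨α - 1, by omega⟩ : Fin (N.l + 1)) : ℕ) + α * (c'.succ - 1)) ↔
              (z.count j + 1 = s + α * c'.succ) := by
            show z.count j = (α : ℕ) - 1 + α * (c'.succ - 1) ↔ _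
            rw [Nat.succ_sub_one, Nat.mul_succ, hs']
            omega
          simp only [this]
    · have e : nc N (.ck t α s, c) (some (K j)) = (.ck t α s, c) := by
        unfold nc
        simp only [tr, ne_eq, hj, not_false_eq_true, if_true]
        simp
      rw [e, ih, List.count_cons_of_ne hj]

theorem second_block (t t' : Bool) (q : Q) (r : Bool → Fin N.B) (c : ℕ) (o : Option Q)
    (z : List Bool) :
    (o = N.nxt q r ∧ z.count t = N.b q r t + N.a q r t * c →
      (rn N (.w1 t q r, c) (M t' :: St o :: (z.map K ++ [D]))).1 = .dead) ∧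
    (¬ (o = N.nxt q r ∧ z.count t = N.b q r t + N.a q r t * c) →
      (rn N (.w1 t q r, c) (M t' :: St o :: (z.map K ++ [D]))).1 = .acc) := by
  rw [rn_cons, rn_cons]
  have e : nc N (.w1 t q r, c) (some (M t')) = (.w2 t q r, c) := by
    unfold nc
    simp [tr]
  rw [e]
  by_cases ho : o = N.nxt q r
  · have e2 : nc N (.w2 t q r, c) (some (St o)) =
        (.ck t ⟨N.a q r t, Nat.lt_succ_of_le (N.ha q r t)⟩
          ⟨N.b q r t, Nat.lt_succ_of_le (N.hb q r t)⟩, c) := by
      unfold nc
      simp only [tr, if_pos ho]
      simp
    rw [e2, ck_read]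
    constructor
    · rintro ⟨-, h⟩
      rw [if_pos h]
    · intro h
      rw [if_neg]
      exact fun hc => h ⟨ho, hc⟩
  · have e2 : nc N (.w2 t q r, c) (some (St o)) = (.acc, c) := by
      unfold nc
      simp only [tr, if_neg ho]
      simp
    rw [e2, rn_acc]
    exact ⟨fun h => (ho h.1).elim, fun _ => rfl⟩

/-! ### Blocks and mismatches -/

/-- the word of a configuration: the menu, the state, the counter letters, the end -/
def blk (c : Option Q × List Bool) : List (Lt Q) :=
  M true :: M false :: St c.1 :: (c.2.map K ++ [D])

/-- the word of a configuration without the end -/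
def blk' (c : Option Q × List Bool) : List (Lt Q) :=
  M true :: M false :: St c.1 :: c.2.map K

/-- the second configuration is not the next one -/
def bad (c c' : Option Q × List Bool) : Prop :=
  ∃ q, c.1 = some q ∧ ¬ (c'.1 = N.nxt q (N.res (cnt c.2)) ∧ cnt c'.2 = N.nn q (cnt c.2))

/-- there is a mismatch -/
def mm : List (Option Q × List Bool) → Prop
  | [] => False
  | [_] => False
  | c :: c' :: l => bad N c c' ∨ mm (c' :: l)

theorem mm_cons (c : Option Q × List Bool) {l : List (Option Q × List Bool)} (h : mm N l) :
    mm N (c :: l) := by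
  cases l with
  | nil => exact h.elim
  | cons c' l => exact Or.inr h

/-- the word of a list of configurations -/
def word (l : List (Option Q × List Bool)) : List (Lt Q) := l.flatMap blk

theorem shuf_tail {v u : List (Lt Q)} {z : List Bool} {p : Bool}
    (h : Shuf v u (z.map K ++ [D])) (hv : good p v) :
    (p = true → u = z.map K ++ [D]) ∧ ∃ y : List Bool, u = y.map K ++ [D] := by
  induction z generalizing v u p with
  | nil =>
    rw [List.map_nil, List.nil_append] at h
    cases h with
    | left _ h => exact hv.elim
    | right _ h =>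
      cases h
      exact ⟨fun _ => rfl, [], rfl⟩
  | cons j z ih =>
    rw [List.map_cons, List.cons_append] at h
    cases h with
    | left _ h =>
      obtain ⟨_, y, hy⟩ := ih h hv.2
      exact ⟨fun hp => by rw [hv.1] at hp; exact absurd hp (by decide), y, hy⟩
    | right _ h =>
      obtain ⟨h1, y, hy⟩ := ih h hv
      exact ⟨fun hp => by rw [h1 hp]; rfl, j :: y, by rw [hy]; rfl⟩

/-- The eight ways to share a block. -/
theorem shuf_block {v u : List (Lt Q)} {c : Option Q × List Bool}
    (h : Shuf v u (blk c)) (hv : good false v) :
    (∃ t, u = M t :: St c.1 :: (c.2.map K ++ [D])) ∨ (∃ y : List Bool, u = y.map K ++ [D]) ∨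
      (∃ y : List Bool, ∃ t, u = M t :: (y.map K ++ [D])) ∨ (∃ u', u = St c.1 :: u') ∨
      (∃ t t' u', u = M t :: M t' :: u') := by
  unfold blk at h
  cases h with
  | left _ h =>
    cases h with
    | left _ h =>
      cases h with
      | left _ h => exact Or.inr (Or.inl (shuf_tail h hv).2)
      | right _ h => exact Or.inr (Or.inr (Or.inr (Or.inl ⟨_, rfl⟩)))
    | right _ h =>
      cases h with
      | left _ h =>
        obtain ⟨y, hy⟩ := (shuf_tail h hv).2
        exact Or.inr (Or.inr (Or.inl ⟨y, false, by rw [hy]⟩))
      | right _ h =>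
        exact Or.inl ⟨false, by rw [(shuf_tail h hv).1 rfl]⟩
  | right _ h =>
    cases h with
    | left _ h =>
      cases h with
      | left _ h =>
        obtain ⟨y, hy⟩ := (shuf_tail h hv).2
        exact Or.inr (Or.inr (Or.inl ⟨y, true, by rw [hy]⟩))
      | right _ h =>
        exact Or.inl ⟨true, by rw [(shuf_tail h hv).1 rfl]⟩
    | right _ h => exact Or.inr (Or.inr (Or.inr (Or.inr ⟨_, _, _, rfl⟩)))

theorem rn_ne_acc {c : S2 Q N.B N.l × ℕ} {v w : List (Lt Q)} (h : (rn N c v).1 = .dead)
    (h2 : (rn N c (v ++ w)).1 = .acc) : False := by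
  rw [rn_append] at h2
  have : rn N c v = (.dead, (rn N c v).2) := Prod.ext h rfl
  rw [this, rn_dead] at h2
  exact absurd h2 (by simp)

theorem main_second {t : Bool} {q : Q} {r : Bool → Fin N.B} {n : ℕ}
    {cs : List (Option Q × List Bool)} {v u : List (Lt Q)} (h : Shuf v u (word cs))
    (hv : good false v) (hu : (rn N (.w1 t q r, n) u).1 = .acc) :
    ∃ c cs', cs = c :: cs' ∧ ¬ (c.1 = N.nxt q r ∧ c.2.count t = N.b q r t + N.a q r t * n) := by
  cases cs with
  | nil =>
    cases h
    exact absurd hu (by simp [rn])
  | cons c cs =>
    refine ⟨c, cs, rfl, fun hc => ?_⟩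
    unfold word at h
    rw [List.flatMap_cons] at h
    obtain ⟨v1, v2, u1, u2, rfl, rfl, h1, h2⟩ := h.split
    have dead : ∀ (a : Lt Q) (l : List (Lt Q)), (∀ t, a ≠ M t) →
        (rn N (.w1 t q r, n) (a :: l)).1 = .dead := by
      intro a l ha
      rw [rn_cons]
      have : nc N (.w1 t q r, n) (some a) = (.dead, (nc N (.w1 t q r, n) (some a)).2) := by
        refine Prod.ext ?_ rfl
        cases a with
        | M t => exact absurd rfl (ha t)
        | St o => rfl
        | K j => rfl
        | D => rfl
      rw [this, rn_dead]
    have dead2 : ∀ (t' : Bool) (a : Lt Q) (l : List (Lt Q)), (∀ o, a ≠ St o) →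
        (rn N (.w1 t q r, n) (M t' :: a :: l)).1 = .dead := by
      intro t' a l ha
      rw [rn_cons, rn_cons]
      have e : nc N (.w1 t q r, n) (some (M t')) = (.w2 t q r, n) := by
        unfold nc
        simp [tr]
      rw [e]
      have : nc N (.w2 t q r, n) (some a) = (.dead, (nc N (.w2 t q r, n) (some a)).2) := by
        refine Prod.ext ?_ rfl
        cases a with
        | M t => rfl
        | St o => exact absurd rfl (ha o)
        | K j => rfl
        | D => rfl
      rw [this, rn_dead]
    refine rn_ne_acc N ?_ hu
    rcases shuf_block h1 (good_append hv).1 with ⟨t', rfl⟩ | ⟨y, rfl⟩ | ⟨y, t', rfl⟩ | ⟨u', rfl⟩ |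
      ⟨t1, t2, u', rfl⟩
    · exact (second_block N t t' q r n c.1 c.2).1 hc
    · cases y with
      | nil => exact dead _ _ (by simp)
      | cons j y => exact dead _ _ (by simp)
    · cases y with
      | nil => exact dead2 _ _ _ (by simp)
      | cons j y => exact dead2 _ _ _ (by simp)
    · exact dead _ _ (by simp)
    · exact dead2 _ _ _ (by simp)

theorem main_first {cs : List (Option Q × List Bool)} : ∀ {v u : List (Lt Q)},
    Shuf v u (word cs) → good false v → (rn N (.skip, 0) u).1 = .acc → mm N cs := by
  induction cs with
  | nil =>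
    intro v u h hv hu
    cases h
    exact absurd hu (by simp [rn])
  | cons c cs ih =>
    intro v u h hv hu
    unfold word at h
    rw [List.flatMap_cons] at h
    obtain ⟨v1, v2, u1, u2, rfl, rfl, h1, h2⟩ := h.split
    obtain ⟨g1, g2⟩ := good_append hv
    have dead : ∀ (a : Lt Q) (l : List (Lt Q)), (∀ t, a ≠ M t) → a ≠ D →
        (rn N (.skip, 0) (a :: l)).1 = .dead := by
      intro a l ha ha'
      rw [rn_cons]
      have : nc N (.skip, 0) (some a) = (.dead, (nc N (.skip, 0) (some a)).2) := by
        refine Prod.ext ?_ rfl
        cases a with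
        | M t => exact absurd rfl (ha t)
        | St o => rfl
        | K j => rfl
        | D => exact absurd rfl ha'
      rw [this, rn_dead]
    have e : ∀ t', nc N (.skip, 0) (some (M t')) = (.p1 t', 0) := by
      intro t'
      unfold nc
      simp [tr]
    have dead2 : ∀ (t' : Bool) (a : Lt Q) (l : List (Lt Q)), (∀ q, a ≠ St (some q)) →
        (rn N (.skip, 0) (M t' :: a :: l)).1 = .dead := by
      intro t' a l ha
      rw [rn_cons, rn_cons, e]
      have : nc N (.p1 t', 0) (some a) = (.dead, (nc N (.p1 t', 0) (some a)).2) := by
        refine Prod.ext ?_ rfl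
        cases a with
        | M t => rfl
        | St o =>
          cases o with
          | none => rfl
          | some q => exact absurd rfl (ha q)
        | K j => rfl
        | D => rfl
      rw [this, rn_dead]
    rcases shuf_block h1 g1 with ⟨t', rfl⟩ | ⟨y, rfl⟩ | ⟨y, t', rfl⟩ | ⟨u', rfl⟩ |
      ⟨t1, t2, u', rfl⟩
    · obtain ⟨o, z⟩ := c
      cases o with
      | none => exact (rn_ne_acc N (dead2 _ _ _ (by simp)) hu).elim
      | some q =>
        rw [rn_append, first_block] at hu
        obtain ⟨c', cs', rfl, hc'⟩ := main_second N h2 g2 hu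
        refine Or.inl ⟨q, rfl, fun hc => hc' ⟨hc.1, ?_⟩⟩
        have := congrFun hc.2 t'
        unfold cnt Sys.nn at this
        unfold cnt
        rw [this]
        ring
    · cases y with
      | nil =>
        apply mm_cons
        refine ih h2 g2 ?_
        rw [rn_append] at hu
        have : rn N (.skip, 0) (List.map K [] ++ [D]) = (.skip, 0) := by
          show nc N (.skip, 0) (some D) = _
          unfold nc
          simp [tr]
        rwa [this] at hu
      | cons j y => exact (rn_ne_acc N (dead _ _ (by simp) (by simp)) hu).elim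
    · cases y with
      | nil => exact (rn_ne_acc N (dead2 _ _ _ (by simp)) hu).elim
      | cons j y => exact (rn_ne_acc N (dead2 _ _ _ (by simp)) hu).elim
    · exact (rn_ne_acc N (dead _ _ (by simp) (by simp)) hu).elim
    · exact (rn_ne_acc N (dead2 _ _ _ (by simp)) hu).elim

/-! ### Constructing a decomposition from a mismatch -/

theorem Shuf.append {A : Type} {u v w u' v' w' : List A} (h : Shuf u v w) (h' : Shuf u' v' w') :
    Shuf (u ++ u') (v ++ v') (w ++ w') := by
  induction h with
  | nil => exact h'
  | left a _ ih => exact Shuf.left a ih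
  | right a _ ih => exact Shuf.right a ih

theorem good_K (z : List Bool) {v : List (Lt Q)} (h : good false v) :
    good false (z.map K ++ v) := by
  induction z with
  | nil => exact h
  | cons j z ih => exact ⟨rfl, ih⟩

theorem good_blk' (c : Option Q × List Bool) {v : List (Lt Q)} (h : good false v) (p : Bool) :
    good p (blk' c ++ v) := good_K c.2 h

theorem rest (cs : List (Option Q × List Bool)) :
    (∀ p, good p (cs.flatMap blk')) ∧
      Shuf (cs.flatMap blk') (List.replicate cs.length (D : Lt Q)) (word cs) := by
  induction cs with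
  | nil => exact ⟨fun p => trivial, Shuf.nil⟩
  | cons c cs ih =>
    refine ⟨fun p => ?_, ?_⟩
    · rw [List.flatMap_cons]
      exact good_blk' c (ih.1 false) p
    · unfold word at ih ⊢
      rw [List.flatMap_cons, List.flatMap_cons, List.length_cons, List.replicate_succ]
      have : blk c = blk' c ++ [D] := rfl
      rw [this, List.append_assoc]
      exact Shuf.left_all _ (Shuf.right D ih.2)

theorem shuf_sel (t : Bool) (c : Option Q × List Bool) :
    Shuf [M (!t)] (M t :: St c.1 :: (c.2.map K ++ [D])) (blk c) := by
  have h : Shuf ([] : List (Lt Q)) (St c.1 :: (c.2.map K ++ [D]))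
      (St c.1 :: (c.2.map K ++ [D])) := by
    have := Shuf.right_all (St c.1 :: (c.2.map K ++ [D])) (Shuf.nil (A := Lt Q))
    simpa using this
  cases t with
  | true => exact Shuf.right _ (Shuf.left _ h)
  | false => exact Shuf.left _ (Shuf.right _ h)

theorem main_back {cs : List (Option Q × List Bool)} (h : mm N cs) :
    ∃ v u, Shuf v u (word cs) ∧ good false v ∧ (rn N (.skip, 0) u).1 = .acc := by
  induction cs with
  | nil => exact h.elim
  | cons c cs ih =>
    cases cs with
    | nil => exact h.elim
    | cons c' cs =>
      rcases h with h | h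
      · obtain ⟨q, hq, hb⟩ := h
        obtain ⟨o, z⟩ := c
        simp only at hq hb
        subst hq
        have ht : ∃ t, ¬ (c'.1 = N.nxt q (N.res (cnt z)) ∧
            c'.2.count t = N.b q (N.res (cnt z)) t + N.a q (N.res (cnt z)) t * (cnt z t / N.B)) := by
          by_contra hcon
          push Not at hcon
          refine hb ⟨(hcon true).1, ?_⟩
          funext t
          have := (hcon t).2
          unfold Sys.nn
          show c'.2.count t = _
          rw [this]
          ring
        obtain ⟨t, ht⟩ := ht
        obtain ⟨r1, r2⟩ := rest cs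
        refine ⟨[M (!t)] ++ ([M (!t)] ++ cs.flatMap blk'),
          (M t :: St (some q) :: (z.map K ++ [D])) ++
            ((M t :: St c'.1 :: (c'.2.map K ++ [D])) ++ List.replicate cs.length D), ?_, ?_, ?_⟩
        · unfold word at r2 ⊢
          rw [List.flatMap_cons, List.flatMap_cons]
          exact (shuf_sel t (some q, z)).append ((shuf_sel t c').append r2)
        · exact r1 true
        · rw [rn_append, first_block, rn_append]
          have h2 := (second_block N t t q (N.res (cnt z)) (cnt z t / N.B) c'.1 c'.2).2 ht
          have : rn N (.w1 t q (N.res (cnt z)), cnt z t / N.B)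
              (M t :: St c'.1 :: (c'.2.map K ++ [D])) = (.acc, (rn N (.w1 t q (N.res (cnt z)),
                cnt z t / N.B) (M t :: St c'.1 :: (c'.2.map K ++ [D]))).2) := Prod.ext h2 rfl
          rw [this, rn_acc]
      · obtain ⟨v, u, h1, h2, h3⟩ := ih h
        refine ⟨blk' c ++ v, D :: u, ?_, good_blk' c h2 _, ?_⟩
        · unfold word at h1 ⊢
          rw [List.flatMap_cons]
          have : blk c = blk' c ++ [D] := rfl
          rw [this, List.append_assoc]
          exact Shuf.left_all _ (Shuf.right D h1)
        · rw [rn_cons]
          have : nc N (.skip, 0) (some D) = (.skip, 0) := by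
            unfold nc
            simp [tr]
          rw [this]
          exact h3

/-! ### Halting computations -/

/-- the configurations of a computation: states from `l`, then a halting configuration -/
def full (l : List (Q × List Bool)) (z : List Bool) : List (Option Q × List Bool) :=
  l.map (fun p => (some p.1, p.2)) ++ [(none, z)]

theorem exists_cnt (n : Bool → ℕ) : ∃ z, cnt z = n := by
  refine ⟨List.replicate (n true) true ++ List.replicate (n false) false, ?_⟩
  funext j
  unfold cnt
  cases j <;> simp [List.count_append, List.count_replicate]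

theorem halts_full {o : Option Q} {n : Bool → ℕ} (h : N.Halts o n) : ∀ z, cnt z = n →
    ∃ l z' cs, full l z' = (o, z) :: cs ∧ ¬ mm N (full l z') := by
  induction h with
  | stop n =>
    intro z _
    exact ⟨[], z, [], rfl, fun h => h⟩
  | step q n _ ih =>
    intro z hz
    obtain ⟨z1, hz1⟩ := exists_cnt (N.nn q n)
    obtain ⟨l, z', cs, h1, h2⟩ := ih z1 hz1
    refine ⟨(q, z) :: l, z', full l z', rfl, ?_⟩
    show ¬ mm N ((some q, z) :: full l z')
    rw [h1] at h2 ⊢
    rintro (⟨q', hq', hb⟩ | hb)
    · simp only [Option.some.injEq] at hq'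
      subst hq'
      apply hb
      simp only
      rw [hz]
      exact ⟨rfl, hz1⟩
    · exact h2 hb

theorem full_halts (l : List (Q × List Bool)) (z' : List Bool) (h : ¬ mm N (full l z')) :
    ∀ c cs, full l z' = c :: cs → N.Halts c.1 (cnt c.2) := by
  induction l with
  | nil =>
    intro c cs hc
    have : c = (none, z') := by
      have := List.head_eq_of_cons_eq hc
      exact this.symm
    rw [this]
    exact Sys.Halts.stop _
  | cons p l ih =>
    intro c cs hc
    have e : full (p :: l) z' = (some p.1, p.2) :: full l z' := rfl
    rw [e] at hc h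
    obtain ⟨rfl, rfl⟩ := List.cons.inj hc
    obtain ⟨c', cs', hcs⟩ : ∃ c' cs', full l z' = c' :: cs' := by
      cases l with
      | nil => exact ⟨_, _, rfl⟩
      | cons a l => exact ⟨_, _, rfl⟩
    rw [hcs] at h
    have h1 : ¬ bad N (some p.1, p.2) c' := fun hb => h (Or.inl hb)
    have h2 : ¬ mm N (full l z') := by
      rw [hcs]
      exact fun hb => h (Or.inr hb)
    have h3 := ih h2 c' cs' hcs
    have h4 : c'.1 = N.nxt p.1 (N.res (cnt p.2)) ∧ cnt c'.2 = N.nn p.1 (cnt p.2) := by
      by_contra hb
      exact h1 ⟨p.1, rfl, hb⟩
    rw [h4.1, h4.2] at h3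
    exact Sys.Halts.step _ _ h3

/-! ### The machine -/

theorem tr_zero (q : S2 Q N.B N.l) (x : Option (Lt Q)) : (tr N q x true).2 ≠ -1 := by
  cases x with
  | none => cases q <;> simp [tr]
  | some a =>
    cases a with
    | M t => cases q <;> simp [tr]
    | St o =>
      cases o <;> cases q <;> simp only [tr] <;> (try split_ifs) <;> simp
    | K j =>
      cases q <;> simp only [tr] <;> (try split_ifs) <;> simp_all
    | D =>
      cases q <;> simp only [tr] <;> (try split_ifs) <;> simp

theorem tr_none (q : S2 Q N.B N.l) (z : Bool) : (tr N q none z).1 = .acc ↔ q = .acc := by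
  cases q <;> simp [tr]

/-- the late states: the counter is never increased again -/
def late : S2 Q N.B N.l → Prop
  | .skip => False
  | .p1 _ => False
  | .rd _ _ _ => False
  | _ => True

theorem late_tr (q : S2 Q N.B N.l) (x : Option (Lt Q)) (z : Bool) (h : late N q) :
    late N (tr N q x z).1 ∧ (tr N q x z).2 ≠ 1 := by
  cases q with
  | skip => exact h.elim
  | p1 t => exact h.elim
  | rd t q r => exact h.elim
  | w1 t q r => cases x with
    | none => simp [tr, late]
    | some a => cases a <;> simp [tr, late]
  | w2 t q r => cases x with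
    | none => simp [tr, late]
    | some a =>
      cases a with
      | St o =>
        simp only [tr]
        split_ifs <;> simp [late]
      | M t => simp [tr, late]
      | K t => simp [tr, late]
      | D => simp [tr, late]
  | ck t α s => cases x with
    | none => simp [tr, late]
    | some a =>
      cases a with
      | St o => simp [tr, late]
      | M t => simp [tr, late]
      | K t =>
        simp only [tr]
        split_ifs <;> simp [late]
      | D =>
        simp only [tr]
        split_ifs <;> simp [late]
  | acc => cases x with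
    | none => simp [tr, late]
    | some a => cases a <;> simp [tr, late]
  | dead => cases x with
    | none => simp [tr, late]
    | some a => cases a <;> simp [tr, late]

theorem dec_late (q : S2 Q N.B N.l) (x : Option (Lt Q)) (z : Bool) (h : (tr N q x z).2 = -1) :
    late N q := by
  cases q with
  | skip =>
    exfalso
    cases x with
    | none => simp [tr] at h
    | some a => cases a <;> simp [tr] at h
  | p1 t =>
    exfalso
    cases x with
    | none => simp [tr] at h
    | some a =>
      cases a with
      | St o => cases o <;> simp [tr] at h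
      | M t => simp [tr] at h
      | K t => simp [tr] at h
      | D => simp [tr] at h
  | rd t q r =>
    exfalso
    cases x with
    | none => simp [tr] at h
    | some a =>
      cases a with
      | St o => simp [tr] at h
      | M t => simp [tr] at h
      | K j =>
        simp only [tr] at h
        split_ifs at h
      | D => simp [tr] at h
  | w1 t q r => trivial
  | w2 t q r => trivial
  | ck t α s => trivial
  | acc => trivial
  | dead => trivial

end Pool.Agent.R576.Shuf
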